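import Mathlib
import Pool.Agent.W558.Model
import Pool.Agent.W558.Var

set_option autoImplicit false
set_option linter.unusedSectionVars false

universe u

open MvPolynomial AlgebraicGeometry CategoryTheory Pool.Agent.H920R2

namespace Pool.Agent.Helper819.TG

open Pool.Agent.W558

section core

variable {k K : Type u} [Field k] [Field K] [Algebra k K] {m : ℕ}
  (J : Subalgebra K (MvPolynomial (Fin m) K))

/-- The polynomials over `A` which are contained in `J`. -/
noncomputable def invJ (k A : Type u) {K : Type u} [Field k] [CommRing A] [Algebra k A] [Field K] [Algebra k K]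
    [Algebra A K] [IsScalarTower k A K] {m : ℕ} (J : Subalgebra K (MvPolynomial (Fin m) K)) :
    Subalgebra k (MvPolynomial (Fin m) A) :=
  (J.restrictScalars k).comap (MvPolynomial.mapAlgHom (IsScalarTower.toAlgHom k A K))

variable {A : Type u} [CommRing A] [IsDomain A] [Algebra k A] [Algebra A K] [IsScalarTower k A K]

lemma mem_invJ {f : MvPolynomial (Fin m) A} :
    f ∈ invJ k A J ↔ MvPolynomial.map (algebraMap A K) f ∈ J := Iff.rfl

lemma C_mem_invJ (a : A) : (C a : MvPolynomial (Fin m) A) ∈ invJ k A J := by
  rw [mem_invJ, MvPolynomial.map_C]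
  exact J.algebraMap_mem _

/-- The embedding of the polynomial ring in its field of fractions. -/
noncomputable def jK (k K : Type u) [Field k] [Field K] [Algebra k K] (m : ℕ) :
    MvPolynomial (Fin m) K →ₐ[k] FractionRing (MvPolynomial (Fin m) K) :=
  IsScalarTower.toAlgHom k (MvPolynomial (Fin m) K) (FractionRing (MvPolynomial (Fin m) K))

lemma jK_injective : Function.Injective (jK k K m) :=
  IsFractionRing.injective (MvPolynomial (Fin m) K) (FractionRing (MvPolynomial (Fin m) K))

/-- The chart. -/
noncomputable def Cs (O : Subalgebra k K) : Subalgebra k (FractionRing (MvPolynomial (Fin m) K)) :=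
  (invJ k O J).map ((jK k K m).comp (MvPolynomial.mapAlgHom O.val))

lemma mem_Cs {O : Subalgebra k K} {y : FractionRing (MvPolynomial (Fin m) K)} :
    y ∈ Cs J O ↔ ∃ x : MvPolynomial (Fin m) K, (∀ s, coeff s x ∈ O) ∧ x ∈ J ∧
      jK k K m x = y := by
  constructor
  · rintro ⟨f, hf, rfl⟩
    refine ⟨MvPolynomial.map (algebraMap O K) f, fun s => ?_, hf, rfl⟩
    rw [MvPolynomial.coeff_map]
    exact (coeff s f).2
  · rintro ⟨x, h1, h2, rfl⟩
    have h3 : ∃ f : MvPolynomial (Fin m) O, MvPolynomial.map (algebraMap O K) f = x := by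
      refine ⟨∑ s ∈ x.support, monomial s ⟨_, h1 s⟩, ?_⟩
      rw [map_sum]
      conv_rhs => rw [← MvPolynomial.support_sum_monomial_coeff x]
      refine Finset.sum_congr rfl fun s _ => ?_
      rw [MvPolynomial.map_monomial]
      rfl
    obtain ⟨f, rfl⟩ := h3
    exact ⟨f, h2, rfl⟩

lemma C_mem_Cs {O : Subalgebra k K} {c : K} (hc : c ∈ O) :
    jK k K m (C c) ∈ Cs J O := by
  classical
  rw [mem_Cs]
  refine ⟨C c, fun s => ?_, J.algebraMap_mem _, rfl⟩
  rw [MvPolynomial.coeff_C]
  split_ifs
  · exact hc
  · exact O.zero_mem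

/-- The charts are smooth. -/
theorem smooth_Cs (O : Subalgebra k K) (hO : Algebra.Smooth k (invJ k O J)) :
    Algebra.Smooth k (Cs J O) := by
  have hinj : Function.Injective ((jK k K m).comp (MvPolynomial.mapAlgHom O.val)) :=
    (jK_injective (k := k) (K := K) (m := m)).comp
      (MvPolynomial.map_injective _ Subtype.val_injective)
  exact Algebra.Smooth.of_equiv ((invJ k O J).equivMapOfInjective _ hinj)

/-- The embedding of the ring of invariants. -/
noncomputable def gA (k A : Type u) {K : Type u} [Field k] [CommRing A] [Algebra k A] [Field K]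
    [Algebra k K] [Algebra A K] [IsScalarTower k A K] {m : ℕ}
    (J : Subalgebra K (MvPolynomial (Fin m) K)) :
    invJ k A J →ₐ[k] FractionRing (MvPolynomial (Fin m) K) :=
  (jK k K m).comp ((MvPolynomial.mapAlgHom (IsScalarTower.toAlgHom k A K)).comp
    (invJ k A J).val)

lemma exists_lift (x : MvPolynomial (Fin m) K)
    (h : ∀ s, coeff s x ∈ (IsScalarTower.toAlgHom k A K).range) (hx : x ∈ J) :
    ∃ a : invJ k A J, gA k A J a = jK k K m x := by
  have h1 : ∃ f : MvPolynomial (Fin m) A, MvPolynomial.map (algebraMap A K) f = x := by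
    choose c hc using h
    refine ⟨∑ s ∈ x.support, monomial s (c s), ?_⟩
    rw [map_sum]
    conv_rhs => rw [← MvPolynomial.support_sum_monomial_coeff x]
    refine Finset.sum_congr rfl fun s _ => ?_
    rw [MvPolynomial.map_monomial]
    congr 1
    exact hc s
  obtain ⟨f, rfl⟩ := h1
  exact ⟨⟨f, hx⟩, rfl⟩

/-- The atlas of the quotient. -/
theorem atl {T I : Type} [Finite T]
    (M : LM (IsScalarTower.toAlgHom k A K).range (IsScalarTower.toAlgHom k A K).range T I)
    (hsm : ∀ t, Algebra.Smooth k (invJ k (M.A t) J))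
    (hX : ∀ i, IsIntegral (invJ k A J) (X i : MvPolynomial (Fin m) A)) :
    Atl (gA k A J) (fun t => Cs J (M.A t))
      (fun t => jK k K m (C (M.H t))) where
  sm t := smooth_Cs J (M.A t) (hsm t)
  aa t a := by
    refine (mem_Cs J).2 ⟨MvPolynomial.map (algebraMap A K) a.1, fun s => ?_, a.2, rfl⟩
    rw [MvPolynomial.coeff_map]
    exact M.base t ⟨_, rfl⟩
  H0 t := by
    rw [Ne, map_eq_zero_iff _ (jK_injective (k := k) (K := K) (m := m)), C_eq_zero]
    exact M.H0 t
  hA t := by
    obtain ⟨b, hb⟩ := exists_lift (k := k) (A := A) J (C (M.H t)) (fun s => by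
      classical
      rw [MvPolynomial.coeff_C]
      split_ifs
      · exact M.HR t
      · exact Subalgebra.zero_mem _) (J.algebraMap_mem _)
    exact ⟨b, hb.symm⟩
  rt t t' := by
    have h0 : C (M.H t) ≠ (0 : MvPolynomial (Fin m) K) := by
      rw [Ne, C_eq_zero]; exact M.H0 t
    have h1 : jK k K m (C (M.H t')) / jK k K m (C (M.H t)) =
        jK k K m (C (M.H t' / M.H t)) := by
      rw [div_eq_iff ((map_ne_zero_iff _ (jK_injective (k := k) (K := K) (m := m))).2 h0),
        ← map_mul, ← C_mul, div_mul_cancel₀ _ (M.H0 t)]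
    rw [h1]
    exact C_mem_Cs J (M.rt t t')
  gl t t' y hy := by
    obtain ⟨x, hx, hx', rfl⟩ := (mem_Cs J).1 hy
    choose n hn using fun s => M.gl t t' (coeff s x) (hx s)
    have h0 : C (M.H t) ≠ (0 : MvPolynomial (Fin m) K) := by
      rw [Ne, C_eq_zero]; exact M.H0 t
    have h1 : jK k K m (C (M.H t')) / jK k K m (C (M.H t)) =
        jK k K m (C (M.H t' / M.H t)) := by
      rw [div_eq_iff ((map_ne_zero_iff _ (jK_injective (k := k) (K := K) (m := m))).2 h0),
        ← map_mul, ← C_mul, div_mul_cancel₀ _ (M.H0 t)]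
    refine ⟨x.support.sup n, ?_⟩
    rw [h1, ← map_pow, ← map_mul, ← C_pow]
    refine (mem_Cs J).2 ⟨_, fun s => ?_, ?_, rfl⟩
    · rw [MvPolynomial.coeff_C_mul]
      by_cases hs : s ∈ x.support
      · exact M.gl_mono (Finset.le_sup hs) (hn s)
      · rw [MvPolynomial.notMem_support_iff.1 hs, mul_zero]
        exact Subalgebra.zero_mem _
    · exact J.mul_mem (J.algebraMap_mem _) hx'
  dn t y hy := by
    obtain ⟨x, hx, hx', rfl⟩ := (mem_Cs J).1 hy
    choose n hn using fun s => M.dn t (coeff s x) (hx s)
    refine ⟨x.support.sup n, ?_⟩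
    rw [← map_pow, ← map_mul, ← C_pow]
    obtain ⟨b, hb⟩ := exists_lift (k := k) (A := A) J
        (C (M.H t ^ x.support.sup n) * x) (fun s => by
      rw [MvPolynomial.coeff_C_mul]
      by_cases hs : s ∈ x.support
      · exact M.dn_mono (Finset.le_sup hs) (hn s)
      · rw [MvPolynomial.notMem_support_iff.1 hs, mul_zero]
        exact Subalgebra.zero_mem _) (J.mul_mem (J.algebraMap_mem _) hx')
    exact ⟨b, hb.symm⟩
  cv V hV := by
    let VK : ValuationSubring K := V.comap ((jK k K m).toRingHom.comp C)
    obtain ⟨t, ht⟩ := M.cv VK (by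
      rintro _ ⟨a, rfl⟩
      have h1 := hV ⟨C a, C_mem_invJ J a⟩
      change jK k K m (C (algebraMap A K a)) ∈ V
      have h2 : gA k A J ⟨C a, C_mem_invJ J a⟩ = jK k K m (C (algebraMap A K a)) := by
        change jK k K m (MvPolynomial.map _ (C a)) = _
        rw [MvPolynomial.map_C]
        rfl
      rwa [h2] at h1)
    have hXV : ∀ i, jK k K m (X i) ∈ V := by
      intro i
      obtain ⟨P, hP, hP0⟩ := hX i
      let h2 : MvPolynomial (Fin m) A →+* FractionRing (MvPolynomial (Fin m) K) :=
        (jK k K m).toRingHom.comp (MvPolynomial.map (algebraMap A K))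
      let h1 : invJ k A J →+* V := (gA k A J).toRingHom.codRestrict V.toSubring hV
      have hc : (algebraMap V (FractionRing (MvPolynomial (Fin m) K))).comp h1 =
          h2.comp (algebraMap (invJ k A J) (MvPolynomial (Fin m) A)) := by
        ext a
        rfl
      have h3 : IsIntegral V (h2 (X i)) := by
        refine ⟨P.map h1, hP.map h1, ?_⟩
        rw [Polynomial.eval₂_map, hc, ← Polynomial.hom_eval₂, hP0, map_zero]
      have h4 : h2 (X i) = jK k K m (X i) := by
        change jK k K m (MvPolynomial.map _ (X i)) = _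
        rw [MvPolynomial.map_X]
      rw [h4] at h3
      obtain ⟨y, hy⟩ := IsIntegrallyClosed.isIntegral_iff.1 h3
      rw [← hy]
      exact y.2
    refine ⟨t, fun y hy => ?_⟩
    obtain ⟨x, hx, hx', rfl⟩ := (mem_Cs J).1 hy
    rw [← MvPolynomial.support_sum_monomial_coeff x, map_sum]
    refine V.toSubring.sum_mem fun s _ => ?_
    rw [MvPolynomial.monomial_eq, map_mul]
    refine V.toSubring.mul_mem (ht _ (hx s)) ?_
    rw [Finsupp.prod, map_prod]
    refine V.toSubring.prod_mem fun i _ => ?_
    rw [map_pow]
    exact V.toSubring.pow_mem (hXV i) _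

/-- The ring of invariants is of finite type. -/
theorem finiteType_invJ [Algebra.FiniteType k A]
    (hX : ∀ i, IsIntegral (invJ k A J) (X i : MvPolynomial (Fin m) A)) :
    Algebra.FiniteType k (invJ k A J) := by
  have hint : Algebra.IsIntegral (invJ k A J) (MvPolynomial (Fin m) A) := by
    refine ⟨fun f => ?_⟩
    induction f using MvPolynomial.induction_on with
    | C a => exact isIntegral_algebraMap (R := invJ k A J) (x := ⟨C a, C_mem_invJ J a⟩)
    | add f g hf hg => exact hf.add hg
    | mul_X f i hf => exact hf.mul (hX i)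
  have hft : Algebra.FiniteType k (MvPolynomial (Fin m) A) := Algebra.FiniteType.trans
    (inferInstance : Algebra.FiniteType k A) inferInstance
  have hft' : Algebra.FiniteType (invJ k A J) (MvPolynomial (Fin m) A) :=
    Algebra.FiniteType.of_restrictScalars_finiteType k _ _
  have hfin : Module.Finite (invJ k A J) (MvPolynomial (Fin m) A) :=
    Algebra.IsIntegral.finite
  have h1 := fg_of_fg_of_fg k (invJ k A J) (MvPolynomial (Fin m) A) hft.out hfin.1
    Subtype.val_injective
  exact ⟨h1⟩

theorem core [Algebra.FiniteType k A] (hA : Function.Injective (algebraMap A K))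
    {T I : Type} [Finite T]
    (M : LM (IsScalarTower.toAlgHom k A K).range (IsScalarTower.toAlgHom k A K).range T I)
    (hsm : ∀ t, Algebra.Smooth k (invJ k (M.A t) J))
    (hX : ∀ i, IsIntegral (invJ k A J) (X i : MvPolynomial (Fin m) A)) :
    IsResolvableVariety (X := Spec (CommRingCat.of (invJ k A J)))
      (Spec.map (CommRingCat.ofHom (algebraMap k (invJ k A J)))) := by
  have := finiteType_invJ J hX
  have hg : Function.Injective (gA k A J) :=
    (jK_injective (k := k) (K := K) (m := m)).comp
      ((MvPolynomial.map_injective _ hA).comp Subtype.val_injective)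
  exact isResolvableVariety_spec (hasResolution_of_atl (gA k A J) hg (atl J M hsm hX))

/-- Transport along an isomorphism. -/
theorem core' [Algebra.FiniteType k A] (hA : Function.Injective (algebraMap A K))
    {T I : Type} [Finite T]
    (M : LM (IsScalarTower.toAlgHom k A K).range (IsScalarTower.toAlgHom k A K).range T I)
    (hsm : ∀ t, Algebra.Smooth k (invJ k (M.A t) J))
    (hX : ∀ i, IsIntegral (invJ k A J) (X i : MvPolynomial (Fin m) A))
    (R : Type u) [CommRing R] [IsDomain R] [Algebra k R] (e : R ≃ₐ[k] invJ k A J) :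
    IsResolvableVariety (X := Spec (CommRingCat.of R))
      (Spec.map (CommRingCat.ofHom (algebraMap k R))) := by
  have h1 := finiteType_invJ J hX
  have h2 : Algebra.FiniteType k R := h1.equiv e.symm
  have hg : Function.Injective (gA k A J) :=
    (jK_injective (k := k) (K := K) (m := m)).comp
      ((MvPolynomial.map_injective _ hA).comp Subtype.val_injective)
  have ha := atl J M hsm hX
  have hat : Atl ((gA k A J).comp (e : R →ₐ[k] invJ k A J)) (fun t => Cs J (M.A t))
      (fun t => jK k K m (C (M.H t))) :=
    { sm := ha.sm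
      aa := fun t a => ha.aa t (e a)
      H0 := ha.H0
      hA := by
        intro t
        obtain ⟨b, hb⟩ := ha.hA t
        refine ⟨e.symm b, ?_⟩
        rw [hb]
        change _ = gA k A J (e (e.symm b))
        rw [e.apply_symm_apply]
      rt := ha.rt
      gl := ha.gl
      dn := by
        intro t x hx
        obtain ⟨n, b, hb⟩ := ha.dn t x hx
        refine ⟨n, e.symm b, ?_⟩
        rw [hb]
        change _ = gA k A J (e (e.symm b))
        rw [e.apply_symm_apply]
      cv := by
        intro V hV
        refine ha.cv V fun a => ?_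
        have h3 := hV (e.symm a)
        change gA k A J (e (e.symm a)) ∈ V at h3
        rwa [e.apply_symm_apply] at h3 }
  exact isResolvableVariety_spec (hasResolution_of_atl _
    (hg.comp e.injective) hat)

end core

end Pool.Agent.Helper819.TG
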