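import Pool.Agent.Helper819.TR.ChartD
import Pool.Agent.Helper819.TR.CoreG

set_option autoImplicit false
set_option linter.unusedSectionVars false

universe u v

open MvPolynomial AlgebraicGeometry CategoryTheory Pool.Agent.W558 Pool.Agent.H920R2

open scoped TensorProduct

namespace Pool.Agent.Helper819.TR.RD

section int

variable {k A : Type u} [Field k] [CommRing A] [Algebra k A] {m : ℕ}

/-- The polynomial ring is finite over the ring of invariants. -/
theorem finite_of_rel (p : ℕ) (hp : 1 < p) (R0 : Subalgebra k (MvPolynomial (Fin m) A))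
    (hC : ∀ a, C a ∈ R0) (κ0 : ℕ) (hκ0 : 0 < κ0) (a : Fin m → Fin m × Fin κ0 → A)
    (hy : ∀ i, X i ^ p ^ κ0 - ∑ q, C (a i q) * X q.1 ^ p ^ (q.2 : ℕ) ∈ R0) :
    Module.Finite R0 (MvPolynomial (Fin m) A) := by
  classical
  let e : Fin m × Fin κ0 ≃ Fin (m * κ0) := finProdFinEquiv
  let t : Fin (m * κ0) → MvPolynomial (Fin m) A := fun n =>
    X (e.symm n).1 ^ p ^ ((e.symm n).2 : ℕ)
  let aa : Fin (m * κ0) → R0 := fun n =>
    if ((e.symm n).2 : ℕ) + 1 < κ0 then 0 else ⟨_, hy (e.symm n).1⟩
  let FF : Fin (m * κ0) → Fin (m * κ0) → R0 := fun n s =>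
    if h : ((e.symm n).2 : ℕ) + 1 < κ0 then (if s = e ((e.symm n).1, ⟨_, h⟩) then 1 else 0)
    else ⟨C (a (e.symm n).1 (e.symm s)), hC _⟩
  have hrel : ∀ n, t n ^ p = algebraMap R0 (MvPolynomial (Fin m) A) (aa n) +
      ∑ s, algebraMap R0 (MvPolynomial (Fin m) A) (FF n s) * t s := by
    intro n
    have h1 : t n ^ p = X (e.symm n).1 ^ p ^ (((e.symm n).2 : ℕ) + 1) := by
      change (X (e.symm n).1 ^ p ^ ((e.symm n).2 : ℕ)) ^ p = _
      rw [← pow_mul, ← pow_succ]
    by_cases h : ((e.symm n).2 : ℕ) + 1 < κ0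
    · simp only [aa, FF, dif_pos h, if_pos h, map_zero, zero_add]
      rw [Finset.sum_eq_single (e ((e.symm n).1, ⟨_, h⟩))]
      · rw [if_pos rfl, map_one, one_mul, h1]
        change _ = X (e.symm (e ((e.symm n).1, ⟨_, h⟩))).1 ^
          p ^ ((e.symm (e ((e.symm n).1, ⟨_, h⟩))).2 : ℕ)
        rw [e.symm_apply_apply]
      · intro s _ hs
        rw [if_neg hs, map_zero, zero_mul]
      · intro h; exact absurd (Finset.mem_univ _) h
    · have h2 : ((e.symm n).2 : ℕ) + 1 = κ0 := by
        have := (e.symm n).2.2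
        omega
      simp only [aa, FF, dif_neg h, if_neg h]
      rw [h1, h2]
      change _ = (X (e.symm n).1 ^ p ^ κ0 - ∑ q, C (a (e.symm n).1 q) * X q.1 ^ p ^ (q.2 : ℕ)) +
        ∑ s, C (a (e.symm n).1 (e.symm s)) * (X (e.symm s).1 ^ p ^ ((e.symm s).2 : ℕ))
      rw [Fintype.sum_equiv e.symm (fun s => C (a (e.symm n).1 (e.symm s)) *
        (X (e.symm s).1 ^ p ^ ((e.symm s).2 : ℕ)))
        (fun q => C (a (e.symm n).1 q) * X q.1 ^ p ^ (q.2 : ℕ)) (fun _ => rfl)]
      ring
  refine ⟨(Set.finite_range fun (α : Fin (m * κ0) → Fin p) => red t α).toFinset, ?_⟩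
  rw [eq_top_iff]
  intro f _
  rw [← MvPolynomial.support_sum_monomial_coeff f]
  refine Submodule.sum_mem _ fun s _ => ?_
  have h1 : (monomial s (coeff s f) : MvPolynomial (Fin m) A) =
      (⟨C (coeff s f), hC _⟩ : R0) • ∏ n, t n ^
        (if ((e.symm n).2 : ℕ) = 0 then s (e.symm n).1 else 0) := by
    rw [Algebra.smul_def]
    change _ = C (coeff s f) * _
    rw [MvPolynomial.monomial_eq, Finsupp.prod_fintype _ _ (fun i => pow_zero _)]
    congr 1
    rw [Fintype.prod_equiv e.symm (fun n => t n ^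
        (if ((e.symm n).2 : ℕ) = 0 then s (e.symm n).1 else 0))
        (fun q => (X q.1 ^ p ^ (q.2 : ℕ)) ^ (if (q.2 : ℕ) = 0 then s q.1 else 0)) (fun _ => rfl),
      Fintype.prod_prod_type]
    refine Finset.prod_congr rfl fun i _ => ?_
    rw [Finset.prod_eq_single (⟨0, hκ0⟩ : Fin κ0)]
    · simp
    · intro κ _ hκ
      have h3 : (κ : ℕ) ≠ 0 := fun h => hκ (Fin.ext h)
      simp [h3]
    · intro h; exact absurd (Finset.mem_univ _) h
  rw [h1]
  refine Submodule.smul_mem _ _ ?_
  obtain ⟨c, hc⟩ := sp_monomial (φ := algebraMap R0 (MvPolynomial (Fin m) A)) (t := t) hp aa FF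
    hrel _ (fun n => if ((e.symm n).2 : ℕ) = 0 then s (e.symm n).1 else 0) rfl
  rw [hc]
  refine Submodule.sum_mem _ fun α _ => ?_
  rw [← Algebra.smul_def]
  refine Submodule.smul_mem _ _ (Submodule.subset_span ?_)
  rw [Set.Finite.coe_toFinset]
  exact ⟨α, rfl⟩

end int

section inv

variable (k : Type u) {A D : Type u} [Field k] [CommRing A] [CommRing D] [Algebra k A]
  [Algebra A D] {m : ℕ}

/-- The polynomials `f` over `A` with `f (x + v) = f (x)`. -/
noncomputable def invV (v : Fin m → D) : Subalgebra k (MvPolynomial (Fin m) A) where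
  carrier := {f | tr v (MvPolynomial.map (algebraMap A D) f) = MvPolynomial.map (algebraMap A D) f}
  mul_mem' := by
    intro f g hf hg
    change tr v (MvPolynomial.map (algebraMap A D) (f * g)) = _
    rw [map_mul, map_mul, hf, hg]
  add_mem' := by
    intro f g hf hg
    change tr v (MvPolynomial.map (algebraMap A D) (f + g)) = _
    rw [map_add, map_add, hf, hg]
  algebraMap_mem' := by
    intro a
    change tr v (MvPolynomial.map (algebraMap A D) (C (algebraMap k A a))) =
      MvPolynomial.map (algebraMap A D) (C (algebraMap k A a))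
    rw [MvPolynomial.map_C, tr_C]

end inv

theorem ext_core {k A K D : Type u} [Field k] [CommRing A] [IsDomain A] [Field K] [CommRing D]
    [Algebra k A] [Algebra k K] [Algebra A K] [IsScalarTower k A K] [IsFractionRing A K]
    [Bialgebra K D] [Algebra A D] [IsScalarTower A K D] [Algebra.FiniteType k A]
    (p : ℕ) [hp : Fact p.Prime] [CharP K p] (hM : HasMon k K ⊤) (m : ℕ) (v : Fin m → D)
    (hv : ∀ i, Coalgebra.comul (R := K) (v i) = v i ⊗ₜ[K] 1 + 1 ⊗ₜ[K] v i)
    (hint : ∀ i, IsIntegral A (v i)) :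
    IsResolvableVariety (X := Spec (CommRingCat.of (invV (A := A) k v)))
      (Spec.map (CommRingCat.ofHom (algebraMap k (invV (A := A) k v)))) := by
  have hnoeth : IsNoetherianRing A := Algebra.FiniteType.isNoetherianRing k A
  have hnt : Nontrivial D := nontrivial_of_bialgebra K D
  have hchD : CharP D p := charP_of_bialgebra K D p
  obtain ⟨T, I, i1, M, hM1⟩ := charts (k := k) (A := A) (K := K) (D := D) p hM m v hv hint
  have heqJ : ∀ (O : Type u) [CommRing O] [IsDomain O] [Algebra k O] [Algebra O K] [IsScalarTower k O K]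
      [Algebra O D] [IsScalarTower O K D],
      TG.invJ k O (invT K ({v} : Set (Fin m → D))) = invV (A := O) k v := by
    intro O _ _ _ _ _ _ _
    ext f
    rw [TG.mem_invJ, mem_invT, MvPolynomial.map_map, ← IsScalarTower.algebraMap_eq O K D]
    constructor
    · intro h; exact h v rfl
    · intro h w hw
      rw [Set.mem_singleton_iff.1 hw]
      exact h
  refine TG.core' (invT K ({v} : Set (Fin m → D))) (IsFractionRing.injective A K) M ?_ ?_
    (invV (A := A) k v) (Subalgebra.equivOfEq _ _ (heqJ A).symm)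
  · intro t
    obtain ⟨r, ι, κ, U, F, hU, hF, hind⟩ := hM1 t
    have hinj : Function.Injective (algebraMap (M.A t) D) :=
      (algebraMap K D).injective.comp Subtype.val_injective
    have hchar : CharP (M.A t) p := (RingHom.charP_iff _ hinj p).2 inferInstance
    have hsmO : Algebra.Smooth k (M.A t) := M.sm t
    have hno : IsNoetherianRing (M.A t) := Algebra.FiniteType.isNoetherianRing k (M.A t)
    have hs := smooth_inv (p := p) (O := M.A t) (D := D) (U := U) (F := F) (ι := ι) (κ := κ) hinj
      v hU hF hind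
    have hs2 : Algebra.Smooth k (invT (M.A t) ({v} : Set (Fin m → D))) :=
      Algebra.Smooth.comp k (M.A t) _
    have heq : TG.invJ k (M.A t) (invT K ({v} : Set (Fin m → D))) =
        (invT (M.A t) ({v} : Set (Fin m → D))).restrictScalars k := by
      ext f
      rw [TG.mem_invJ, mem_invT, MvPolynomial.map_map]
      rfl
    rw [heq]
    exact hs2
  · intro i
    obtain ⟨κ0, hκ0, hrel⟩ := exists_relD (A := A) v hint p
    choose a ha using hrel
    have hfin : Module.Finite (TG.invJ k A (invT K ({v} : Set (Fin m → D))))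
        (MvPolynomial (Fin m) A) := by
      refine finite_of_rel p hp.out.one_lt _ (fun a => TG.C_mem_invJ _ a) κ0 hκ0 a fun i => ?_
      rw [heqJ A]
      change tr v (MvPolynomial.map (algebraMap A D) _) = MvPolynomial.map (algebraMap A D) _
      have h2 := congrArg (C : D → MvPolynomial (Fin m) D) (ha i)
      simp only [map_sub, map_sum, map_mul, map_pow, MvPolynomial.map_X, MvPolynomial.map_C,
        tr_X, tr_C, add_pow_char_pow]
      simp only [map_sum, map_mul, map_pow] at h2
      rw [h2]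
      simp only [mul_add, Finset.sum_add_distrib]
      ring
    exact Algebra.IsIntegral.isIntegral _

end Pool.Agent.Helper819.TR.RD
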