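import Pool.Agent.Helper819.TR.Ret

set_option autoImplicit false
set_option linter.unusedSectionVars false

universe u v

open MvPolynomial

namespace Pool.Agent.Helper819.TR

section main

variable {O K' : Type u} [CommRing O] [IsDomain O] [Field K'] [Algebra O K'] {m r : ℕ} (p : ℕ)
  [hp : Fact p.Prime] [CharP O p] [CharP K' p]
  (ι : Fin r → Fin m) (κ : Fin r → ℕ) (U : Fin m → Fin r → O) (F : Fin r → Fin r → O)

/-- The polynomial ring over the extension, with translated coordinates. -/
noncomputable def Tv (v : Fin r → K') : MvPolynomial (Fin m ⊕ Fin r) O →ₐ[O]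
    MvPolynomial (Fin m ⊕ Fin r) K' :=
  aeval (Sum.elim (fun i => X (Sum.inl i)) fun l => X (Sum.inr l) + C (v l))

lemma algebraMap_C (a : O) : algebraMap O (MvPolynomial (Fin m ⊕ Fin r) K') a =
    C (algebraMap O K' a) := rfl

lemma Tv_Psi (v : Fin r → K') (hv : ∀ l, v l ^ p = ∑ s, algebraMap O K' (F l s) * v s)
    (g : MvPolynomial (Fin m ⊕ Fin r) O) : Tv v (Psi p F g) = Tv 0 (Psi p F g) := by
  have h : (Tv (K' := K') (m := m) v).comp (Psi p F) = (Tv 0).comp (Psi p F) := by
    apply algHom_ext
    rintro (i | l)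
    · rw [AlgHom.comp_apply, AlgHom.comp_apply, Psi_inl, Tv, Tv, aeval_X, aeval_X]
      rfl
    · rw [AlgHom.comp_apply, AlgHom.comp_apply, Psi_inr, Tv, Tv]
      simp only [map_sub, map_pow, map_sum, map_mul, aeval_X, Sum.elim_inr, aeval_C,
        Pi.zero_apply, C_0, add_zero, algebraMap_C]
      rw [add_pow_char, ← C_pow, hv l, map_sum]
      simp only [map_mul, mul_add, Finset.sum_add_distrib]
      ring
  exact congrArg (fun g' => g' g) h

lemma Tv_sub (v : Fin m → K') (v' : Fin r → K')
    (hU : ∀ i, v i = ∑ l, algebraMap O K' (U i l) * v' l) (f : MvPolynomial (Fin m) O)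
    (hf : tr v (MvPolynomial.map (algebraMap O K') f) = MvPolynomial.map (algebraMap O K') f) :
    Tv v' (sub U f) = Tv 0 (sub U f) := by
  let E : MvPolynomial (Fin m) K' →ₐ[K'] MvPolynomial (Fin m ⊕ Fin r) K' :=
    aeval fun i => X (Sum.inl i) + ∑ l, C (algebraMap O K' (U i l)) * X (Sum.inr l)
  have h1 : ∀ f : MvPolynomial (Fin m) O,
      Tv 0 (sub U f) = E (MvPolynomial.map (algebraMap O K') f) := by
    intro f
    induction f using MvPolynomial.induction_on with
    | C a =>
      rw [MvPolynomial.map_C, sub, aeval_C, MvPolynomial.algebraMap_eq, Tv, aeval_C, aeval_C]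
      rfl
    | add f g hf hg => rw [map_add, map_add, map_add, map_add, hf, hg]
    | mul_X f i hf =>
      rw [map_mul, map_mul, map_mul, map_mul, hf, MvPolynomial.map_X]
      congr 1
      rw [sub, aeval_X, Tv]
      simp only [map_add, map_sum, map_mul, aeval_X, aeval_C, Sum.elim_inl, Sum.elim_inr,
        Pi.zero_apply, C_0, add_zero, algebraMap_C, E]
  have h2 : ∀ f : MvPolynomial (Fin m) O,
      Tv v' (sub U f) = E (tr v (MvPolynomial.map (algebraMap O K') f)) := by
    intro f
    induction f using MvPolynomial.induction_on with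
    | C a =>
      rw [MvPolynomial.map_C, sub, aeval_C, MvPolynomial.algebraMap_eq, Tv, aeval_C, tr_C,
        aeval_C]
      rfl
    | add f g hf hg => rw [map_add, map_add, map_add, map_add, map_add, hf, hg]
    | mul_X f i hf =>
      rw [map_mul, map_mul, map_mul, map_mul, map_mul, hf, MvPolynomial.map_X]
      congr 1
      rw [sub, aeval_X, Tv, tr_X]
      simp only [map_add, map_sum, map_mul, aeval_X, aeval_C, Sum.elim_inl, Sum.elim_inr,
        algebraMap_C, E, mul_add, Finset.sum_add_distrib]
      rw [hU i, Algebra.algebraMap_self, RingHom.id_apply, map_sum]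
      simp only [map_mul]
      ring
  rw [h2, hf, h1]

/-- The invariants come from the isogeny. -/
theorem exists_pre (hinj : Function.Injective (algebraMap O K')) (Λ : Set (Fin m → K'))
    [Finite Λ] (hcard : Nat.card Λ = p ^ r)
    (hU : ∀ v ∈ Λ, ∀ i, v i = ∑ l, algebraMap O K' (U i l) * v (ι l) ^ p ^ κ l)
    (hF : ∀ v ∈ Λ, ∀ l, (v (ι l) ^ p ^ κ l) ^ p =
      ∑ s, algebraMap O K' (F l s) * v (ι s) ^ p ^ κ s)
    (f : MvPolynomial (Fin m) O) (hf : f ∈ invT O Λ) : ∃ g, Psi p F g = sub U f := by
  classical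
  have hp1 := hp.out.one_lt
  have : Fintype Λ := Fintype.ofFinite Λ
  obtain ⟨c, hc⟩ := sp_all p F hp1 (sub U f)
  let M := FractionRing (MvPolynomial (Fin m ⊕ Fin r) K')
  let j : MvPolynomial (Fin m ⊕ Fin r) K' →+* M := algebraMap _ _
  have hj : Function.Injective j := IsFractionRing.injective _ _
  let v' : Λ → Fin r → K' := fun v l => v.1 (ι l) ^ p ^ κ l
  let w : Λ → Fin r → M := fun v l => j (X (Sum.inr l) + C (v' v l))
  have hw : Function.Injective w := by
    intro v₁ v₂ h
    have h1 : v' v₁ = v' v₂ := by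
      funext l
      have h2 := hj (congrFun h l)
      exact C_injective _ _ (add_left_cancel h2)
    apply Subtype.ext
    funext i
    rw [hU _ v₁.2, hU _ v₂.2]
    refine Finset.sum_congr rfl fun l _ => ?_
    congr 1
    exact congrFun h1 l
  have hrel : ∀ v l, w v l ^ p = j (X (Sum.inr l) ^ p - ∑ s, C (algebraMap O K' (F l s)) *
      X (Sum.inr s)) + ∑ s, j (C (algebraMap O K' (F l s))) * w v s := by
    intro v l
    simp only [w]
    rw [← map_pow, add_pow_char, ← C_pow, hF _ v.2]
    simp only [← map_mul, ← map_sum, ← map_add]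
    congr 1
    simp only [mul_add, Finset.sum_add_distrib, map_sum, map_mul]
    ring
  have hind := red_indep w hp1 hw (by rw [← Nat.card_eq_fintype_card, hcard]) _ _ hrel
  rw [Fintype.linearIndependent_iff] at hind
  -- the coefficients
  let α0 : Fin r → Fin p := fun _ => ⟨0, hp.out.pos⟩
  let d : (Fin r → Fin p) → M := fun α => j (Tv 0 (Psi p F (c α))) -
    if α = α0 then j (Tv 0 (sub U f)) else 0
  have hd : ∑ α, d α • red (fun (l : Fin r) (v : Λ) => w v l) α = 0 := by
    funext v
    rw [Finset.sum_apply]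
    have h1 : ∀ α, (d α • red (fun (l : Fin r) (v : Λ) => w v l) α) v =
        j (Tv (v' v) (Psi p F (c α))) * ∏ l, w v l ^ (α l : ℕ) -
          (if α = α0 then j (Tv 0 (sub U f)) else 0) * ∏ l, w v l ^ (α l : ℕ) := by
      intro α
      rw [Pi.smul_apply, red, Finset.prod_apply, smul_eq_mul, ← sub_mul]
      rw [Tv_Psi p F (v' v) (hF _ v.2)]
      rfl
    rw [Finset.sum_congr rfl fun α _ => h1 α, Finset.sum_sub_distrib]
    have h2 : ∑ α, (if α = α0 then j (Tv 0 (sub U f)) else 0) * ∏ l, w v l ^ (α l : ℕ) =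
        j (Tv 0 (sub U f)) := by
      rw [Finset.sum_eq_single α0]
      · rw [if_pos rfl]
        simp [α0]
      · intro β _ h
        rw [if_neg h, zero_mul]
      · intro h; exact absurd (Finset.mem_univ _) h
    have h3 : ∑ α, j (Tv (v' v) (Psi p F (c α))) * ∏ l, w v l ^ (α l : ℕ) =
        j (Tv (v' v) (sub U f)) := by
      conv_rhs => rw [hc]
      rw [map_sum, map_sum]
      refine Finset.sum_congr rfl fun α _ => ?_
      rw [map_mul, map_mul]
      congr 1
      rw [red, map_prod, map_prod]
      refine Finset.prod_congr rfl fun l _ => ?_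
      rw [map_pow, map_pow, Tv, aeval_X]
      rfl
    rw [h2, h3, Tv_sub U v.1 (v' v) (hU _ v.2) f (hf _ v.2), sub_self]
    rfl
  have h0 := hind d hd α0
  have h1 : Tv (K' := K') 0 (Psi p F (c α0)) = Tv 0 (sub U f) := by
    apply hj
    have : d α0 = j (Tv 0 (Psi p F (c α0))) - j (Tv 0 (sub U f)) := by
      simp only [d, if_true]
    rw [this] at h0
    exact sub_eq_zero.1 h0
  refine ⟨c α0, ?_⟩
  have hT : (Tv (K' := K') (m := m) (0 : Fin r → K') :
      MvPolynomial (Fin m ⊕ Fin r) O → MvPolynomial (Fin m ⊕ Fin r) K') =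
      MvPolynomial.map (algebraMap O K') := by
    funext g
    induction g using MvPolynomial.induction_on with
    | C a => rw [Tv, aeval_C, MvPolynomial.map_C]; rfl
    | add f g hf hg => rw [map_add, map_add, hf, hg]
    | mul_X f i hf =>
      rw [map_mul, map_mul, hf, Tv, aeval_X, MvPolynomial.map_X]
      rcases i with i | l
      · rfl
      · simp
  rw [hT] at h1
  exact MvPolynomial.map_injective _ hinj h1

variable {p ι κ U F} in
/-- The ring of invariants is smooth. -/
theorem smooth_invT [IsNoetherianRing O] (hinj : Function.Injective (algebraMap O K'))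
    (Λ : Set (Fin m → K')) [Finite Λ] (hcard : Nat.card Λ = p ^ r)
    (hU : ∀ v ∈ Λ, ∀ i, v i = ∑ l, algebraMap O K' (U i l) * v (ι l) ^ p ^ κ l)
    (hF : ∀ v ∈ Λ, ∀ l, (v (ι l) ^ p ^ κ l) ^ p =
      ∑ s, algebraMap O K' (F l s) * v (ι s) ^ p ^ κ s) :
    Algebra.Smooth O (invT O Λ) := by
  classical
  have hp1 := hp.out.one_lt
  let ρ : MvPolynomial (Fin m ⊕ Fin r) O →ₐ[O] MvPolynomial (Fin m) O :=
    (eta p ι κ U).comp (Psi p F)
  have hρ : ∀ g, ρ g ∈ invT O Λ := by
    intro g
    induction g using MvPolynomial.induction_on with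
    | C a =>
      have : ρ (C a) = algebraMap O _ a := ρ.commutes a
      rw [this]
      exact (invT O Λ).algebraMap_mem a
    | add f g hf hg => rw [map_add]; exact (invT O Λ).add_mem hf hg
    | mul_X f i hf =>
      rw [map_mul]
      refine (invT O Λ).mul_mem hf ?_
      rcases i with i | l
      · have h1 : ρ (X (Sum.inl i)) = X i - ∑ l, C (U i l) * X (ι l) ^ p ^ κ l := by
          change eta p ι κ U (Psi p F (X (Sum.inl i))) = _
          rw [Psi_inl, eta, aeval_X]
          rfl
        rw [h1]
        intro v hv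
        simp only [map_sub, map_sum, map_mul, map_pow, MvPolynomial.map_X, MvPolynomial.map_C,
          tr_X, tr_C, add_pow_char_pow]
        rw [hU v hv i]
        simp only [mul_add, Finset.sum_add_distrib, map_sum, map_mul, map_pow]
        ring
      · have h1 : ρ (X (Sum.inr l)) = (X (ι l) ^ p ^ κ l) ^ p -
            ∑ s, C (F l s) * X (ι s) ^ p ^ κ s := by
          change eta p ι κ U (Psi p F (X (Sum.inr l))) = _
          rw [Psi_inr, eta]
          simp only [map_sub, map_sum, map_mul, map_pow, aeval_X, aeval_C,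
            MvPolynomial.algebraMap_eq, Sum.elim_inr]
        rw [h1]
        intro v hv
        have h2 := congrArg (C : K' → MvPolynomial (Fin m) K') (hF v hv l)
        simp only [map_sub, map_sum, map_mul, map_pow, MvPolynomial.map_X, MvPolynomial.map_C,
          tr_X, tr_C, add_pow_char_pow, add_pow_char]
        simp only [map_sum, map_mul, map_pow] at h2
        simp only [mul_add, Finset.sum_add_distrib]
        rw [h2]
        ring
  have hpre : ∀ f ∈ invT O Λ, sub U f ∈ (Psi (m := m) p F).range := fun f hf =>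
    exists_pre p ι κ U F hinj Λ hcard hU hF f hf
  let e := AlgEquiv.ofInjective (Psi (m := m) p F) (Psi_injective p F hp1)
  let pr : invT O Λ →ₐ[O] MvPolynomial (Fin m ⊕ Fin r) O :=
    (e.symm : (Psi (m := m) p F).range →ₐ[O] MvPolynomial (Fin m ⊕ Fin r) O).comp
      (((sub U).comp (invT O Λ).val).codRestrict (Psi (m := m) p F).range
        (fun f => hpre f.1 f.2))
  let ρC : MvPolynomial (Fin m ⊕ Fin r) O →ₐ[O] invT O Λ := ρ.codRestrict (invT O Λ) hρ
  have hret : ∀ f : invT O Λ, ρC (pr f) = f := by
    intro f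
    apply Subtype.ext
    change eta p ι κ U (Psi p F (pr f)) = f
    have h1 : Psi p F (pr f) = sub U f.1 := by
      have h2 : e (pr f) = (((sub U).comp (invT O Λ).val).codRestrict (Psi (m := m) p F).range
        (fun f => hpre f.1 f.2)) f := e.apply_symm_apply _
      exact congrArg Subtype.val h2
    rw [h1, eta_sub]
  have hsurj : Function.Surjective ρC := fun f => ⟨pr f, hret f⟩
  have hfs : Algebra.FormallySmooth O (invT O Λ) := by
    apply Algebra.FormallySmooth.of_comp_surjective
    intro B _ _ I hI φ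
    obtain ⟨h, hh⟩ := Algebra.FormallySmooth.comp_surjective O
      (MvPolynomial (Fin m ⊕ Fin r) O) I hI (φ.comp ρC)
    refine ⟨h.comp pr, ?_⟩
    ext f
    have h1 := congrArg (fun g => g (pr f)) hh
    change (Ideal.Quotient.mkₐ O I) (h (pr f)) = φ f
    have h2 : (Ideal.Quotient.mkₐ O I) (h (pr f)) = φ (ρC (pr f)) := h1
    rw [h2, hret]
  have hft : Algebra.FiniteType O (invT O Λ) := Algebra.FiniteType.of_surjective ρC hsurj
  exact ⟨hfs, Algebra.FinitePresentation.of_finiteType.1 hft⟩

end main

end Pool.Agent.Helper819.TR
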