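import Pool.Agent.Helper819.TR.Flat
import Pool.Agent.Helper819.TR.Ret2

set_option autoImplicit false
set_option linter.unusedSectionVars false

universe u v

open Pool.Agent.W558

namespace Pool.Agent.Helper819.TR

theorem range_eq_adjoin (k A K : Type u) [Field k] [CommRing A] [IsDomain A] [Algebra k A]
    [Field K] [Algebra k K] [Algebra A K] [IsScalarTower k A K] [IsFractionRing A K]
    [hA : Algebra.FiniteType k A] :
    ∃ (n : ℕ) (y : Fin n → Kˣ), (IsScalarTower.toAlgHom k A K).range =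
      Algebra.adjoin k (Set.range fun i => (y i : K)) := by
  classical
  obtain ⟨S0, hS0⟩ := hA.out
  let S1 := S0.erase 0
  have hS1 : ∀ s ∈ S1, algebraMap A K s ≠ 0 := by
    intro s hs h
    exact (Finset.mem_erase.1 hs).1 ((FaithfulSMul.algebraMap_eq_zero_iff A K).1 h)
  refine ⟨S1.card, fun i => Units.mk0 (algebraMap A K (S1.equivFin.symm i))
    (hS1 _ (S1.equivFin.symm i).2), ?_⟩
  apply le_antisymm
  · rw [← Algebra.map_top, ← hS0, AlgHom.map_adjoin]
    refine Algebra.adjoin_le ?_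
    rintro _ ⟨s, hs, rfl⟩
    by_cases h : s = 0
    · rw [h, map_zero]; exact Subalgebra.zero_mem _
    · have hs1 : s ∈ S1 := Finset.mem_erase.2 ⟨h, hs⟩
      apply Algebra.subset_adjoin
      refine ⟨S1.equivFin ⟨s, hs1⟩, ?_⟩
      simp
  · refine Algebra.adjoin_le ?_
    rintro _ ⟨i, rfl⟩
    exact ⟨_, rfl⟩

theorem charts {k A B K K' : Type u} [Field k] [CommRing A] [IsDomain A] [CommRing B]
    [IsDomain B] [Field K] [Field K'] [Algebra k A] [Algebra k K] [Algebra A K]
    [IsScalarTower k A K] [IsFractionRing A K] [Algebra A B] [Algebra B K'] [IsFractionRing B K']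
    [Algebra A K'] [IsScalarTower A B K'] [Algebra K K'] [IsScalarTower A K K']
    (G : Type v) [Group G] [MulSemiringAction G B] [MulSemiringAction G K']
    [SMulDistribClass G B K']
    (hGK : ∀ x : K', (∀ g : G, g • x = x) → ∃ y : K, algebraMap K K' y = x)
    [Algebra.FiniteType k A] [Module.Finite A B] (p : ℕ) [hp : Fact p.Prime] [CharP K' p]
    (hM : HasMon k K ⊤) (m : ℕ) (Λ : AddSubgroup (Fin m → B)) [Finite Λ]
    (hΛ : ∀ g : G, ∀ v ∈ Λ, (fun i => g • v i) ∈ Λ) :
    ∃ (T I : Type) (_ : Finite T)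
      (M : LM (IsScalarTower.toAlgHom k A K).range (IsScalarTower.toAlgHom k A K).range T I),
      ∀ t, ∃ (r : ℕ) (ι : Fin r → Fin m) (κ : Fin r → ℕ) (U : Fin m → Fin r → M.A t)
        (F : Fin r → Fin r → M.A t), Nat.card Λ = p ^ r ∧
        (∀ v ∈ Λ, ∀ i, algebraMap B K' (v i) =
          ∑ l, algebraMap K K' (U i l) * algebraMap B K' (v (ι l)) ^ p ^ κ l) ∧
        (∀ v ∈ Λ, ∀ l, (algebraMap B K' (v (ι l)) ^ p ^ κ l) ^ p =
          ∑ s, algebraMap K K' (F l s) * algebraMap B K' (v (ι s)) ^ p ^ κ s) := by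
  classical
  have hp1 := hp.out.one_lt
  have hnoeth : IsNoetherianRing A := Algebra.FiniteType.isNoetherianRing k A
  have hβ : Function.Injective (algebraMap B K') := IsFractionRing.injective B K'
  obtain ⟨κ0, hκ0, hrel⟩ := exists_rel (A := A) (fun (v : Λ) => v.1) p
  choose a ha using hrel
  let u : Fin m × Fin κ0 → Λ → K' := fun q v => algebraMap B K' (v.1 q.1) ^ p ^ (q.2 : ℕ)
  obtain ⟨f, hf1, hf2, hf3⟩ := Submodule.exists_fun_fin_finrank_span_eq K' (Set.range u)
  generalize Module.finrank K' (Submodule.span K' (Set.range u)) = r at f hf1 hf2 hf3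
  choose I1 hI1 using hf1
  have hc : ∀ q, ∃ c : Fin r → K', ∑ l, c l • f l = u q := fun q =>
    (Submodule.mem_span_range_iff_exists_fun K').1
      (by rw [hf2]; exact Submodule.subset_span ⟨q, rfl⟩)
  choose c hc using hc
  -- equivariance
  have hequi : ∀ (g : G) (v : Λ) (q : Fin m × Fin κ0),
      u q ⟨fun i => g • v.1 i, hΛ g v.1 v.2⟩ = g • u q v := by
    intro g v q
    change algebraMap B K' (g • v.1 q.1) ^ p ^ (q.2 : ℕ) =
      g • (algebraMap B K' (v.1 q.1) ^ p ^ (q.2 : ℕ))
    rw [smul_pow', ← algebraMap.coe_smul' g (v.1 q.1)]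
  have hinv : ∀ q (g : G) l, g • c q l = c q l := by
    intro q g l
    have h1 : ∑ l, (g • c q l - c q l) • f l = 0 := by
      funext x
      let v : Λ := ⟨fun i => g⁻¹ • x.1 i, hΛ g⁻¹ x.1 x.2⟩
      have hx : x = ⟨fun i => g • v.1 i, hΛ g v.1 v.2⟩ := by
        apply Subtype.ext
        funext i
        change x.1 i = g • g⁻¹ • x.1 i
        rw [smul_inv_smul]
      have hfl : ∀ l, f l x = g • f l v := by
        intro l
        rw [← hI1 l, hx]
        exact hequi g v (I1 l)
      rw [Finset.sum_apply]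
      have h2 : ∀ l, ((g • c q l - c q l) • f l) x = g • (c q l * f l v) - c q l * f l x := by
        intro l
        rw [Pi.smul_apply, smul_eq_mul, sub_mul, smul_mul', hfl l]
      rw [Finset.sum_congr rfl fun l _ => h2 l, Finset.sum_sub_distrib, ← Finset.smul_sum]
      have h3 := congrFun (hc q) v
      have h4 := congrFun (hc q) x
      rw [Finset.sum_apply] at h3 h4
      simp only [Pi.smul_apply, smul_eq_mul] at h3 h4
      rw [h3, h4]
      have h5 := hequi g v q
      rw [← hx] at h5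
      rw [h5, sub_self]
      rfl
    exact sub_eq_zero.1 (Fintype.linearIndependent_iff.1 hf3 _ h1 l)
  choose cK hcK using fun q l => hGK (c q l) (fun g => hinv q g l)
  have hcI1 : (Matrix.of fun a => cK (I1 a)) = 1 := by
    ext a l
    have h1 : ∑ l, (c (I1 a) l - if l = a then 1 else 0) • f l = 0 := by
      simp only [sub_smul, Finset.sum_sub_distrib]
      rw [hc, hI1]
      simp
    have h2 := sub_eq_zero.1 (Fintype.linearIndependent_iff.1 hf3 _ h1 l)
    apply (algebraMap K K').injective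
    change algebraMap K K' (cK (I1 a) l) = _
    rw [hcK, h2, Matrix.one_apply]
    split_ifs with h3 h4 h4
    · rw [map_one]
    · exact absurd h3.symm h4
    · exact absurd h4.symm h3
    · rw [map_zero]
  -- the minors
  let S : Type := {I : Fin r → Fin m × Fin κ0 // (Matrix.of fun a => cK (I a)).det ≠ 0}
  have hSfin : Finite S := inferInstance
  let e : S ≃ Fin (Nat.card S) := Finite.equivFin S
  let x : Fin (Nat.card S) → Kˣ := fun i => Units.mk0 _ (e.symm i).2
  obtain ⟨n, y, hR⟩ := range_eq_adjoin k A K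
  have hfr : ∀ x : K, ∃ a ∈ (IsScalarTower.toAlgHom k A K).range,
      ∃ b ∈ (IsScalarTower.toAlgHom k A K).range, b ≠ 0 ∧ x = a * b⁻¹ := by
    intro x
    obtain ⟨a, b, hb, rfl⟩ := IsFractionRing.div_surjective (A := A) x
    refine ⟨_, ⟨a, rfl⟩, _, ⟨b, rfl⟩, ?_, ?_⟩
    · exact (FaithfulSMul.algebraMap_eq_zero_iff A K).not.2 (nonZeroDivisors.ne_zero hb)
    · rw [div_eq_mul_inv]
      rfl
  obtain ⟨T, I, i1, M, hMd⟩ := exists_model hM (IsScalarTower.toAlgHom k A K).range n y
    (fun _ => trivial) hR hfr (Nat.card S) x (fun _ => trivial)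
  refine ⟨T, I, i1, M, fun t => ?_⟩
  obtain ⟨j, -, hj⟩ := exists_min (M.A t) (fun i => (x i : K)) Finset.univ
    ⟨e ⟨I1, by rw [hcI1, Matrix.det_one]; exact one_ne_zero⟩, Finset.mem_univ _⟩
    (fun i _ => (x i).ne_zero) (fun i _ j _ => hMd t i j)
  let I0 := (e.symm j).1
  have hdet : ∀ I : Fin r → Fin m × Fin κ0, (Matrix.of fun a => cK (I a)).det /
      (Matrix.of fun a => cK (I0 a)).det ∈ M.A t := by
    intro I
    by_cases hI : (Matrix.of fun a => cK (I a)).det = 0
    · rw [hI, zero_div]; exact Subalgebra.zero_mem _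
    · have h1 := hj (e ⟨I, hI⟩) (Finset.mem_univ _)
      have h2 : (x (e ⟨I, hI⟩) : K) = (Matrix.of fun a => cK (I a)).det := by
        change (Matrix.of fun a => cK ((e.symm (e ⟨I, hI⟩)).1 a)).det = _
        rw [e.symm_apply_apply]
      rw [h2] at h1
      exact h1
  choose e' he' using cramer_mem (M.A t) cK I0 (e.symm j).2 hdet
  have hu : ∀ q v, u q v = ∑ b, algebraMap K K' (e' q b) * u (I0 b) v := by
    intro q v
    have h1 : ∀ q, u q v = ∑ l, algebraMap K K' (cK q l) * f l v := by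
      intro q
      have h2 := congrFun (hc q) v
      rw [Finset.sum_apply] at h2
      rw [← h2]
      refine Finset.sum_congr rfl fun l _ => ?_
      rw [Pi.smul_apply, smul_eq_mul, hcK]
    rw [h1 q]
    have h2 : ∀ l, algebraMap K K' (cK q l) * f l v =
        ∑ b, algebraMap K K' (e' q b) * (algebraMap K K' (cK (I0 b) l) * f l v) := by
      intro l
      rw [he' q l, map_sum, Finset.sum_mul]
      refine Finset.sum_congr rfl fun b _ => ?_
      rw [map_mul, mul_assoc]
    rw [Finset.sum_congr rfl fun l _ => h2 l, Finset.sum_comm]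
    refine Finset.sum_congr rfl fun b _ => ?_
    rw [← Finset.mul_sum, ← h1 (I0 b)]
  have haM : ∀ a : A, algebraMap A K a ∈ M.A t := fun a => M.base t ⟨a, rfl⟩
  let F : Fin r → Fin r → M.A t := fun l s =>
    if h : ((I0 l).2 : ℕ) + 1 < κ0 then e' ((I0 l).1, ⟨_, h⟩) s
    else ∑ q, (⟨_, haM (a (I0 l).1 q)⟩ : M.A t) * e' q s
  have hU : ∀ v : Λ, ∀ i, algebraMap B K' (v.1 i) =
      ∑ l, algebraMap K K' (e' (i, ⟨0, hκ0⟩) l) * u (I0 l) v := by
    intro v i
    rw [← hu]
    change _ = algebraMap B K' (v.1 i) ^ p ^ 0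
    rw [pow_zero, pow_one]
  have hF : ∀ v : Λ, ∀ l, u (I0 l) v ^ p = ∑ s, algebraMap K K' (F l s) * u (I0 s) v := by
    intro v l
    have h1 : u (I0 l) v ^ p = algebraMap B K' (v.1 (I0 l).1) ^ p ^ (((I0 l).2 : ℕ) + 1) := by
      change (algebraMap B K' (v.1 (I0 l).1) ^ p ^ ((I0 l).2 : ℕ)) ^ p = _
      rw [← pow_mul, ← pow_succ]
    by_cases h : ((I0 l).2 : ℕ) + 1 < κ0
    · have h2 := hu ((I0 l).1, ⟨_, h⟩) v
      have h3 : u (I0 l) v ^ p = u ((I0 l).1, ⟨_, h⟩) v := h1
      rw [h3, h2]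
      refine Finset.sum_congr rfl fun s _ => ?_
      simp only [F, dif_pos h]
    · have h2 : ((I0 l).2 : ℕ) + 1 = κ0 := by
        have := (I0 l).2.2
        omega
      rw [h1, h2, ← map_pow, ha (I0 l).1 v, map_sum]
      have h3 : ∀ q, algebraMap B K' (algebraMap A B (a (I0 l).1 q) * v.1 q.1 ^ p ^ (q.2 : ℕ)) =
          ∑ s, algebraMap K K' (algebraMap A K (a (I0 l).1 q) * (e' q s : K)) * u (I0 s) v := by
        intro q
        rw [map_mul, map_pow, ← IsScalarTower.algebraMap_apply A B K',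
          IsScalarTower.algebraMap_apply A K K']
        change _ * u q v = _
        rw [hu q v, Finset.mul_sum]
        refine Finset.sum_congr rfl fun s _ => ?_
        rw [map_mul, mul_assoc]
      rw [Finset.sum_congr rfl fun q _ => h3 q, Finset.sum_comm]
      refine Finset.sum_congr rfl fun s _ => ?_
      rw [← Finset.sum_mul, ← map_sum]
      congr 2
      simp only [F, dif_neg h]
      rw [AddSubmonoidClass.coe_finsetSum]
      rfl
  refine ⟨r, fun l => (I0 l).1, fun l => ((I0 l).2 : ℕ), fun i => e' (i, ⟨0, hκ0⟩), F, ?_,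
    fun v hv i => hU ⟨v, hv⟩ i, fun v hv l => hF ⟨v, hv⟩ l⟩
  apply le_antisymm
  · have : Fintype Λ := Fintype.ofFinite Λ
    rw [Nat.card_eq_fintype_card]
    refine card_le (M := K') (fun (v : Λ) l => u (I0 l) v) hp1 ?_ 0
      (fun l s => algebraMap K K' (F l s)) ?_
    · intro v v' hvv
      apply Subtype.ext
      funext i
      apply hβ
      rw [hU v i, hU v' i]
      refine Finset.sum_congr rfl fun l _ => ?_
      rw [show u (I0 l) v = u (I0 l) v' from congrFun hvv l]
    · intro v l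
      rw [Pi.zero_apply, zero_add]
      exact hF v l
  · refine card_ge (K' := K') p ?_ f ?_ hf3
    · intro v
      have h1 : (p : B) = 0 := by
        apply hβ
        rw [map_natCast, CharP.cast_eq_zero, map_zero]
      apply Subtype.ext
      funext i
      change p • v.1 i = 0
      rw [nsmul_eq_mul, h1, zero_mul]
    · intro l v v'
      rw [← hI1 l]
      change algebraMap B K' (v.1 (I1 l).1 + v'.1 (I1 l).1) ^ p ^ ((I1 l).2 : ℕ) = _
      rw [map_add, add_pow_char_pow]

end Pool.Agent.Helper819.TR
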