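import Pool.Agent.Helper819.TR.Red

set_option autoImplicit false
set_option linter.unusedSectionVars false

universe u v

open scoped TensorProduct

namespace Pool.Agent.Helper819.TR

section expand

variable {S : Type*} [CommRing S] {r p : ℕ}

/-- Product of binomial coefficients. -/
def chc (α β : Fin r → Fin p) : ℕ := ∏ l, Nat.choose (α l) (β l)

/-- Monomial of the difference of exponents. -/
def pd (x : Fin r → S) (α β : Fin r → Fin p) : S := ∏ l, x l ^ ((α l : ℕ) - (β l : ℕ))

/-- Total degree. -/
def sz (α : Fin r → Fin p) : ℕ := ∑ l, (α l : ℕ)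

lemma expand_red (x y : Fin r → S) (α : Fin r → Fin p) :
    red (fun l => x l + y l) α =
      ∑ β : Fin r → Fin p, (chc α β : S) * pd x α β * red y β := by
  classical
  have h1 : ∀ l, (x l + y l) ^ (α l : ℕ) =
      ∑ j : Fin p, (Nat.choose (α l) j : S) * x l ^ ((α l : ℕ) - (j : ℕ)) * y l ^ (j : ℕ) := by
    intro l
    rw [Fin.sum_univ_eq_sum_range
      (fun j => (Nat.choose (α l) j : S) * x l ^ ((α l : ℕ) - j) * y l ^ j) p,
      add_comm, add_pow]
    have h2 : Finset.range ((α l : ℕ) + 1) ⊆ Finset.range p := by
      intro j hj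
      rw [Finset.mem_range] at hj ⊢
      have := (α l).2
      omega
    rw [← Finset.sum_subset h2]
    · exact Finset.sum_congr rfl fun j _ => by ring
    · intro j _ hj
      rw [Finset.mem_range, not_lt] at hj
      rw [Nat.choose_eq_zero_of_lt (by omega)]
      simp
  rw [red, Finset.prod_congr rfl fun l _ => h1 l, Finset.prod_univ_sum, Fintype.piFinset_univ]
  refine Finset.sum_congr rfl fun β _ => ?_
  rw [Finset.prod_mul_distrib, Finset.prod_mul_distrib, chc, pd, red, Nat.cast_prod]

lemma chc_self (α : Fin r → Fin p) : chc α α = 1 := by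
  rw [chc]
  exact Finset.prod_eq_one fun l _ => Nat.choose_self _

lemma le_of_chc {α β : Fin r → Fin p} (h : chc α β ≠ 0) (l : Fin r) : (β l : ℕ) ≤ α l := by
  rw [chc, Finset.prod_ne_zero_iff] at h
  have h1 := h l (Finset.mem_univ l)
  by_contra h2
  exact h1 (Nat.choose_eq_zero_of_lt (by omega))

lemma sz_lt_of_chc {α β : Fin r → Fin p} (h : chc α β ≠ 0) (hne : β ≠ α) : sz β < sz α := by
  obtain ⟨l, hl⟩ := Function.ne_iff.1 hne
  refine Finset.sum_lt_sum (fun l _ => le_of_chc h l) ⟨l, Finset.mem_univ l, ?_⟩
  have h1 := le_of_chc h l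
  have h2 : (β l : ℕ) ≠ α l := fun h => hl (Fin.ext h)
  omega

lemma pd_self (x : Fin r → S) (α : Fin r → Fin p) : pd x α α = 1 := by
  rw [pd]
  exact Finset.prod_eq_one fun l _ => by rw [Nat.sub_self, pow_zero]

lemma pd_map {S' : Type*} [CommRing S'] (φ : S →+* S') (x : Fin r → S) (α β : Fin r → Fin p) :
    pd (fun l => φ (x l)) α β = φ (pd x α β) := by
  rw [pd, pd, map_prod]
  exact Finset.prod_congr rfl fun l _ => (map_pow _ _ _).symm

lemma red_map {S' : Type*} [CommRing S'] (φ : S →+* S') (x : Fin r → S) (α : Fin r → Fin p) :
    red (fun l => φ (x l)) α = φ (red x α) := by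
  rw [red, red, map_prod]
  exact Finset.prod_congr rfl fun l _ => (map_pow _ _ _).symm

/-- Independence is kept under a shift. -/
theorem shift_indep {R : Type*} [CommRing R] [Algebra R S] (x : Fin r → R) (y : Fin r → S)
    (h : ∀ a : (Fin r → Fin p) → R, ∑ α, algebraMap R S (a α) * red y α = 0 → ∀ α, a α = 0)
    (a : (Fin r → Fin p) → R)
    (ha : ∑ α, algebraMap R S (a α) * red (fun l => algebraMap R S (x l) + y l) α = 0) :
    ∀ α, a α = 0 := by
  classical
  have h1 : ∀ β, ∑ α, a α * (chc α β * pd x α β) = 0 := by
    apply h
    rw [← ha]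
    have h2 : ∀ α, algebraMap R S (a α) * red (fun l => algebraMap R S (x l) + y l) α =
        ∑ β, algebraMap R S (a α * (chc α β * pd x α β)) * red y β := by
      intro α
      rw [expand_red, Finset.mul_sum]
      refine Finset.sum_congr rfl fun β _ => ?_
      rw [pd_map (algebraMap R S)]
      simp only [map_mul, map_natCast]
      ring
    rw [Finset.sum_congr rfl fun α _ => h2 α, Finset.sum_comm]
    refine Finset.sum_congr rfl fun β _ => ?_
    rw [map_sum, Finset.sum_mul]
  by_contra hne
  push Not at hne
  obtain ⟨α1, hα1⟩ := hne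
  obtain ⟨α0, hα0, hmax⟩ := Finset.exists_max_image (Finset.univ.filter fun α => a α ≠ 0) sz
    ⟨α1, Finset.mem_filter.2 ⟨Finset.mem_univ _, hα1⟩⟩
  have h3 := h1 α0
  rw [Finset.sum_eq_single α0] at h3
  · rw [chc_self, pd_self] at h3
    apply (Finset.mem_filter.1 hα0).2
    simpa using h3
  · intro α _ hα
    by_cases h4 : a α = 0
    · rw [h4, zero_mul]
    · by_cases h5 : chc α α0 = 0
      · rw [h5]; simp
      · have h6 := sz_lt_of_chc h5 (Ne.symm hα)
        have h7 := hmax α (Finset.mem_filter.2 ⟨Finset.mem_univ _, h4⟩)
        omega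
  · intro h4
    exact absurd (Finset.mem_univ _) h4

end expand

section functional

variable {K V : Type*} [Field K] [AddCommGroup V] [Module K V]

lemma exists_functional {ι : Type*} {g : ι → V} (hg : LinearIndependent K g) (i0 : ι) :
    ∃ φ : V →ₗ[K] K, φ (g i0) = 1 ∧ ∀ i, i ≠ i0 → φ (g i) = 0 := by
  classical
  obtain ⟨φ, hφ⟩ := LinearMap.exists_extend
    ((Finsupp.lapply i0 : (ι →₀ K) →ₗ[K] K).comp (hg.repr : _ →ₗ[K] (ι →₀ K)))
  have h1 : ∀ i, φ (g i) = (Finsupp.single i (1 : K)) i0 := by
    intro i
    have h2 := congrArg (fun ψ => ψ ⟨g i, Submodule.subset_span ⟨i, rfl⟩⟩) hφ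
    have h3 : φ (g i) = (hg.repr ⟨g i, Submodule.subset_span ⟨i, rfl⟩⟩) i0 := h2
    rw [h3, hg.repr_eq_single i _ rfl]
  refine ⟨φ, ?_, fun i hi => ?_⟩
  · rw [h1, Finsupp.single_eq_same]
  · rw [h1, Finsupp.single_eq_of_ne (Ne.symm hi)]

end functional

section prim

variable {K D : Type u} [Field K] [CommRing D] [Bialgebra K D] {r p : ℕ}

/-- The unit vectors. -/
def el (hp : 1 < p) (l : Fin r) : Fin r → Fin p := fun s =>
  if s = l then ⟨1, hp⟩ else ⟨0, by omega⟩

/-- Lowering of an exponent. -/
def dn (l : Fin r) (α : Fin r → Fin p) : Fin r → Fin p := fun s =>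
  if s = l then ⟨(α l : ℕ) - 1, by have := (α l).2; omega⟩ else α s

lemma el_val (hp : 1 < p) (l s : Fin r) : ((el hp l s : Fin p) : ℕ) = if s = l then 1 else 0 := by
  rw [el]; split_ifs <;> rfl

lemma dn_val (l : Fin r) (α : Fin r → Fin p) (s : Fin r) :
    ((dn l α s : Fin p) : ℕ) = (α s : ℕ) - if s = l then 1 else 0 := by
  rw [dn]
  by_cases h : s = l
  · subst h; simp
  · simp [h]

lemma sz_el (hp : 1 < p) (l : Fin r) : sz (el hp l) = 1 := by
  rw [sz, Finset.sum_congr rfl fun s _ => el_val hp l s, Finset.sum_ite_eq' Finset.univ l,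
    if_pos (Finset.mem_univ l)]

lemma sz_dn (l : Fin r) (α : Fin r → Fin p) (h : (α l : ℕ) ≠ 0) : sz (dn l α) + 1 = sz α := by
  have h1 : sz α = ∑ s, ((dn l α s : ℕ) + if s = l then 1 else 0) := by
    refine Finset.sum_congr rfl fun s _ => ?_
    rw [dn_val]
    by_cases hs : s = l
    · subst hs
      simp only [if_true]
      omega
    · simp [hs]
  rw [h1, Finset.sum_add_distrib, Finset.sum_ite_eq' Finset.univ l, if_pos (Finset.mem_univ l)]
  rfl

lemma dn_inj (l : Fin r) {α β : Fin r → Fin p} (hα : (α l : ℕ) ≠ 0) (hβ : (β l : ℕ) ≠ 0)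
    (h : dn l α = dn l β) : α = β := by
  funext s
  have h1 := congrArg Fin.val (congrFun h s)
  rw [dn_val, dn_val] at h1
  by_cases hs : s = l
  · subst hs
    simp only [if_true] at h1
    exact Fin.ext (by omega)
  · simp only [hs, if_false] at h1
    exact Fin.ext (by omega)

lemma chc_el (hp : 1 < p) (l : Fin r) (α : Fin r → Fin p) : chc α (el hp l) = α l := by
  rw [chc, Finset.prod_eq_single l]
  · rw [el_val, if_pos rfl, Nat.choose_one_right]
  · intro s _ hs
    rw [el_val, if_neg hs, Nat.choose_zero_right]
  · intro h; exact absurd (Finset.mem_univ _) h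

lemma pd_el {S : Type*} [CommRing S] (hp : 1 < p) (x : Fin r → S) (l : Fin r)
    (α : Fin r → Fin p) : pd x α (el hp l) = red x (dn l α) := by
  rw [pd, red]
  refine Finset.prod_congr rfl fun s _ => ?_
  rw [el_val, dn_val]

/-- The comultiplication of a reduced monomial of primitive elements. -/
lemma comul_red (w : Fin r → D)
    (hw : ∀ l, Coalgebra.comul (R := K) (w l) = w l ⊗ₜ[K] 1 + 1 ⊗ₜ[K] w l)
    (α : Fin r → Fin p) :
    Coalgebra.comul (R := K) (red w α) =
      ∑ β : Fin r → Fin p, (chc α β : K) • (pd w α β ⊗ₜ[K] red w β) := by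
  have h1 : Coalgebra.comul (R := K) (red w α) =
      red (fun l => (Algebra.TensorProduct.includeLeftRingHom (w l) : D ⊗[K] D) +
        (Algebra.TensorProduct.includeRight (R := K) (A := D) (B := D) (w l))) α := by
    change Bialgebra.comulAlgHom K D (red w α) = _
    rw [red, map_prod, red]
    refine Finset.prod_congr rfl fun l _ => ?_
    rw [map_pow]
    congr 1
    exact hw l
  rw [h1, expand_red]
  refine Finset.sum_congr rfl fun β _ => ?_
  have h2 : red (fun l => (Algebra.TensorProduct.includeRight (R := K) (A := D) (B := D) (w l))) β =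
      Algebra.TensorProduct.includeRight (R := K) (A := D) (B := D) (red w β) :=
    red_map (Algebra.TensorProduct.includeRight (R := K) (A := D) (B := D)).toRingHom w β
  rw [pd_map (Algebra.TensorProduct.includeLeftRingHom : D →+* D ⊗[K] D), h2]
  change _ * (pd w α β ⊗ₜ[K] (1 : D)) * ((1 : D) ⊗ₜ[K] red w β) = _
  rw [mul_assoc, Algebra.TensorProduct.tmul_mul_tmul, mul_one, one_mul, Algebra.smul_def,
    map_natCast]

theorem indep_prim [hpr : Fact p.Prime] [CharP K p] (w : Fin r → D)
    (hw : ∀ l, Coalgebra.comul (R := K) (w l) = w l ⊗ₜ[K] 1 + 1 ⊗ₜ[K] w l)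
    (hi : LinearIndependent K w) :
    LinearIndependent K (fun α : Fin r → Fin p => red w α) := by
  classical
  have hp := hpr.out.one_lt
  have heps : ∀ l, Coalgebra.counit (R := K) (w l) = 0 := by
    intro l
    have h1 := Coalgebra.rTensor_counit_comul (R := K) (w l)
    rw [hw l, map_add, LinearMap.rTensor_tmul, LinearMap.rTensor_tmul,
      Bialgebra.counit_one] at h1
    have h2 : Coalgebra.counit (R := K) (w l) ⊗ₜ[K] (1 : D) = 0 := add_eq_right.1 h1
    have h3 := congrArg (fun z => Bialgebra.counitAlgHom K D (TensorProduct.lid K D z)) h2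
    simp only [TensorProduct.lid_tmul, map_smul, map_one, map_zero, smul_eq_mul, mul_one] at h3
    exact h3
  have hred0 : ∀ α : Fin r → Fin p, sz α = 0 → red w α = 1 := by
    intro α hα
    rw [sz, Finset.sum_eq_zero_iff] at hα
    rw [red]
    exact Finset.prod_eq_one fun l hl => by rw [hα l hl, pow_zero]
  have key : ∀ d : ℕ, 1 ≤ d → ∀ c : (Fin r → Fin p) → K, (∀ α, d < sz α → c α = 0) →
      ∑ α, c α • red w α = 0 → ∀ α, c α = 0 := by
    intro d hd
    induction d, hd using Nat.le_induction with
    | base =>
      intro c hc hsum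
      -- the constant term
      have h0 : ∀ α, sz α = 0 → c α = 0 := by
        intro α hα
        have h1 := congrArg (Bialgebra.counitAlgHom K D) hsum
        rw [map_sum, map_zero, Finset.sum_eq_single α] at h1
        · rw [map_smul, hred0 α hα, map_one, smul_eq_mul, mul_one] at h1
          exact h1
        · intro β _ hβ
          rw [map_smul]
          have h2 : sz β ≠ 0 := by
            intro h3
            apply hβ
            rw [sz, Finset.sum_eq_zero_iff] at h3 hα
            funext l
            exact Fin.ext ((h3 l (Finset.mem_univ l)).trans (hα l (Finset.mem_univ l)).symm)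
          obtain ⟨l, hl, hl0⟩ := Finset.exists_ne_zero_of_sum_ne_zero h2
          have h3 : Bialgebra.counitAlgHom K D (red w β) = 0 := by
            rw [red, map_prod]
            refine Finset.prod_eq_zero hl ?_
            rw [map_pow]
            change Coalgebra.counit (R := K) (w l) ^ _ = 0
            rw [heps, zero_pow hl0]
          rw [h3, smul_zero]
        · intro h; exact absurd (Finset.mem_univ _) h
      have h1 : ∀ l, c (el hp l) = 0 := by
        have hinj : Function.Injective (el (r := r) hp) := by
          intro l l' h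
          by_contra hne
          have h2 := congrArg Fin.val (congrFun h l)
          rw [el_val, el_val, if_pos rfl, if_neg hne] at h2
          exact one_ne_zero h2
        have h2 : ∑ l, c (el hp l) • w l = 0 := by
          rw [← hsum]
          have h3 : ∑ α ∈ Finset.univ.image (el (r := r) hp), c α • red w α =
              ∑ l, c (el hp l) • w l := by
            rw [Finset.sum_image fun _ _ _ _ h => hinj h]
            refine Finset.sum_congr rfl fun l _ => ?_
            congr 1
            rw [red, Finset.prod_eq_single l]
            · rw [el_val, if_pos rfl, pow_one]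
            · intro s _ hs
              rw [el_val, if_neg hs, pow_zero]
            · intro h; exact absurd (Finset.mem_univ _) h
          rw [← h3]
          refine Finset.sum_subset (Finset.subset_univ _) fun α _ hα => ?_
          by_cases h4 : sz α = 0
          · rw [h0 α h4, zero_smul]
          by_cases h5 : 1 < sz α
          · rw [hc α h5, zero_smul]
          exfalso
          apply hα
          have h6 : sz α = 1 := by omega
          obtain ⟨l, hl, hl0⟩ := Finset.exists_ne_zero_of_sum_ne_zero h4
          refine Finset.mem_image.2 ⟨l, Finset.mem_univ l, ?_⟩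
          have h7 := sz_dn l α hl0
          have h8 : sz (dn l α) = 0 := by omega
          rw [sz, Finset.sum_eq_zero_iff] at h8
          funext s
          have h9 := h8 s (Finset.mem_univ s)
          rw [dn_val] at h9
          apply Fin.ext
          rw [el_val]
          by_cases hs : s = l
          · subst hs
            simp only [if_true] at h9 ⊢
            omega
          · simp only [hs, if_false] at h9 ⊢
            omega
        exact Fintype.linearIndependent_iff.1 hi _ h2
      intro α
      by_cases h4 : sz α = 0
      · exact h0 α h4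
      by_cases h5 : 1 < sz α
      · exact hc α h5
      obtain ⟨l, hl, hl0⟩ := Finset.exists_ne_zero_of_sum_ne_zero h4
      have h7 := sz_dn l α hl0
      have h8 : sz (dn l α) = 0 := by omega
      rw [sz, Finset.sum_eq_zero_iff] at h8
      have h9 : α = el hp l := by
        funext s
        have h9 := h8 s (Finset.mem_univ s)
        rw [dn_val] at h9
        apply Fin.ext
        rw [el_val]
        by_cases hs : s = l
        · subst hs
          simp only [if_true] at h9 ⊢
          omega
        · simp only [hs, if_false] at h9 ⊢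
          omega
      rw [h9]
      exact h1 l
    | succ d hd ih =>
      intro c hc hsum
      -- independence in degrees at most `d`
      have hind : LinearIndependent K (fun β : {β : Fin r → Fin p // sz β ≤ d} => red w β.1) := by
        rw [Fintype.linearIndependent_iff]
        intro g hg β
        have h1 := ih (fun α => if h : sz α ≤ d then g ⟨α, h⟩ else 0)
          (fun α hα => dif_neg (by omega)) (by
            rw [← hg, ← Finset.sum_subset (Finset.filter_subset (fun β => sz β ≤ d)
              (Finset.univ : Finset (Fin r → Fin p))),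
              Finset.sum_subtype (p := fun β => sz β ≤ d) _ (fun β => by simp)]
            · refine Finset.sum_congr rfl fun β _ => ?_
              rw [dif_pos β.2]
            · intro β _ hβ
              rw [dif_neg, zero_smul]
              intro h
              exact hβ (Finset.mem_filter.2 ⟨Finset.mem_univ _, h⟩)) β.1
        rw [dif_pos β.2] at h1
        exact h1
      have hkill : ∀ α, 2 ≤ sz α → c α = 0 := by
        intro α0 hα0
        by_cases h1 : d + 1 < sz α0
        · exact hc α0 h1
        have h2 : sz α0 ≠ 0 := by omega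
        obtain ⟨l, hl, hl0⟩ := Finset.exists_ne_zero_of_sum_ne_zero h2
        have h3 := sz_dn l α0 hl0
        obtain ⟨lam, hlam1, hlam0⟩ := exists_functional hind
          (⟨el hp l, by rw [sz_el]; exact hd⟩ : {β : Fin r → Fin p // sz β ≤ d})
        obtain ⟨mu, hmu1, hmu0⟩ := exists_functional hind
          (⟨dn l α0, by omega⟩ : {β : Fin r → Fin p // sz β ≤ d})
        let Φ : D →ₗ[K] K := mu.comp ((TensorProduct.rid K D).toLinearMap.comp
          ((LinearMap.lTensor D lam).comp (Coalgebra.comul (R := K))))
        have hΦ : ∀ α, Φ (red w α) = ∑ β : Fin r → Fin p,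
            (chc α β : K) * (lam (red w β) * mu (pd w α β)) := by
          intro α
          change mu (TensorProduct.rid K D (LinearMap.lTensor D lam
            (Coalgebra.comul (R := K) (red w α)))) = _
          rw [comul_red w hw α, map_sum, map_sum, map_sum]
          refine Finset.sum_congr rfl fun β _ => ?_
          rw [map_smul, map_smul, map_smul, LinearMap.lTensor_tmul, TensorProduct.rid_tmul,
            map_smul, smul_eq_mul, smul_eq_mul]
        have hmu_one : mu 1 = 0 := by
          have h4 : sz (fun _ : Fin r => (⟨0, by omega⟩ : Fin p)) = 0 := by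
            rw [sz]; simp
          have h5 := hmu0 ⟨fun _ => ⟨0, by omega⟩, by omega⟩ (by
            intro h6
            have h7 := congrArg (fun z => sz z.1) h6
            simp only at h7
            omega)
          rwa [hred0 _ h4] at h5
        -- values of Φ
        have hΦ2 : ∀ α : Fin r → Fin p, sz α ≤ d + 1 → Φ (red w α) = (α l : ℕ) * mu (red w (dn l α)) := by
          intro α hα
          rw [hΦ, Finset.sum_eq_single (el hp l)]
          · rw [chc_el, hlam1, one_mul, pd_el]
          · intro β _ hβ
            by_cases h4 : chc α β = 0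
            · rw [h4, Nat.cast_zero, zero_mul]
            by_cases h5 : sz β ≤ d
            · have h6 := hlam0 ⟨β, h5⟩ (fun h => hβ (congrArg Subtype.val h))
              rw [h6, zero_mul, mul_zero]
            · have h6 : β = α := by
                by_contra h7
                have := sz_lt_of_chc h4 h7
                omega
              rw [h6, pd_self, hmu_one, mul_zero, mul_zero]
          · intro h; exact absurd (Finset.mem_univ _) h
        have h4 := congrArg Φ hsum
        rw [map_sum, map_zero, Finset.sum_eq_single α0] at h4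
        · rw [map_smul, hΦ2 α0 (by omega), hmu1, mul_one, smul_eq_mul] at h4
          rcases mul_eq_zero.1 h4 with h5 | h5
          · exact h5
          · exfalso
            rw [CharP.cast_eq_zero_iff K p] at h5
            exact hl0 (Nat.eq_zero_of_dvd_of_lt h5 (α0 l).2)
        · intro α _ hα
          by_cases h5 : c α = 0
          · rw [h5, zero_smul, map_zero]
          have h6 : sz α ≤ d + 1 := by
            by_contra h7
            exact h5 (hc α (by omega))
          rw [map_smul, hΦ2 α h6]
          by_cases h7 : (α l : ℕ) = 0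
          · rw [h7, Nat.cast_zero, zero_mul, smul_zero]
          have h8 := sz_dn l α h7
          have h9 := hmu0 ⟨dn l α, by omega⟩ (fun h => hα (dn_inj l h7 hl0
            (congrArg Subtype.val h)))
          rw [h9, mul_zero, smul_zero]
        · intro h; exact absurd (Finset.mem_univ _) h
      refine ih c (fun α hα => hkill α (by omega)) hsum
  rw [Fintype.linearIndependent_iff]
  intro c hc
  refine key (1 + r * p) (by omega) c (fun α hα => ?_) hc
  exfalso
  have h1 : sz α ≤ ∑ _l : Fin r, p := Finset.sum_le_sum fun l _ => (α l).2.le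
  rw [Finset.sum_const, Finset.card_univ, Fintype.card_fin, smul_eq_mul] at h1
  omega

end prim

end Pool.Agent.Helper819.TR
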