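import Pool.Agent.Helper819.TR.Ret
import Pool.Agent.Helper819.TR.Pbw

set_option autoImplicit false
set_option linter.unusedSectionVars false

universe u v

open MvPolynomial

namespace Pool.Agent.Helper819.TR.RD

section main

variable {O D : Type u} [CommRing O] [IsDomain O] [CommRing D] [Algebra O D] {m r : ℕ} (p : ℕ)
  [hp : Fact p.Prime] [CharP O p] [CharP D p]
  (ι : Fin r → Fin m) (κ : Fin r → ℕ) (U : Fin m → Fin r → O) (F : Fin r → Fin r → O)

/-- The polynomial ring over the extension, with translated coordinates. -/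
noncomputable def Tv (v : Fin r → D) : MvPolynomial (Fin m ⊕ Fin r) O →ₐ[O]
    MvPolynomial (Fin m ⊕ Fin r) D :=
  aeval (Sum.elim (fun i => X (Sum.inl i)) fun l => X (Sum.inr l) + C (v l))

lemma algebraMap_C (a : O) : algebraMap O (MvPolynomial (Fin m ⊕ Fin r) D) a =
    C (algebraMap O D a) := rfl

lemma Tv_Psi (v : Fin r → D) (hv : ∀ l, v l ^ p = ∑ s, algebraMap O D (F l s) * v s)
    (g : MvPolynomial (Fin m ⊕ Fin r) O) : Tv v (Psi p F g) = Tv 0 (Psi p F g) := by
  have h : (Tv (D := D) (m := m) v).comp (Psi p F) = (Tv 0).comp (Psi p F) := by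
    apply algHom_ext
    rintro (i | l)
    · rw [AlgHom.comp_apply, AlgHom.comp_apply, Psi_inl, Tv, Tv, aeval_X, aeval_X]
      rfl
    · rw [AlgHom.comp_apply, AlgHom.comp_apply, Psi_inr, Tv, Tv]
      simp only [map_sub, map_pow, map_sum, map_mul, aeval_X, Sum.elim_inr, aeval_C,
        Pi.zero_apply, C_0, add_zero, algebraMap_C]
      rw [add_pow_char, ← C_pow, hv l, map_sum]
      simp only [map_mul, mul_add, Finset.sum_add_distrib]
      ring
  exact congrArg (fun g' => g' g) h

lemma Tv_sub (v : Fin m → D) (v' : Fin r → D)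
    (hU : ∀ i, v i = ∑ l, algebraMap O D (U i l) * v' l) (f : MvPolynomial (Fin m) O)
    (hf : tr v (MvPolynomial.map (algebraMap O D) f) = MvPolynomial.map (algebraMap O D) f) :
    Tv v' (sub U f) = Tv 0 (sub U f) := by
  let E : MvPolynomial (Fin m) D →ₐ[D] MvPolynomial (Fin m ⊕ Fin r) D :=
    aeval fun i => X (Sum.inl i) + ∑ l, C (algebraMap O D (U i l)) * X (Sum.inr l)
  have h1 : ∀ f : MvPolynomial (Fin m) O,
      Tv 0 (sub U f) = E (MvPolynomial.map (algebraMap O D) f) := by
    intro f
    induction f using MvPolynomial.induction_on with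
    | C a =>
      rw [MvPolynomial.map_C, sub, aeval_C, MvPolynomial.algebraMap_eq, Tv, aeval_C, aeval_C]
      rfl
    | add f g hf hg => rw [map_add, map_add, map_add, map_add, hf, hg]
    | mul_X f i hf =>
      rw [map_mul, map_mul, map_mul, map_mul, hf, MvPolynomial.map_X]
      congr 1
      rw [sub, aeval_X, Tv]
      simp only [map_add, map_sum, map_mul, aeval_X, aeval_C, Sum.elim_inl, Sum.elim_inr,
        Pi.zero_apply, C_0, add_zero, algebraMap_C, E]
  have h2 : ∀ f : MvPolynomial (Fin m) O,
      Tv v' (sub U f) = E (tr v (MvPolynomial.map (algebraMap O D) f)) := by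
    intro f
    induction f using MvPolynomial.induction_on with
    | C a =>
      rw [MvPolynomial.map_C, sub, aeval_C, MvPolynomial.algebraMap_eq, Tv, aeval_C, tr_C,
        aeval_C]
      rfl
    | add f g hf hg => rw [map_add, map_add, map_add, map_add, map_add, hf, hg]
    | mul_X f i hf =>
      rw [map_mul, map_mul, map_mul, map_mul, map_mul, hf, MvPolynomial.map_X]
      congr 1
      rw [sub, aeval_X, Tv, tr_X]
      simp only [map_add, map_sum, map_mul, aeval_X, aeval_C, Sum.elim_inl, Sum.elim_inr,
        algebraMap_C, E, mul_add, Finset.sum_add_distrib]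
      rw [hU i, show (algebraMap D (MvPolynomial (Fin m ⊕ Fin r) D)) = C from rfl, map_sum]
      simp only [map_mul]
      ring
  rw [h2, hf, h1]


/-- The invariants come from the isogeny. -/
theorem exists_pre (hinj : Function.Injective (algebraMap O D)) (v : Fin m → D)
    (hU : ∀ i, v i = ∑ l, algebraMap O D (U i l) * v (ι l) ^ p ^ κ l)
    (hF : ∀ l, (v (ι l) ^ p ^ κ l) ^ p =
      ∑ s, algebraMap O D (F l s) * v (ι s) ^ p ^ κ s)
    (hind : ∀ a : (Fin r → Fin p) → O, ∑ α, algebraMap O D (a α) *
      red (fun l => v (ι l) ^ p ^ κ l) α = 0 → ∀ α, a α = 0)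
    (f : MvPolynomial (Fin m) O)
    (hf : tr v (MvPolynomial.map (algebraMap O D) f) = MvPolynomial.map (algebraMap O D) f) :
    ∃ g, Psi p F g = sub U f := by
  classical
  have hp1 := hp.out.one_lt
  obtain ⟨c, hc⟩ := sp_all p F hp1 (sub U f)
  let v' : Fin r → D := fun l => v (ι l) ^ p ^ κ l
  let R := MvPolynomial (Fin m ⊕ Fin r) O
  let S := MvPolynomial (Fin m ⊕ Fin r) D
  let : Algebra R S := (MvPolynomial.map (algebraMap O D)).toAlgebra
  have halg : ∀ g : R, algebraMap R S g = MvPolynomial.map (algebraMap O D) g := fun _ => rfl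
  -- independence over the polynomial ring
  have hind1 : ∀ a : (Fin r → Fin p) → R, ∑ α, algebraMap R S (a α) *
      red (fun l => (C (v' l) : S)) α = 0 → ∀ α, a α = 0 := by
    intro a ha α
    ext s
    rw [coeff_zero]
    refine hind (fun α => coeff s (a α)) ?_ α
    have h1 := congrArg (coeff s) ha
    rw [coeff_zero, MvPolynomial.coeff_sum] at h1
    rw [← h1]
    refine Finset.sum_congr rfl fun α _ => ?_
    rw [red_map (C : D →+* S), mul_comm (algebraMap R S (a α)), coeff_C_mul, halg,
      coeff_map, mul_comm]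
  have hind2 := shift_indep (R := R) (S := S) (p := p) (fun l => X (Sum.inr l))
    (fun l => C (v' l)) hind1
  have hT : (Tv (D := D) (m := m) (0 : Fin r → D) :
      MvPolynomial (Fin m ⊕ Fin r) O → MvPolynomial (Fin m ⊕ Fin r) D) =
      MvPolynomial.map (algebraMap O D) := by
    funext g
    induction g using MvPolynomial.induction_on with
    | C a => rw [Tv, aeval_C, MvPolynomial.map_C]; rfl
    | add f g hf hg => rw [map_add, map_add, hf, hg]
    | mul_X f i hf =>
      rw [map_mul, map_mul, hf, Tv, aeval_X, MvPolynomial.map_X]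
      rcases i with i | l
      · rfl
      · simp
  -- the coefficients
  let α0 : Fin r → Fin p := fun _ => ⟨0, hp.out.pos⟩
  let d : (Fin r → Fin p) → R := fun α => Psi p F (c α) -
    if α = α0 then sub U f else 0
  have hd : ∑ α, algebraMap R S (d α) *
      red (fun l => algebraMap R S (X (Sum.inr l)) + C (v' l)) α = 0 := by
    have h1 : ∀ α, algebraMap R S (d α) *
        red (fun l => algebraMap R S (X (Sum.inr l)) + C (v' l)) α =
        Tv v' (Psi p F (c α)) * red (fun l => algebraMap R S (X (Sum.inr l)) + C (v' l)) α -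
          (if α = α0 then Tv 0 (sub U f) else 0) *
            red (fun l => algebraMap R S (X (Sum.inr l)) + C (v' l)) α := by
      intro α
      rw [← sub_mul, Tv_Psi p F v' hF]
      congr 1
      simp only [d]
      rw [map_sub]
      congr 1
      · rw [halg, hT]
      · split_ifs with h
        · rw [halg, hT]
        · rw [map_zero]
    rw [Finset.sum_congr rfl fun α _ => h1 α, Finset.sum_sub_distrib]
    have h2 : ∑ α, (if α = α0 then Tv (0 : Fin r → D) (sub U f) else 0) *
        red (fun l => algebraMap R S (X (Sum.inr l)) + C (v' l)) α = Tv 0 (sub U f) := by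
      rw [Finset.sum_eq_single α0]
      · rw [if_pos rfl, red]
        simp [α0]
      · intro β _ h
        rw [if_neg h, zero_mul]
      · intro h; exact absurd (Finset.mem_univ _) h
    have h3 : ∑ α, Tv v' (Psi p F (c α)) *
        red (fun l => algebraMap R S (X (Sum.inr l)) + C (v' l)) α = Tv v' (sub U f) := by
      conv_rhs => rw [hc]
      rw [map_sum]
      refine Finset.sum_congr rfl fun α _ => ?_
      rw [map_mul]
      congr 1
      rw [red, red, map_prod]
      refine Finset.prod_congr rfl fun l _ => ?_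
      rw [map_pow (Tv v'), Tv, aeval_X, halg, MvPolynomial.map_X]
      rfl
    rw [h2, h3, Tv_sub U v v' hU f hf, sub_self]
  have h0 := hind2 d hd α0
  refine ⟨c α0, ?_⟩
  have h1 : d α0 = Psi p F (c α0) - sub U f := by
    simp only [d, if_true]
  rw [h1] at h0
  exact sub_eq_zero.1 h0

variable {p ι κ U F} in
/-- The ring of invariants is smooth. -/
theorem smooth_inv [IsNoetherianRing O] (hinj : Function.Injective (algebraMap O D))
    (v0 : Fin m → D)
    (hU0 : ∀ i, v0 i = ∑ l, algebraMap O D (U i l) * v0 (ι l) ^ p ^ κ l)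
    (hF0 : ∀ l, (v0 (ι l) ^ p ^ κ l) ^ p =
      ∑ s, algebraMap O D (F l s) * v0 (ι s) ^ p ^ κ s)
    (hind : ∀ a : (Fin r → Fin p) → O, ∑ α, algebraMap O D (a α) *
      red (fun l => v0 (ι l) ^ p ^ κ l) α = 0 → ∀ α, a α = 0) :
    Algebra.Smooth O (invT O ({v0} : Set (Fin m → D))) := by
  classical
  let Λ : Set (Fin m → D) := {v0}
  change Algebra.Smooth O (invT O Λ)
  have hU : ∀ v ∈ Λ, ∀ i, v i = ∑ l, algebraMap O D (U i l) * v (ι l) ^ p ^ κ l := by
    intro v hv; rw [Set.mem_singleton_iff.1 hv]; exact hU0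
  have hF : ∀ v ∈ Λ, ∀ l, (v (ι l) ^ p ^ κ l) ^ p =
      ∑ s, algebraMap O D (F l s) * v (ι s) ^ p ^ κ s := by
    intro v hv; rw [Set.mem_singleton_iff.1 hv]; exact hF0
  have hp1 := hp.out.one_lt
  let ρ : MvPolynomial (Fin m ⊕ Fin r) O →ₐ[O] MvPolynomial (Fin m) O :=
    (eta p ι κ U).comp (Psi p F)
  have hρ : ∀ g, ρ g ∈ invT O Λ := by
    intro g
    induction g using MvPolynomial.induction_on with
    | C a =>
      have : ρ (C a) = algebraMap O _ a := ρ.commutes a
      rw [this]
      exact (invT O Λ).algebraMap_mem a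
    | add f g hf hg => rw [map_add]; exact (invT O Λ).add_mem hf hg
    | mul_X f i hf =>
      rw [map_mul]
      refine (invT O Λ).mul_mem hf ?_
      rcases i with i | l
      · have h1 : ρ (X (Sum.inl i)) = X i - ∑ l, C (U i l) * X (ι l) ^ p ^ κ l := by
          change eta p ι κ U (Psi p F (X (Sum.inl i))) = _
          rw [Psi_inl, eta, aeval_X]
          rfl
        rw [h1]
        intro v hv
        simp only [map_sub, map_sum, map_mul, map_pow, MvPolynomial.map_X, MvPolynomial.map_C,
          tr_X, tr_C, add_pow_char_pow]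
        rw [hU v hv i]
        simp only [mul_add, Finset.sum_add_distrib, map_sum, map_mul, map_pow]
        ring
      · have h1 : ρ (X (Sum.inr l)) = (X (ι l) ^ p ^ κ l) ^ p -
            ∑ s, C (F l s) * X (ι s) ^ p ^ κ s := by
          change eta p ι κ U (Psi p F (X (Sum.inr l))) = _
          rw [Psi_inr, eta]
          simp only [map_sub, map_sum, map_mul, map_pow, aeval_X, aeval_C,
            MvPolynomial.algebraMap_eq, Sum.elim_inr]
        rw [h1]
        intro v hv
        have h2 := congrArg (C : D → MvPolynomial (Fin m) D) (hF v hv l)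
        simp only [map_sub, map_sum, map_mul, map_pow, MvPolynomial.map_X, MvPolynomial.map_C,
          tr_X, tr_C, add_pow_char_pow, add_pow_char]
        simp only [map_sum, map_mul, map_pow] at h2
        simp only [mul_add, Finset.sum_add_distrib]
        rw [h2]
        ring
  have hpre : ∀ f ∈ invT O Λ, sub U f ∈ (Psi (m := m) p F).range := fun f hf =>
    exists_pre p ι κ U F hinj v0 hU0 hF0 hind f (hf v0 rfl)
  let e := AlgEquiv.ofInjective (Psi (m := m) p F) (Psi_injective p F hp1)
  let pr : invT O Λ →ₐ[O] MvPolynomial (Fin m ⊕ Fin r) O :=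
    (e.symm : (Psi (m := m) p F).range →ₐ[O] MvPolynomial (Fin m ⊕ Fin r) O).comp
      (((sub U).comp (invT O Λ).val).codRestrict (Psi (m := m) p F).range
        (fun f => hpre f.1 f.2))
  let ρC : MvPolynomial (Fin m ⊕ Fin r) O →ₐ[O] invT O Λ := ρ.codRestrict (invT O Λ) hρ
  have hret : ∀ f : invT O Λ, ρC (pr f) = f := by
    intro f
    apply Subtype.ext
    change eta p ι κ U (Psi p F (pr f)) = f
    have h1 : Psi p F (pr f) = sub U f.1 := by
      have h2 : e (pr f) = (((sub U).comp (invT O Λ).val).codRestrict (Psi (m := m) p F).range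
        (fun f => hpre f.1 f.2)) f := e.apply_symm_apply _
      exact congrArg Subtype.val h2
    rw [h1, eta_sub]
  have hsurj : Function.Surjective ρC := fun f => ⟨pr f, hret f⟩
  have hfs : Algebra.FormallySmooth O (invT O Λ) := by
    apply Algebra.FormallySmooth.of_comp_surjective
    intro B _ _ I hI φ
    obtain ⟨h, hh⟩ := Algebra.FormallySmooth.comp_surjective O
      (MvPolynomial (Fin m ⊕ Fin r) O) I hI (φ.comp ρC)
    refine ⟨h.comp pr, ?_⟩
    ext f
    have h1 := congrArg (fun g => g (pr f)) hh
    change (Ideal.Quotient.mkₐ O I) (h (pr f)) = φ f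
    have h2 : (Ideal.Quotient.mkₐ O I) (h (pr f)) = φ (ρC (pr f)) := h1
    rw [h2, hret]
  have hft : Algebra.FiniteType O (invT O Λ) := Algebra.FiniteType.of_surjective ρC hsurj
  exact ⟨hfs, Algebra.FinitePresentation.of_finiteType.1 hft⟩

end main

end Pool.Agent.Helper819.TR.RD
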