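import Pool.Agent.Helper819.TR.Chart
import Pool.Agent.Helper819.TR.Ret3

set_option autoImplicit false
set_option linter.unusedSectionVars false

universe u v

open Pool.Agent.W558

open scoped TensorProduct

namespace Pool.Agent.Helper819.TR.RD

section prim

variable {K D : Type u} [Field K] [CommRing D] [Bialgebra K D]

lemma nontrivial_of_bialgebra (K D : Type u) [Field K] [CommRing D] [Bialgebra K D] :
    Nontrivial D :=
  RingHom.domain_nontrivial (Bialgebra.counitAlgHom K D).toRingHom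

lemma charP_of_bialgebra (K D : Type u) [Field K] [CommRing D] [Bialgebra K D] (p : ℕ)
    [CharP K p] : CharP D p := by
  have := nontrivial_of_bialgebra K D
  exact charP_of_injective_algebraMap (algebraMap K D).injective p

lemma add_pow_pow {K D : Type u} [Field K] [CommRing D] [Algebra K D] {p : ℕ}
    [hp : Fact p.Prime] [CharP K p] (x y : D) (n : ℕ) :
    (x + y) ^ p ^ n = x ^ p ^ n + y ^ p ^ n := by
  obtain ⟨z, hz⟩ := exists_add_pow_prime_pow_eq hp.out x y n
  have h1 : ((p : ℕ) : D) = 0 := by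
    rw [← map_natCast (algebraMap K D), CharP.cast_eq_zero, map_zero]
  rw [hz, h1]
  simp

lemma comul_pow {p : ℕ} [hp : Fact p.Prime] [CharP K p] (x : D)
    (hx : Coalgebra.comul (R := K) x = x ⊗ₜ[K] 1 + 1 ⊗ₜ[K] x) (n : ℕ) :
    Coalgebra.comul (R := K) (x ^ p ^ n) = (x ^ p ^ n) ⊗ₜ[K] 1 + 1 ⊗ₜ[K] (x ^ p ^ n) := by
  have h1 : Coalgebra.comul (R := K) (x ^ p ^ n) = (Coalgebra.comul (R := K) x) ^ p ^ n :=
    map_pow (Bialgebra.comulAlgHom K D) x _
  rw [h1, hx, add_pow_pow (K := K), Algebra.TensorProduct.tmul_pow, Algebra.TensorProduct.tmul_pow,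
    one_pow]

end prim

/-- A relation between the powers of the coordinates. -/
theorem exists_relD {A D : Type u} [CommRing A] [CommRing D] [Algebra A D] [IsNoetherianRing A]
    {m : ℕ} (v : Fin m → D) (hint : ∀ i, IsIntegral A (v i)) (p : ℕ) :
    ∃ κ0 : ℕ, 0 < κ0 ∧ ∀ i, ∃ a : Fin m × Fin κ0 → A,
    v i ^ p ^ κ0 = ∑ q, algebraMap A D (a q) * v q.1 ^ p ^ (q.2 : ℕ) := by
  let B0 := Algebra.adjoin A (Set.range v)
  have hfg : (Subalgebra.toSubmodule B0).FG := fg_adjoin_of_finite (Set.finite_range v) (by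
    rintro _ ⟨i, rfl⟩; exact hint i)
  have hfin : Module.Finite A B0 := Module.Finite.iff_fg.2 hfg
  obtain ⟨κ0, hκ0, h⟩ := exists_rel (A := A) (B := B0) (V := PUnit.{u+1})
    (fun _ i => ⟨v i, Algebra.subset_adjoin ⟨i, rfl⟩⟩) p
  refine ⟨κ0, hκ0, fun i => ?_⟩
  obtain ⟨a, ha⟩ := h i
  refine ⟨a, ?_⟩
  have h1 := congrArg Subtype.val (ha PUnit.unit)
  rw [AddSubmonoidClass.coe_finsetSum] at h1
  exact h1

theorem charts {k A K D : Type u} [Field k] [CommRing A] [IsDomain A] [Field K] [CommRing D]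
    [Algebra k A] [Algebra k K] [Algebra A K] [IsScalarTower k A K] [IsFractionRing A K]
    [Bialgebra K D] [Algebra A D] [IsScalarTower A K D] [Algebra.FiniteType k A]
    (p : ℕ) [hp : Fact p.Prime] [CharP K p] (hM : HasMon k K ⊤) (m : ℕ) (v : Fin m → D)
    (hv : ∀ i, Coalgebra.comul (R := K) (v i) = v i ⊗ₜ[K] 1 + 1 ⊗ₜ[K] v i)
    (hint : ∀ i, IsIntegral A (v i)) :
    ∃ (T I : Type) (_ : Finite T)
      (M : LM (IsScalarTower.toAlgHom k A K).range (IsScalarTower.toAlgHom k A K).range T I),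
      ∀ t, ∃ (r : ℕ) (ι : Fin r → Fin m) (κ : Fin r → ℕ) (U : Fin m → Fin r → M.A t)
        (F : Fin r → Fin r → M.A t),
        (∀ i, v i = ∑ l, algebraMap K D (U i l) * v (ι l) ^ p ^ κ l) ∧
        (∀ l, (v (ι l) ^ p ^ κ l) ^ p = ∑ s, algebraMap K D (F l s) * v (ι s) ^ p ^ κ s) ∧
        ∀ a : (Fin r → Fin p) → M.A t,
          ∑ α, algebraMap K D (a α) * red (fun l => v (ι l) ^ p ^ κ l) α = 0 → ∀ α, a α = 0 := by
  classical
  have hp1 := hp.out.one_lt
  have hnoeth : IsNoetherianRing A := Algebra.FiniteType.isNoetherianRing k A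
  have hnt : Nontrivial D := nontrivial_of_bialgebra K D
  have hchD : CharP D p := charP_of_bialgebra K D p
  obtain ⟨κ0, hκ0, hrel⟩ := exists_relD (A := A) v hint p
  choose a ha using hrel
  let u : Fin m × Fin κ0 → D := fun q => v q.1 ^ p ^ (q.2 : ℕ)
  have huprim : ∀ q, Coalgebra.comul (R := K) (u q) = u q ⊗ₜ[K] 1 + 1 ⊗ₜ[K] u q :=
    fun q => comul_pow (v q.1) (hv q.1) _
  have hfinsp : Module.Finite K (Submodule.span K (Set.range u)) :=
    FiniteDimensional.span_of_finite K (Set.finite_range u)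
  obtain ⟨f, hf1, hf2, hf3⟩ := Submodule.exists_fun_fin_finrank_span_eq K (Set.range u)
  generalize hr : Module.finrank K (Submodule.span K (Set.range u)) = r at f hf1 hf2 hf3
  choose I1 hI1 using hf1
  have hc : ∀ q, ∃ c : Fin r → K, ∑ l, c l • f l = u q := fun q =>
    (Submodule.mem_span_range_iff_exists_fun K).1
      (by rw [hf2]; exact Submodule.subset_span ⟨q, rfl⟩)
  choose cK hc using hc
  have hcI1 : (Matrix.of fun a => cK (I1 a)) = 1 := by
    ext a l
    have h1 : ∑ l, (cK (I1 a) l - if l = a then 1 else 0) • f l = 0 := by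
      simp only [sub_smul, Finset.sum_sub_distrib]
      rw [hc, hI1]
      simp
    have h2 := sub_eq_zero.1 (Fintype.linearIndependent_iff.1 hf3 _ h1 l)
    change cK (I1 a) l = _
    rw [h2, Matrix.one_apply]
    split_ifs with h3 h4 h4
    · rfl
    · exact absurd h3.symm h4
    · exact absurd h4.symm h3
    · rfl
  -- the minors
  let S : Type := {I : Fin r → Fin m × Fin κ0 // (Matrix.of fun a => cK (I a)).det ≠ 0}
  have hSfin : Finite S := inferInstance
  let e : S ≃ Fin (Nat.card S) := Finite.equivFin S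
  let x : Fin (Nat.card S) → Kˣ := fun i => Units.mk0 _ (e.symm i).2
  obtain ⟨n, y, hR⟩ := range_eq_adjoin k A K
  have hfr : ∀ x : K, ∃ a ∈ (IsScalarTower.toAlgHom k A K).range,
      ∃ b ∈ (IsScalarTower.toAlgHom k A K).range, b ≠ 0 ∧ x = a * b⁻¹ := by
    intro x
    obtain ⟨a, b, hb, rfl⟩ := IsFractionRing.div_surjective (A := A) x
    refine ⟨_, ⟨a, rfl⟩, _, ⟨b, rfl⟩, ?_, ?_⟩
    · exact (FaithfulSMul.algebraMap_eq_zero_iff A K).not.2 (nonZeroDivisors.ne_zero hb)
    · rw [div_eq_mul_inv]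
      rfl
  obtain ⟨T, I, i1, M, hMd⟩ := exists_model hM (IsScalarTower.toAlgHom k A K).range n y
    (fun _ => trivial) hR hfr (Nat.card S) x (fun _ => trivial)
  refine ⟨T, I, i1, M, fun t => ?_⟩
  obtain ⟨j, -, hj⟩ := exists_min (M.A t) (fun i => (x i : K)) Finset.univ
    ⟨e ⟨I1, by rw [hcI1, Matrix.det_one]; exact one_ne_zero⟩, Finset.mem_univ _⟩
    (fun i _ => (x i).ne_zero) (fun i _ j _ => hMd t i j)
  let I0 := (e.symm j).1
  have hdet : ∀ I : Fin r → Fin m × Fin κ0, (Matrix.of fun a => cK (I a)).det /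
      (Matrix.of fun a => cK (I0 a)).det ∈ M.A t := by
    intro I
    by_cases hI : (Matrix.of fun a => cK (I a)).det = 0
    · rw [hI, zero_div]; exact Subalgebra.zero_mem _
    · have h1 := hj (e ⟨I, hI⟩) (Finset.mem_univ _)
      have h2 : (x (e ⟨I, hI⟩) : K) = (Matrix.of fun a => cK (I a)).det := by
        change (Matrix.of fun a => cK ((e.symm (e ⟨I, hI⟩)).1 a)).det = _
        rw [e.symm_apply_apply]
      rw [h2] at h1
      exact h1
  choose e' he' using cramer_mem (M.A t) cK I0 (e.symm j).2 hdet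
  have hu : ∀ q, u q = ∑ b, algebraMap K D (e' q b) * u (I0 b) := by
    intro q
    have h1 : ∀ q, u q = ∑ l, algebraMap K D (cK q l) * f l := by
      intro q
      rw [← hc q]
      exact Finset.sum_congr rfl fun l _ => Algebra.smul_def _ _
    rw [h1 q]
    have h2 : ∀ l, algebraMap K D (cK q l) * f l =
        ∑ b, algebraMap K D (e' q b) * (algebraMap K D (cK (I0 b) l) * f l) := by
      intro l
      rw [he' q l, map_sum, Finset.sum_mul]
      refine Finset.sum_congr rfl fun b _ => ?_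
      rw [map_mul, mul_assoc]
    rw [Finset.sum_congr rfl fun l _ => h2 l, Finset.sum_comm]
    refine Finset.sum_congr rfl fun b _ => ?_
    rw [← Finset.mul_sum, ← h1 (I0 b)]
  have haM : ∀ a : A, algebraMap A K a ∈ M.A t := fun a => M.base t ⟨a, rfl⟩
  let F : Fin r → Fin r → M.A t := fun l s =>
    if h : ((I0 l).2 : ℕ) + 1 < κ0 then e' ((I0 l).1, ⟨_, h⟩) s
    else ∑ q, (⟨_, haM (a (I0 l).1 q)⟩ : M.A t) * e' q s
  have hU : ∀ i, v i = ∑ l, algebraMap K D (e' (i, ⟨0, hκ0⟩) l) * u (I0 l) := by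
    intro i
    rw [← hu]
    change _ = v i ^ p ^ 0
    rw [pow_zero, pow_one]
  have hF : ∀ l, u (I0 l) ^ p = ∑ s, algebraMap K D (F l s) * u (I0 s) := by
    intro l
    have h1 : u (I0 l) ^ p = v (I0 l).1 ^ p ^ (((I0 l).2 : ℕ) + 1) := by
      change (v (I0 l).1 ^ p ^ ((I0 l).2 : ℕ)) ^ p = _
      rw [← pow_mul, ← pow_succ]
    by_cases h : ((I0 l).2 : ℕ) + 1 < κ0
    · have h2 := hu ((I0 l).1, ⟨_, h⟩)
      have h3 : u (I0 l) ^ p = u ((I0 l).1, ⟨_, h⟩) := h1
      rw [h3, h2]
      refine Finset.sum_congr rfl fun s _ => ?_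
      simp only [F, dif_pos h]
    · have h2 : ((I0 l).2 : ℕ) + 1 = κ0 := by
        have := (I0 l).2.2
        omega
      rw [h1, h2, ha (I0 l).1]
      have h3 : ∀ q, algebraMap A D (a (I0 l).1 q) * v q.1 ^ p ^ (q.2 : ℕ) =
          ∑ s, algebraMap K D (algebraMap A K (a (I0 l).1 q) * (e' q s : K)) * u (I0 s) := by
        intro q
        rw [IsScalarTower.algebraMap_apply A K D]
        change _ * u q = _
        rw [hu q, Finset.mul_sum]
        refine Finset.sum_congr rfl fun s _ => ?_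
        rw [map_mul, mul_assoc]
      rw [Finset.sum_congr rfl fun q _ => h3 q, Finset.sum_comm]
      refine Finset.sum_congr rfl fun s _ => ?_
      rw [← Finset.sum_mul, ← map_sum]
      congr 2
      simp only [F, dif_neg h]
      rw [AddSubmonoidClass.coe_finsetSum]
      rfl
  have hspan : Submodule.span K (Set.range fun l => u (I0 l)) =
      Submodule.span K (Set.range u) := by
    apply le_antisymm
    · apply Submodule.span_mono
      rintro _ ⟨l, rfl⟩
      exact ⟨_, rfl⟩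
    · rw [Submodule.span_le]
      rintro _ ⟨q, rfl⟩
      rw [hu q]
      refine Submodule.sum_mem _ fun b _ => ?_
      rw [← Algebra.smul_def]
      exact Submodule.smul_mem _ _ (Submodule.subset_span ⟨b, rfl⟩)
  have hli : LinearIndependent K (fun l => u (I0 l)) := by
    rw [linearIndependent_iff_card_eq_finrank_span, Fintype.card_fin, Set.finrank, hspan, hr]
  have hpbw := indep_prim (K := K) (D := D) (p := p) (fun l => u (I0 l))
    (fun l => huprim (I0 l)) hli
  refine ⟨r, fun l => (I0 l).1, fun l => ((I0 l).2 : ℕ), fun i => e' (i, ⟨0, hκ0⟩), F, hU, hF,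
    fun a ha => ?_⟩
  have h1 := Fintype.linearIndependent_iff.1 hpbw (fun α => (a α : K)) (by
    rw [← ha]
    exact Finset.sum_congr rfl fun α _ => Algebra.smul_def _ _)
  exact fun α => Subtype.ext (h1 α)

end Pool.Agent.Helper819.TR.RD
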