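import Pool.Agent.Helper819.TR.Phi
import Pool.Agent.W558.Model
import Pool.Agent.W558.Var

set_option autoImplicit false
set_option linter.unusedSectionVars false

universe u

open MvPolynomial AlgebraicGeometry CategoryTheory Pool.Agent.H920R2

namespace Pool.Agent.Helper819.TR

open Pool.Agent.W558

section inv

variable (k A K' : Type u) [Field k] [CommRing A] [Algebra k A] [CommRing K'] [Algebra A K']
  {m : ℕ} (p : ℕ) (L : List (K' × (Fin m → K')))

/-- The ring of invariants. -/
def invA : Subalgebra k (MvPolynomial (Fin m) A) where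
  carrier := {f | ∀ d ∈ L, Inv p d (MvPolynomial.map (algebraMap A K') f)}
  mul_mem' := by
    intro f g hf hg d hd
    rw [map_mul]
    exact (invSub p d).mul_mem (hf d hd) (hg d hd)
  add_mem' := by
    intro f g hf hg d hd
    rw [map_add]
    exact (invSub p d).add_mem (hf d hd) (hg d hd)
  algebraMap_mem' := by
    intro a d _
    rw [IsScalarTower.algebraMap_apply k A (MvPolynomial (Fin m) A), MvPolynomial.algebraMap_eq,
      MvPolynomial.map_C]
    exact (invSub p d).algebraMap_mem _

variable {k A K' p L}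

lemma mem_invA {f : MvPolynomial (Fin m) A} :
    f ∈ invA k A K' p L ↔ ∀ d ∈ L, Inv p d (MvPolynomial.map (algebraMap A K') f) := Iff.rfl

lemma C_mem_invA (a : A) : (C a : MvPolynomial (Fin m) A) ∈ invA k A K' p L := by
  intro d _
  rw [MvPolynomial.map_C]
  exact (invSub p d).algebraMap_mem _

end inv

section core

variable {k K K' : Type u} [Field k] [Field K] [Field K'] [Algebra k K] [Algebra K K']
  {m : ℕ} (p : ℕ) [hp : Fact p.Prime] [CharP k p] [CharP K' p] (L : List (K' × (Fin m → K')))

/-- The embedding of the polynomial ring in its field of fractions. -/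
noncomputable def jK (k K : Type u) [Field k] [Field K] [Algebra k K] (m : ℕ) :
    MvPolynomial (Fin m) K →ₐ[k] FractionRing (MvPolynomial (Fin m) K) :=
  IsScalarTower.toAlgHom k (MvPolynomial (Fin m) K) (FractionRing (MvPolynomial (Fin m) K))

lemma jK_injective : Function.Injective (jK k K m) :=
  IsFractionRing.injective (MvPolynomial (Fin m) K) (FractionRing (MvPolynomial (Fin m) K))

/-- The chart. -/
noncomputable def Cs (O : Subalgebra k K) : Subalgebra k (FractionRing (MvPolynomial (Fin m) K)) :=
  ((MvPolynomial.mapAlgHom O.val : MvPolynomial (Fin m) O →ₐ[k] MvPolynomial (Fin m) K).range ⊓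
    invA k K K' p L).map (jK k K m)

lemma mem_range_of_coeff (O : Subalgebra k K) (x : MvPolynomial (Fin m) K)
    (h : ∀ s, coeff s x ∈ O) :
    x ∈ (MvPolynomial.mapAlgHom O.val :
      MvPolynomial (Fin m) O →ₐ[k] MvPolynomial (Fin m) K).range := by
  rw [← MvPolynomial.support_sum_monomial_coeff x]
  refine Subalgebra.sum_mem _ fun s _ => ?_
  refine ⟨monomial s ⟨_, h s⟩, ?_⟩
  change MvPolynomial.map _ (monomial s _) = _
  rw [MvPolynomial.map_monomial]
  rfl

lemma coeff_of_mem_range (O : Subalgebra k K) {x : MvPolynomial (Fin m) K}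
    (h : x ∈ (MvPolynomial.mapAlgHom O.val :
      MvPolynomial (Fin m) O →ₐ[k] MvPolynomial (Fin m) K).range) (s : Fin m →₀ ℕ) :
    coeff s x ∈ O := by
  obtain ⟨y, rfl⟩ := h
  change coeff s (MvPolynomial.map _ y) ∈ O
  rw [MvPolynomial.coeff_map]
  exact (coeff s y).2

lemma mem_Cs {O : Subalgebra k K} {y : FractionRing (MvPolynomial (Fin m) K)} :
    y ∈ Cs (K' := K') p L O ↔ ∃ x : MvPolynomial (Fin m) K, (∀ s, coeff s x ∈ O) ∧
      x ∈ invA k K K' p L ∧ jK k K m x = y := by
  constructor
  · rintro ⟨x, ⟨h1, h2⟩, rfl⟩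
    exact ⟨x, coeff_of_mem_range O h1, h2, rfl⟩
  · rintro ⟨x, h1, h2, rfl⟩
    exact ⟨x, ⟨mem_range_of_coeff O x h1, h2⟩, rfl⟩

lemma C_mem_Cs {O : Subalgebra k K} {c : K} (hc : c ∈ O) :
    jK k K m (C c) ∈ Cs (K' := K') p L O := by
  classical
  rw [mem_Cs]
  refine ⟨C c, fun s => ?_, C_mem_invA c, rfl⟩
  rw [MvPolynomial.coeff_C]
  split_ifs
  · exact hc
  · exact O.zero_mem

/-- The charts are smooth. -/
theorem smooth_Cs (O : Subalgebra k K) [Algebra.Smooth k O] (hO : Gd O p L) :
    Algebra.Smooth k (Cs (K' := K') p L O) := by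
  have : CharP O p := charP_of_injective_algebraMap (algebraMap k O).injective p
  have hinj : Function.Injective (algebraMap O K') :=
    (algebraMap K K').injective.comp Subtype.val_injective
  obtain ⟨φ, h1, h2⟩ := hO.main p hinj
  let ρ : MvPolynomial (Fin m) O →ₐ[k] FractionRing (MvPolynomial (Fin m) K) :=
    (jK k K m).comp ((MvPolynomial.mapAlgHom O.val).comp (φ.restrictScalars k))
  have hmi : Function.Injective (MvPolynomial.mapAlgHom O.val :
      MvPolynomial (Fin m) O →ₐ[k] MvPolynomial (Fin m) K) :=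
    MvPolynomial.map_injective _ Subtype.val_injective
  have hρ : Function.Injective ρ := (jK_injective (k := k) (K := K) (m := m)).comp (hmi.comp h1)
  have hmap : ∀ f : MvPolynomial (Fin m) O, MvPolynomial.map (algebraMap K K')
      (MvPolynomial.mapAlgHom O.val f) = MvPolynomial.map (algebraMap O K') f := by
    intro f
    change MvPolynomial.map _ (MvPolynomial.map _ f) = _
    rw [MvPolynomial.map_map]
    rfl
  have hr : ρ.range = Cs (K' := K') p L O := by
    ext y
    constructor
    · rintro ⟨f, rfl⟩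
      refine ⟨MvPolynomial.mapAlgHom O.val (φ f), ⟨⟨φ f, rfl⟩, ?_⟩, rfl⟩
      intro d hd
      rw [hmap]
      exact (h2 (φ f)).2 ⟨f, rfl⟩ d hd
    · rintro ⟨x, ⟨⟨g, rfl⟩, hx⟩, rfl⟩
      obtain ⟨f, rfl⟩ := (h2 g).1 (by
        intro d hd
        have := hx d hd
        rw [← hmap]
        exact this)
      exact ⟨f, rfl⟩
  rw [← hr]
  have : Algebra.Smooth O (MvPolynomial (Fin m) O) := ⟨inferInstance, inferInstance⟩
  have : Algebra.Smooth k (MvPolynomial (Fin m) O) := Algebra.Smooth.comp k O _
  exact Algebra.Smooth.of_equiv (AlgEquiv.ofInjective ρ hρ)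

variable {A : Type u} [CommRing A] [IsDomain A] [Algebra k A] [Algebra A K] [IsScalarTower k A K]
  [Algebra A K'] [IsScalarTower A K K']

/-- The embedding of the ring of invariants. -/
noncomputable def gA (A : Type u) [CommRing A] [IsDomain A] [Algebra k A] [Algebra A K]
    [IsScalarTower k A K] [Algebra A K'] [IsScalarTower A K K'] :
    invA k A K' p L →ₐ[k] FractionRing (MvPolynomial (Fin m) K) :=
  (jK k K m).comp ((MvPolynomial.mapAlgHom (IsScalarTower.toAlgHom k A K)).comp
    (invA k A K' p L).val)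

lemma map_mem_invA (f : MvPolynomial (Fin m) A) :
    MvPolynomial.map (algebraMap A K) f ∈ invA k K K' p L ↔ f ∈ invA k A K' p L := by
  rw [mem_invA, mem_invA, MvPolynomial.map_map, ← IsScalarTower.algebraMap_eq]

lemma exists_lift (x : MvPolynomial (Fin m) K)
    (h : ∀ s, coeff s x ∈ (IsScalarTower.toAlgHom k A K).range) (hx : x ∈ invA k K K' p L) :
    ∃ a : invA k A K' p L, gA (k := k) (K := K) p L A a = jK k K m x := by
  have h1 : ∃ f : MvPolynomial (Fin m) A, MvPolynomial.map (algebraMap A K) f = x := by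
    choose c hc using h
    refine ⟨∑ s ∈ x.support, monomial s (c s), ?_⟩
    rw [map_sum]
    conv_rhs => rw [← MvPolynomial.support_sum_monomial_coeff x]
    refine Finset.sum_congr rfl fun s _ => ?_
    rw [MvPolynomial.map_monomial]
    congr 1
    exact hc s
  obtain ⟨f, rfl⟩ := h1
  exact ⟨⟨f, (map_mem_invA p L f).1 hx⟩, rfl⟩

/-- The atlas of the quotient. -/
theorem atl {T I : Type} [Finite T]
    (M : LM (IsScalarTower.toAlgHom k A K).range (IsScalarTower.toAlgHom k A K).range T I)
    (hgd : ∀ t, Gd (M.A t) p L)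
    (hX : ∀ i, IsIntegral (invA k A K' p L) (X i : MvPolynomial (Fin m) A)) :
    Atl (gA (k := k) (K := K) p L A) (fun t => Cs (K' := K') p L (M.A t))
      (fun t => jK k K m (C (M.H t))) where
  sm t := by
    have := M.sm t
    exact smooth_Cs p L (M.A t) (hgd t)
  aa t a := by
    refine (mem_Cs p L).2 ⟨MvPolynomial.map (algebraMap A K) a.1, fun s => ?_,
      (map_mem_invA p L a.1).2 a.2, rfl⟩
    rw [MvPolynomial.coeff_map]
    exact M.base t ⟨_, rfl⟩
  H0 t := by
    rw [Ne, map_eq_zero_iff _ (jK_injective (k := k) (K := K) (m := m)), C_eq_zero]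
    exact M.H0 t
  hA t := by
    obtain ⟨b, hb⟩ := exists_lift (k := k) (A := A) (K := K) p L (C (M.H t)) (fun s => by
      classical
      rw [MvPolynomial.coeff_C]
      split_ifs
      · exact M.HR t
      · exact Subalgebra.zero_mem _) (C_mem_invA _)
    exact ⟨b, hb.symm⟩
  rt t t' := by
    have h0 : C (M.H t) ≠ (0 : MvPolynomial (Fin m) K) := by
      rw [Ne, C_eq_zero]; exact M.H0 t
    have h1 : jK k K m (C (M.H t')) / jK k K m (C (M.H t)) =
        jK k K m (C (M.H t' / M.H t)) := by
      rw [div_eq_iff ((map_ne_zero_iff _ (jK_injective (k := k) (K := K) (m := m))).2 h0), ← map_mul, ← C_mul,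
        div_mul_cancel₀ _ (M.H0 t)]
    rw [h1]
    exact C_mem_Cs p L (M.rt t t')
  gl t t' y hy := by
    obtain ⟨x, hx, hx', rfl⟩ := (mem_Cs p L).1 hy
    choose n hn using fun s => M.gl t t' (coeff s x) (hx s)
    have h0 : C (M.H t) ≠ (0 : MvPolynomial (Fin m) K) := by
      rw [Ne, C_eq_zero]; exact M.H0 t
    have h1 : jK k K m (C (M.H t')) / jK k K m (C (M.H t)) =
        jK k K m (C (M.H t' / M.H t)) := by
      rw [div_eq_iff ((map_ne_zero_iff _ (jK_injective (k := k) (K := K) (m := m))).2 h0), ← map_mul, ← C_mul,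
        div_mul_cancel₀ _ (M.H0 t)]
    refine ⟨x.support.sup n, ?_⟩
    rw [h1, ← map_pow, ← map_mul, ← C_pow]
    refine (mem_Cs p L).2 ⟨_, fun s => ?_, ?_, rfl⟩
    · rw [MvPolynomial.coeff_C_mul]
      by_cases hs : s ∈ x.support
      · exact M.gl_mono (Finset.le_sup hs) (hn s)
      · rw [MvPolynomial.notMem_support_iff.1 hs, mul_zero]
        exact Subalgebra.zero_mem _
    · exact (invA k K K' p L).mul_mem (C_mem_invA _) hx'
  dn t y hy := by
    obtain ⟨x, hx, hx', rfl⟩ := (mem_Cs p L).1 hy
    choose n hn using fun s => M.dn t (coeff s x) (hx s)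
    refine ⟨x.support.sup n, ?_⟩
    rw [← map_pow, ← map_mul, ← C_pow]
    obtain ⟨b, hb⟩ := exists_lift (k := k) (A := A) (K := K) p L
        (C (M.H t ^ x.support.sup n) * x) (fun s => by
      rw [MvPolynomial.coeff_C_mul]
      by_cases hs : s ∈ x.support
      · exact M.dn_mono (Finset.le_sup hs) (hn s)
      · rw [MvPolynomial.notMem_support_iff.1 hs, mul_zero]
        exact Subalgebra.zero_mem _) ((invA k K K' p L).mul_mem (C_mem_invA _) hx')
    exact ⟨b, hb.symm⟩
  cv V hV := by
    let VK : ValuationSubring K := V.comap ((jK k K m).toRingHom.comp C)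
    obtain ⟨t, ht⟩ := M.cv VK (by
      rintro _ ⟨a, rfl⟩
      have h1 := hV ⟨C a, C_mem_invA a⟩
      change jK k K m (C (algebraMap A K a)) ∈ V
      have h2 : gA (k := k) (K := K) p L A ⟨C a, C_mem_invA a⟩ = jK k K m (C (algebraMap A K a)) := by
        change jK k K m (MvPolynomial.map _ (C a)) = _
        rw [MvPolynomial.map_C]
        rfl
      rwa [h2] at h1)
    have hXV : ∀ i, jK k K m (X i) ∈ V := by
      intro i
      obtain ⟨P, hP, hP0⟩ := hX i
      let h2 : MvPolynomial (Fin m) A →+* FractionRing (MvPolynomial (Fin m) K) :=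
        (jK k K m).toRingHom.comp (MvPolynomial.map (algebraMap A K))
      let h1 : invA k A K' p L →+* V := (gA (k := k) (K := K) p L A).toRingHom.codRestrict V.toSubring hV
      have hc : (algebraMap V (FractionRing (MvPolynomial (Fin m) K))).comp h1 =
          h2.comp (algebraMap (invA k A K' p L) (MvPolynomial (Fin m) A)) := by
        ext a
        rfl
      have h3 : IsIntegral V (h2 (X i)) := by
        refine ⟨P.map h1, hP.map h1, ?_⟩
        rw [Polynomial.eval₂_map, hc, ← Polynomial.hom_eval₂, hP0, map_zero]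
      have h4 : h2 (X i) = jK k K m (X i) := by
        change jK k K m (MvPolynomial.map _ (X i)) = _
        rw [MvPolynomial.map_X]
      rw [h4] at h3
      obtain ⟨y, hy⟩ := IsIntegrallyClosed.isIntegral_iff.1 h3
      rw [← hy]
      exact y.2
    refine ⟨t, fun y hy => ?_⟩
    obtain ⟨x, hx, hx', rfl⟩ := (mem_Cs p L).1 hy
    rw [← MvPolynomial.support_sum_monomial_coeff x, map_sum]
    refine V.toSubring.sum_mem fun s _ => ?_
    rw [MvPolynomial.monomial_eq, map_mul]
    refine V.toSubring.mul_mem (ht _ (hx s)) ?_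
    rw [Finsupp.prod, map_prod]
    refine V.toSubring.prod_mem fun i _ => ?_
    rw [map_pow]
    exact V.toSubring.pow_mem (hXV i) _

/-- The ring of invariants is of finite type. -/
theorem finiteType_invA [Algebra.FiniteType k A]
    (hX : ∀ i, IsIntegral (invA k A K' p L) (X i : MvPolynomial (Fin m) A)) :
    Algebra.FiniteType k (invA k A K' p L) := by
  have hint : Algebra.IsIntegral (invA k A K' p L) (MvPolynomial (Fin m) A) := by
    refine ⟨fun f => ?_⟩
    induction f using MvPolynomial.induction_on with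
    | C a => exact isIntegral_algebraMap (R := invA k A K' p L) (x := ⟨C a, C_mem_invA a⟩)
    | add f g hf hg => exact hf.add hg
    | mul_X f i hf => exact hf.mul (hX i)
  have hft : Algebra.FiniteType k (MvPolynomial (Fin m) A) := Algebra.FiniteType.trans
    (inferInstance : Algebra.FiniteType k A) inferInstance
  have hft' : Algebra.FiniteType (invA k A K' p L) (MvPolynomial (Fin m) A) :=
    Algebra.FiniteType.of_restrictScalars_finiteType k _ _
  have hfin : Module.Finite (invA k A K' p L) (MvPolynomial (Fin m) A) :=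
    Algebra.IsIntegral.finite
  have h1 := fg_of_fg_of_fg k (invA k A K' p L) (MvPolynomial (Fin m) A) hft.out hfin.1
    Subtype.val_injective
  exact ⟨h1⟩

theorem core [Algebra.FiniteType k A] (hA : Function.Injective (algebraMap A K))
    {T I : Type} [Finite T]
    (M : LM (IsScalarTower.toAlgHom k A K).range (IsScalarTower.toAlgHom k A K).range T I)
    (hRt : Rt K p L) (hint : ∀ d ∈ L, IsIntegral A d.1 ∧ ∀ i, IsIntegral A (d.2 i))
    (hcmp : ∀ t x, Ph K p L x → x ∈ M.A t ∨ x⁻¹ ∈ M.A t)
    (hX : ∀ i, IsIntegral (invA k A K' p L) (X i : MvPolynomial (Fin m) A)) :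
    IsResolvableVariety (X := Spec (CommRingCat.of (invA k A K' p L)))
      (Spec.map (CommRingCat.ofHom (algebraMap k (invA k A K' p L)))) := by
  have := finiteType_invA p L hX
  have hg : Function.Injective (gA (k := k) (K := K) p L A) :=
    (jK_injective (k := k) (K := K) (m := m)).comp
      ((MvPolynomial.map_injective _ hA).comp Subtype.val_injective)
  have hIO : ∀ t (x : K'), IsIntegral A x → IsIntegral (M.A t) x := by
    intro t x hx
    let ι : A →+* M.A t := (algebraMap A K).codRestrict (M.A t).toSubring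
      (fun a => M.base t ⟨a, rfl⟩)
    obtain ⟨P, hP, hP0⟩ := hx
    refine ⟨P.map ι, hP.map ι, ?_⟩
    rw [Polynomial.eval₂_map]
    have h1 : (algebraMap (M.A t) K').comp ι = algebraMap A K' := by
      rw [IsScalarTower.algebraMap_eq A K K']
      rfl
    rw [h1]
    exact hP0
  refine isResolvableVariety_spec (hasResolution_of_atl (gA (k := k) (K := K) p L A) hg
    (atl p L M (fun t => ?_) hX))
  exact gd_of_cmp p (M.A t) hRt (hcmp t) fun d hd =>
    ⟨hIO t _ (hint d hd).1, fun i => hIO t _ ((hint d hd).2 i)⟩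

end core

end Pool.Agent.Helper819.TR
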