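import Pool.Agent.Helper819.TR.Chart
import Pool.Agent.Helper819.TR.CoreG

set_option autoImplicit false
set_option linter.unusedSectionVars false

universe u v

open MvPolynomial AlgebraicGeometry CategoryTheory Pool.Agent.W558 Pool.Agent.H920R2

namespace Pool.Agent.Helper819.TR

section defs

variable (k : Type u) {B : Type u} (G : Type v) [Field k] [CommRing B] [Algebra k B] [Group G]
  [MulSemiringAction G B] [SMulCommClass G k B] {m : ℕ}

/-- The invariants of the group generated by `G` and the translations. -/
noncomputable def invR (Λ : Set (Fin m → B)) : Subalgebra k (MvPolynomial (Fin m) B) where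
  carrier := {f | (∀ g : G, MvPolynomial.map (MulSemiringAction.toRingHom G B g) f = f) ∧
    ∀ v ∈ Λ, tr v f = f}
  mul_mem' := by
    intro f g hf hg
    refine ⟨fun a => ?_, fun v hv => ?_⟩
    · rw [map_mul, hf.1, hg.1]
    · rw [map_mul, hf.2 v hv, hg.2 v hv]
  add_mem' := by
    intro f g hf hg
    refine ⟨fun a => ?_, fun v hv => ?_⟩
    · rw [map_add, hf.1, hg.1]
    · rw [map_add, hf.2 v hv, hg.2 v hv]
  algebraMap_mem' := by
    intro a
    refine ⟨fun g => ?_, fun v _ => ?_⟩
    · change MvPolynomial.map _ (C (algebraMap k B a)) = C (algebraMap k B a)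
      rw [MvPolynomial.map_C]
      congr 1
      exact smul_algebraMap g a
    · change tr v (C (algebraMap k B a)) = C (algebraMap k B a)
      rw [tr_C]

variable {k G} in
lemma mem_invR {Λ : Set (Fin m → B)} {f : MvPolynomial (Fin m) B} :
    f ∈ invR k G Λ ↔ (∀ g : G, MvPolynomial.map (MulSemiringAction.toRingHom G B g) f = f) ∧
      ∀ v ∈ Λ, tr v f = f := Iff.rfl

end defs

section ext

variable {k A B K K' : Type u} [Field k] [CommRing A] [IsDomain A] [CommRing B]
    [IsDomain B] [Field K] [Field K'] [Algebra k A] [Algebra k B] [Algebra k K] [Algebra A K]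
    [IsScalarTower k A K] [IsFractionRing A K] [Algebra A B] [IsScalarTower k A B]
    [Algebra B K'] [IsFractionRing B K']
    [Algebra A K'] [IsScalarTower A B K'] [Algebra K K'] [IsScalarTower A K K']
    (G : Type v) [Group G] [MulSemiringAction G B] [SMulCommClass G k B]
    [SMulCommClass G A B] [Algebra.IsInvariant A B G]

/-- The image of the group of translations in the vector space. -/
def img (K' : Type u) [Field K'] [Algebra B K'] {m : ℕ} (Λ : Set (Fin m → B)) :
    Set (Fin m → K') := (fun v i => algebraMap B K' (v i)) '' Λ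

lemma tr_map {R S : Type u} [CommRing R] [CommRing S] (φ : R →+* S) {m : ℕ} (v : Fin m → R)
    (f : MvPolynomial (Fin m) R) :
    tr (fun i => φ (v i)) (MvPolynomial.map φ f) = MvPolynomial.map φ (tr v f) := by
  induction f using MvPolynomial.induction_on with
  | C a => rw [MvPolynomial.map_C, tr_C, tr_C, MvPolynomial.map_C]
  | add f g hf hg => simp only [map_add, hf, hg]
  | mul_X f i hf =>
    simp only [map_mul, MvPolynomial.map_X, hf, tr_X, map_add, MvPolynomial.map_C]

lemma tr_add {R : Type u} [CommRing R] {m : ℕ} (v w : Fin m → R)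
    (f : MvPolynomial (Fin m) R) : tr v (tr w f) = tr (v + w) f := by
  induction f using MvPolynomial.induction_on with
  | C a => simp only [tr_C]
  | add f g hf hg => simp only [map_add, hf, hg]
  | mul_X f i hf =>
    simp only [map_mul, hf, tr_X, map_add, tr_C, Pi.add_apply]
    ring

/-- `A[x]` consists of the invariants of `G` in `B[x]`. -/
lemma exists_of_inv {m : ℕ} (f : MvPolynomial (Fin m) B)
    (hf : ∀ g : G, MvPolynomial.map (MulSemiringAction.toRingHom G B g) f = f) :
    ∃ f' : MvPolynomial (Fin m) A, MvPolynomial.map (algebraMap A B) f' = f := by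
  have h1 : ∀ s, ∃ a : A, algebraMap A B a = coeff s f := by
    intro s
    refine Algebra.IsInvariant.isInvariant (G := G) (coeff s f) fun g => ?_
    conv_rhs => rw [← hf g, MvPolynomial.coeff_map]
    rfl
  choose a ha using h1
  refine ⟨∑ s ∈ f.support, monomial s (a s), ?_⟩
  rw [map_sum]
  conv_rhs => rw [← MvPolynomial.support_sum_monomial_coeff f]
  refine Finset.sum_congr rfl fun s _ => ?_
  rw [MvPolynomial.map_monomial, ha]

lemma mem_invJ_iff {m : ℕ} (Λ : Set (Fin m → B)) (f : MvPolynomial (Fin m) A) :
    f ∈ TG.invJ k A (invT K (img K' Λ)) ↔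
      ∀ v ∈ Λ, tr v (MvPolynomial.map (algebraMap A B) f) = MvPolynomial.map (algebraMap A B) f := by
  rw [TG.mem_invJ, mem_invT, img, Set.forall_mem_image, MvPolynomial.map_map,
    ← IsScalarTower.algebraMap_eq A K K', IsScalarTower.algebraMap_eq A B K']
  refine forall₂_congr fun v _ => ?_
  rw [← MvPolynomial.map_map, tr_map]
  exact (MvPolynomial.map_injective _ (IsFractionRing.injective B K')).eq_iff

/-- The invariants of `G` and the translations are defined over `A`. -/
noncomputable def eqv (hAB : Function.Injective (algebraMap A B)) {m : ℕ}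
    (Λ : Set (Fin m → B)) : TG.invJ k A (invT K (img K' Λ)) ≃ₐ[k] invR k G Λ :=
  AlgEquiv.ofBijective
    ((((MvPolynomial.mapAlgHom (IsScalarTower.toAlgHom k A B)).comp
      (TG.invJ k A (invT K (img K' Λ))).val)).codRestrict (invR k G Λ) (by
        rintro ⟨f, hf⟩
        refine ⟨fun g => ?_, fun v hv => ?_⟩
        · change MvPolynomial.map _ (MvPolynomial.map _ f) = MvPolynomial.map _ f
          rw [MvPolynomial.map_map]
          refine congrArg (fun φ : A →+* B => MvPolynomial.map φ f) ?_
          exact RingHom.ext fun a => smul_algebraMap (A := B) g a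
        · exact (mem_invJ_iff Λ f).1 hf v hv))
    (by
      constructor
      · rintro ⟨f, hf⟩ ⟨g, hg⟩ h
        apply Subtype.ext
        exact MvPolynomial.map_injective _ hAB (congrArg Subtype.val h)
      · rintro ⟨f, hf⟩
        obtain ⟨f', rfl⟩ := exists_of_inv (A := A) G f hf.1
        exact ⟨⟨f', (mem_invJ_iff Λ f').2 hf.2⟩, rfl⟩)

lemma eqv_coe (hAB : Function.Injective (algebraMap A B)) {m : ℕ}
    (Λ : Set (Fin m → B)) (f : TG.invJ k A (invT K (img K' Λ))) :
    ((eqv G hAB Λ f : invR k G Λ) : MvPolynomial (Fin m) B) =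
      MvPolynomial.map (algebraMap A B) f.1 := rfl

open Classical in
/-- The polynomial with the roots `X i + v i`. -/
lemma exists_monic {m : ℕ} (Λ : AddSubgroup (Fin m → B)) [Finite Λ]
    (hΛ : ∀ g : G, ∀ v ∈ Λ, (fun i => g • v i) ∈ Λ) (i : Fin m) :
    IsIntegral (invR k G (Λ : Set (Fin m → B))) (X i : MvPolynomial (Fin m) B) := by
  have : Fintype Λ := Fintype.ofFinite Λ
  let Q : Polynomial (MvPolynomial (Fin m) B) := ∏ v : Λ, (Polynomial.X - Polynomial.C (X i + C (v.1 i)))
  have hQG : ∀ g : G, Q.map (MvPolynomial.map (MulSemiringAction.toRingHom G B g)) = Q := by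
    intro g
    have hbij : Function.Bijective (fun v : Λ => (⟨fun i => g • v.1 i, hΛ g v.1 v.2⟩ : Λ)) := by
      constructor
      · intro v w h
        apply Subtype.ext
        funext j
        have h1 := congrFun (congrArg Subtype.val h) j
        exact smul_left_cancel g h1
      · intro v
        refine ⟨⟨fun i => g⁻¹ • v.1 i, hΛ g⁻¹ v.1 v.2⟩, ?_⟩
        apply Subtype.ext
        funext j
        exact smul_inv_smul g (v.1 j)
    rw [Polynomial.map_prod]
    refine Fintype.prod_bijective _ hbij _ _ fun v => ?_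
    rw [Polynomial.map_sub, Polynomial.map_X, Polynomial.map_C, map_add, MvPolynomial.map_X,
      MvPolynomial.map_C]
    rfl
  have hQΛ : ∀ w ∈ Λ, Q.map (tr w).toRingHom = Q := by
    intro w hw
    rw [Polynomial.map_prod]
    refine Fintype.prod_bijective (fun v : Λ => v + ⟨w, hw⟩) (Equiv.addRight (⟨w, hw⟩ : Λ)).bijective
      _ _ fun v => ?_
    rw [Polynomial.map_sub, Polynomial.map_X, Polynomial.map_C]
    congr 2
    change tr w (X i + C (v.1 i)) = X i + C (v.1 i + w i)
    rw [map_add, tr_X, tr_C, map_add]
    ring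
  have hmon : Q.Monic := Polynomial.monic_prod_of_monic _ _ fun v _ => Polynomial.monic_X_sub_C _
  have hlift : Q ∈ Polynomial.lifts (algebraMap (invR k G (Λ : Set (Fin m → B)))
      (MvPolynomial (Fin m) B)) := by
    rw [Polynomial.lifts_iff_coeff_lifts]
    intro n
    refine ⟨⟨Q.coeff n, fun g => ?_, fun w hw => ?_⟩, rfl⟩
    · conv_rhs => rw [← hQG g, Polynomial.coeff_map]
    · conv_rhs => rw [← hQΛ w hw, Polynomial.coeff_map]
      rfl
  obtain ⟨P, hP, -, hPm⟩ := Polynomial.lifts_and_natDegree_eq_and_monic hlift hmon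
  refine ⟨P, hPm, ?_⟩
  rw [← Polynomial.eval_map, hP, Polynomial.eval_prod]
  refine Finset.prod_eq_zero (Finset.mem_univ (0 : Λ)) ?_
  simp

variable (A) in
include A in
theorem ext_core [Finite G] [MulSemiringAction G K'] [SMulDistribClass G B K']
    [Algebra.FiniteType k B]
    (p : ℕ) [hp : Fact p.Prime] [CharP K' p]
    (hM : HasMon k K ⊤) (m : ℕ) (Λ : AddSubgroup (Fin m → B)) [Finite Λ]
    (hΛ : ∀ g : G, ∀ v ∈ Λ, (fun i => g • v i) ∈ Λ) :
    IsResolvableVariety (X := Spec (CommRingCat.of (invR k G (Λ : Set (Fin m → B)))))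
      (Spec.map (CommRingCat.ofHom (algebraMap k (invR k G (Λ : Set (Fin m → B)))))) := by
  have hint : Algebra.IsIntegral A B := Algebra.IsInvariant.isIntegral A B G
  have hinv : Algebra.IsInvariant K K' G := IsFractionRing.isInvariant G A B K K'
  have hAB : Function.Injective (algebraMap A B) := by
    have h1 : Function.Injective (algebraMap A K') := by
      rw [IsScalarTower.algebraMap_eq A K K']
      exact (algebraMap K K').injective.comp (IsFractionRing.injective A K)
    rw [IsScalarTower.algebraMap_eq A B K'] at h1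
    exact Function.Injective.of_comp h1
  have hftAB : Algebra.FiniteType A B := Algebra.FiniteType.of_restrictScalars_finiteType k A B
  have hfin : Module.Finite A B := Algebra.IsIntegral.finite
  have hft : Algebra.FiniteType k A :=
    ⟨fg_of_fg_of_fg k A B (inferInstance : Algebra.FiniteType k B).out hfin.1 hAB⟩
  obtain ⟨T, I, i1, M, hM1⟩ := charts (k := k) (A := A) (B := B) (K := K) (K' := K') G
    (fun x hx => hinv.isInvariant x hx) p hM m Λ hΛ
  refine TG.core' (invT K (img K' (Λ : Set (Fin m → B)))) (IsFractionRing.injective A K) M ?_ ?_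
    (invR k G (Λ : Set (Fin m → B))) (eqv G hAB (Λ : Set (Fin m → B))).symm
  · intro t
    obtain ⟨r, ι, κ, U, F, hcard, hU, hF⟩ := hM1 t
    have hinj : Function.Injective (algebraMap (M.A t) K') :=
      (algebraMap K K').injective.comp Subtype.val_injective
    have hchar : CharP (M.A t) p := (RingHom.charP_iff _ hinj p).2 inferInstance
    have hsmO : Algebra.Smooth k (M.A t) := M.sm t
    have hno : IsNoetherianRing (M.A t) := Algebra.FiniteType.isNoetherianRing k (M.A t)
    have hfi : Finite (img K' (Λ : Set (Fin m → B))) :=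
      Finite.of_surjective (fun v : Λ => (⟨_, v.1, v.2, rfl⟩ : img K' (Λ : Set (Fin m → B))))
        (by rintro ⟨_, v, hv, rfl⟩; exact ⟨⟨v, hv⟩, rfl⟩)
    have hc : Nat.card (img K' (Λ : Set (Fin m → B))) = p ^ r := by
      rw [← hcard]
      refine Nat.card_image_of_injective ?_ _
      intro v w h
      funext i
      exact IsFractionRing.injective B K' (congrFun h i)
    have hs := smooth_invT (p := p) (O := M.A t) (K' := K') (U := U) (F := F) (ι := ι) (κ := κ) hinj
      (img K' (Λ : Set (Fin m → B))) hc
      (by rintro _ ⟨v, hv, rfl⟩ i; exact hU v hv i)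
      (by rintro _ ⟨v, hv, rfl⟩ i; exact hF v hv i)
    have hs2 : Algebra.Smooth k (invT (M.A t) (img K' (Λ : Set (Fin m → B)))) :=
      Algebra.Smooth.comp k (M.A t) _
    have heq : TG.invJ k (M.A t) (invT K (img K' (Λ : Set (Fin m → B)))) =
        (invT (M.A t) (img K' (Λ : Set (Fin m → B)))).restrictScalars k := by
      ext f
      rw [TG.mem_invJ, mem_invT, MvPolynomial.map_map]
      rfl
    rw [heq]
    exact hs2
  · intro i
    obtain ⟨P, hP, hP0⟩ := exists_monic (k := k) G Λ hΛ i
    refine ⟨P.map (eqv (A := A) (K := K) (K' := K') G hAB (Λ : Set (Fin m → B))).symm.toRingEquiv.toRingHom,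
      hP.map _, ?_⟩
    apply MvPolynomial.map_injective (algebraMap A B) hAB
    rw [Polynomial.eval₂_map, Polynomial.hom_eval₂, map_zero, MvPolynomial.map_X]
    have h1 : ((MvPolynomial.map (algebraMap A B)).comp ((algebraMap (TG.invJ k A (invT K
        (img K' (Λ : Set (Fin m → B))))) (MvPolynomial (Fin m) A)).comp
        (eqv (A := A) (K := K) (K' := K') G hAB (Λ : Set (Fin m → B))).symm.toRingEquiv.toRingHom)) =
        algebraMap (invR k G (Λ : Set (Fin m → B))) (MvPolynomial (Fin m) B) := by
      ext1 x
      have h2 := congrArg Subtype.val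
        ((eqv (A := A) (K := K) (K' := K') G hAB (Λ : Set (Fin m → B))).apply_symm_apply x)
      exact h2
    rw [h1]
    exact hP0

end ext

end Pool.Agent.Helper819.TR
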