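import Mathlib

set_option autoImplicit false
set_option linter.unusedSectionVars false

universe u v

open MvPolynomial

namespace Pool.Agent.Helper819.TR

section span

variable {R0 R1 : Type*} [CommRing R0] [CommRing R1] (φ : R0 →+* R1) {r p : ℕ}
  (t : Fin r → R1)

/-- Reduced monomials. -/
def red (α : Fin r → Fin p) : R1 := ∏ l, t l ^ (α l : ℕ)

/-- Linear combinations of reduced monomials. -/
def Sp (p : ℕ) (x : R1) : Prop := ∃ c : (Fin r → Fin p) → R0, x = ∑ α, φ (c α) * red t α

variable {φ t}

lemma Sp.add {x y : R1} (hx : Sp φ t p x) (hy : Sp φ t p y) : Sp φ t p (x + y) := by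
  obtain ⟨c, rfl⟩ := hx
  obtain ⟨d, rfl⟩ := hy
  refine ⟨c + d, ?_⟩
  rw [← Finset.sum_add_distrib]
  refine Finset.sum_congr rfl fun α _ => ?_
  rw [Pi.add_apply, map_add, add_mul]

lemma Sp.smul {x : R1} (hx : Sp φ t p x) (b : R0) : Sp φ t p (φ b * x) := by
  obtain ⟨c, rfl⟩ := hx
  refine ⟨fun α => b * c α, ?_⟩
  rw [Finset.mul_sum]
  refine Finset.sum_congr rfl fun α _ => ?_
  rw [map_mul, mul_assoc]

lemma Sp.zero : Sp φ t p (0 : R1) :=
  ⟨0, by simp⟩

lemma Sp.red (α : Fin r → Fin p) : Sp φ t p (red t α) := by
  classical
  refine ⟨fun β => if β = α then 1 else 0, ?_⟩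
  rw [Finset.sum_eq_single α]
  · beta_reduce
    rw [if_pos rfl, map_one, one_mul]
  · intro β _ h
    beta_reduce
    rw [if_neg h, map_zero, zero_mul]
  · intro h
    exact absurd (Finset.mem_univ _) h

lemma Sp.sum {ι : Type*} (s : Finset ι) (f : ι → R1) (h : ∀ i ∈ s, Sp φ t p (f i)) :
    Sp φ t p (∑ i ∈ s, f i) := by
  classical
  induction s using Finset.induction_on with
  | empty => rw [Finset.sum_empty]; exact Sp.zero
  | insert i s hi ih =>
    rw [Finset.sum_insert hi]
    exact (h i (Finset.mem_insert_self _ _)).add
      (ih fun j hj => h j (Finset.mem_insert_of_mem hj))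

theorem sp_monomial (hp : 1 < p) (a : Fin r → R0) (F : Fin r → Fin r → R0)
    (ht : ∀ l, t l ^ p = φ (a l) + ∑ s, φ (F l s) * t s) :
    ∀ (N : ℕ) (β : Fin r → ℕ), ∑ l, β l = N → Sp φ t p (∏ l, t l ^ β l) := by
  classical
  intro N
  induction N using Nat.strong_induction_on with
  | _ N ih =>
    intro β hβ
    by_cases h : ∀ l, β l < p
    · exact Sp.red fun l => ⟨β l, h l⟩
    · push Not at h
      obtain ⟨l, hl⟩ := h
      let β' : Fin r → ℕ := fun s => if s = l then β l - p else β s
      have h1 : ∏ s, t s ^ β s = t l ^ p * ∏ s, t s ^ β' s := by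
        have h2 : ∀ s, t s ^ β s = (if s = l then t l ^ p else 1) * t s ^ β' s := by
          intro s
          by_cases hs : s = l
          · subst hs
            simp only [β', if_true]
            rw [← pow_add]
            congr 1
            omega
          · simp only [β', if_neg hs, one_mul]
        rw [Finset.prod_congr rfl fun s _ => h2 s, Finset.prod_mul_distrib]
        congr 1
        rw [Finset.prod_ite_eq' Finset.univ l (fun _ => t l ^ p), if_pos (Finset.mem_univ l)]
      have hs1 : ∑ s, β s = p + ∑ s, β' s := by
        have h2 : ∀ s, β s = (if s = l then p else 0) + β' s := by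
          intro s
          by_cases hs : s = l
          · subst hs
            simp only [β', if_true]
            omega
          · simp only [β', if_neg hs, zero_add]
        rw [Finset.sum_congr rfl fun s _ => h2 s, Finset.sum_add_distrib]
        congr 1
        rw [Finset.sum_ite_eq' Finset.univ l (fun _ => p), if_pos (Finset.mem_univ l)]
      rw [h1, ht l, add_mul, Finset.sum_mul]
      refine ((ih (∑ s, β' s) (by omega) β' rfl).smul (a l)).add (Sp.sum _ _ fun s _ => ?_)
      rw [mul_assoc]
      refine Sp.smul ?_ _
      have h3 : t s * ∏ q, t q ^ β' q = ∏ q, t q ^ ((fun q => β' q + if q = s then 1 else 0) q) := by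
        have h4 : ∀ q, t q ^ ((fun q => β' q + if q = s then 1 else 0) q) =
            (if q = s then t s else 1) * t q ^ β' q := by
          intro q
          by_cases hq : q = s
          · subst hq
            simp only [if_true]
            rw [pow_succ]; ring
          · simp only [if_neg hq, add_zero, one_mul]
        rw [Finset.prod_congr rfl fun q _ => h4 q, Finset.prod_mul_distrib]
        congr 1
        rw [Finset.prod_ite_eq' Finset.univ s (fun _ => t s), if_pos (Finset.mem_univ s)]
      rw [h3]
      refine ih (∑ q, ((fun q => β' q + if q = s then 1 else 0) q)) ?_ _ rfl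
      have h5 : ∑ q, ((fun q => β' q + if q = s then 1 else 0) q) = ∑ q, β' q + 1 := by
        simp only
        rw [Finset.sum_add_distrib]
        congr 1
        rw [Finset.sum_ite_eq' Finset.univ s (fun _ => 1), if_pos (Finset.mem_univ s)]
      omega

end span

section points

variable {M : Type u} [Field M] {V : Type v} [Fintype V] {r p : ℕ} (w : V → Fin r → M)

/-- All functions on a finite set of points are polynomials. -/
theorem adjoin_eq_top (hw : Function.Injective w) :
    Algebra.adjoin M (Set.range fun (l : Fin r) (v : V) => w v l) = ⊤ := by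
  classical
  rw [eq_top_iff]
  intro f _
  have key : ∀ v0 : V, (Pi.single v0 1 : V → M) ∈
      Algebra.adjoin M (Set.range fun (l : Fin r) (v : V) => w v l) := by
    intro v0
    have h1 : ∀ v, v ≠ v0 → ∃ l, w v l ≠ w v0 l := by
      intro v hv
      by_contra h
      push Not at h
      exact hv (hw (funext h))
    by_cases hne : Nonempty (Fin r)
    swap
    · have h2 : (Pi.single v0 1 : V → M) = 1 := by
        funext v
        have hv : v = v0 := by
          by_contra h
          obtain ⟨l, -⟩ := h1 v h
          exact hne ⟨l⟩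
        rw [hv, Pi.single_eq_same]; rfl
      rw [h2]
      exact Subalgebra.one_mem _
    choose! l hl using h1
    have h2 : (Pi.single v0 1 : V → M) = ∏ v ∈ Finset.univ.erase v0,
        ((w v0 (l v) - w v (l v))⁻¹ • ((fun x => w x (l v)) -
          algebraMap M (V → M) (w v (l v)))) := by
      funext x
      rw [Finset.prod_apply]
      simp only [Pi.smul_apply, Pi.sub_apply, Pi.algebraMap_apply, Algebra.algebraMap_self,
        RingHom.id_apply, smul_eq_mul]
      by_cases hx : x = v0
      · subst hx
        rw [Pi.single_eq_same]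
        symm
        refine Finset.prod_eq_one fun v hv => ?_
        have hv' := Finset.ne_of_mem_erase hv
        exact inv_mul_cancel₀ (sub_ne_zero.2 (hl v hv').symm)
      · rw [Pi.single_eq_of_ne hx]
        symm
        refine Finset.prod_eq_zero (Finset.mem_erase.2 ⟨hx, Finset.mem_univ x⟩) ?_
        rw [sub_self, mul_zero]
    rw [h2]
    refine Subalgebra.prod_mem _ fun v _ => Subalgebra.smul_mem _ (Subalgebra.sub_mem _ ?_ ?_) _
    · exact Algebra.subset_adjoin ⟨l v, rfl⟩
    · exact Subalgebra.algebraMap_mem _ _
  have h3 : f = ∑ v, f v • (Pi.single v 1 : V → M) := by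
    funext x
    rw [Finset.sum_apply, Finset.sum_eq_single x]
    · simp
    · intro v _ hv
      rw [Pi.smul_apply, Pi.single_eq_of_ne hv.symm, smul_zero]
    · intro h; exact absurd (Finset.mem_univ _) h
  rw [h3]
  exact Subalgebra.sum_mem _ fun v _ => Subalgebra.smul_mem _ (key v) _

theorem red_span (hp : 1 < p) (hw : Function.Injective w) (a : Fin r → M)
    (F : Fin r → Fin r → M) (hrel : ∀ v l, w v l ^ p = a l + ∑ s, F l s * w v s) :
    (⊤ : Submodule M (V → M)) ≤ Submodule.span M
      (Set.range fun (α : Fin r → Fin p) => red (fun (l : Fin r) (v : V) => w v l) α) := by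
  classical
  intro f _
  have hf : f ∈ Algebra.adjoin M (Set.range fun (l : Fin r) (v : V) => w v l) := by
    rw [adjoin_eq_top w hw]; trivial
  rw [← Subalgebra.mem_toSubmodule, Algebra.adjoin_eq_span] at hf
  refine Submodule.span_le.2 ?_ hf
  intro x hx
  have h1 : ∃ β : Fin r → ℕ, x = ∏ l, (fun (v : V) => w v l) ^ β l := by
    induction hx using Submonoid.closure_induction with
    | mem x hx =>
      obtain ⟨l, rfl⟩ := hx
      refine ⟨fun s => if s = l then 1 else 0, ?_⟩
      rw [Finset.prod_eq_single l]
      · beta_reduce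
        rw [if_pos rfl, pow_one]
      · intro s _ hs
        beta_reduce
        rw [if_neg hs, pow_zero]
      · intro h; exact absurd (Finset.mem_univ _) h
    | one => exact ⟨0, by simp⟩
    | mul x y _ _ hx hy =>
      obtain ⟨β, rfl⟩ := hx
      obtain ⟨γ, rfl⟩ := hy
      refine ⟨β + γ, ?_⟩
      rw [← Finset.prod_mul_distrib]
      exact Finset.prod_congr rfl fun l _ => by rw [Pi.add_apply, pow_add]
  obtain ⟨β, rfl⟩ := h1
  obtain ⟨c, hc⟩ := sp_monomial (φ := algebraMap M (V → M))
    (t := fun (l : Fin r) (v : V) => w v l) hp a F (by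
      intro l
      funext v
      rw [Pi.pow_apply, hrel, Pi.add_apply, Finset.sum_apply]
      simp) _ β rfl
  rw [hc]
  refine Submodule.sum_mem _ fun α _ => ?_
  rw [← Algebra.smul_def]
  exact Submodule.smul_mem _ _ (Submodule.subset_span ⟨α, rfl⟩)

theorem card_le (hp : 1 < p) (hw : Function.Injective w) (a : Fin r → M)
    (F : Fin r → Fin r → M) (hrel : ∀ v l, w v l ^ p = a l + ∑ s, F l s * w v s) :
    Fintype.card V ≤ p ^ r := by
  classical
  have h1 := red_span w hp hw a F hrel
  have h2 := finrank_le_of_span_eq_top (top_le_iff.1 h1)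
  rw [Module.finrank_pi, Fintype.card_fun, Fintype.card_fin, Fintype.card_fin] at h2
  exact h2

/-- Reduced monomials are linearly independent functions. -/
theorem red_indep (hp : 1 < p) (hw : Function.Injective w) (hV : Fintype.card V = p ^ r)
    (a : Fin r → M)
    (F : Fin r → Fin r → M) (hrel : ∀ v l, w v l ^ p = a l + ∑ s, F l s * w v s) :
    LinearIndependent M
      (fun (α : Fin r → Fin p) => red (fun (l : Fin r) (v : V) => w v l) α) := by
  classical
  refine linearIndependent_of_top_le_span_of_card_eq_finrank (red_span w hp hw a F hrel) ?_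
  rw [Module.finrank_pi, Fintype.card_fun, Fintype.card_fin, Fintype.card_fin, hV]

end points

end Pool.Agent.Helper819.TR
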