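import Pool.Agent.Helper819.TR.Mod
import Pool.Agent.Helper819.TR.Red

set_option autoImplicit false
set_option linter.unusedSectionVars false

universe u v

open Pool.Agent.W558

namespace Pool.Agent.Helper819.TR

section cramer

variable {k K : Type u} [Field k] [Field K] [Algebra k K] {r : ℕ} {Q : Type}

/-- Cramer's rule. -/
theorem cramer_mem (O : Subalgebra k K) (c : Q → Fin r → K) (I0 : Fin r → Q)
    (h0 : (Matrix.of fun a => c (I0 a)).det ≠ 0)
    (h : ∀ I : Fin r → Q, (Matrix.of fun a => c (I a)).det /
      (Matrix.of fun a => c (I0 a)).det ∈ O) (q : Q) :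
    ∃ e : Fin r → O, ∀ l, c q l = ∑ a, (e a : K) * c (I0 a) l := by
  classical
  set N : Matrix (Fin r) (Fin r) K := Matrix.of fun a => c (I0 a) with hN
  have h1 : ∀ a, (N.updateRow a (c q)).det / N.det ∈ O := by
    intro a
    have h2 : N.updateRow a (c q) = Matrix.of fun a' => c (Function.update I0 a q a') := by
      ext a' l
      by_cases ha : a' = a
      · subst ha
        rw [Matrix.updateRow_self]
        simp
      · rw [Matrix.updateRow_ne ha]
        simp [hN, ha]
    rw [h2]
    exact h _
  refine ⟨fun a => ⟨_, h1 a⟩, fun l => ?_⟩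
  have h3 := congrFun (Matrix.mulVec_cramer N.transpose (c q)) l
  rw [Matrix.mulVec, dotProduct, Matrix.det_transpose] at h3
  simp only [Matrix.cramer_transpose_apply, Matrix.transpose_apply, Pi.smul_apply,
    smul_eq_mul] at h3
  have h4 : c q l = (∑ a, N a l * (N.updateRow a (c q)).det) / N.det := by
    rw [h3]; field_simp
  rw [h4, Finset.sum_div]
  refine Finset.sum_congr rfl fun a _ => ?_
  change _ = (N.updateRow a (c q)).det / N.det * N a l
  ring

end cramer

section rel

variable {A B : Type u} [CommRing A] [CommRing B] [Algebra A B] [IsNoetherianRing A]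
  [Module.Finite A B] {V : Type u} [Finite V] {m : ℕ}

/-- A relation between the powers of the coordinates. -/
theorem exists_rel (w : V → Fin m → B) (p : ℕ) : ∃ κ0 : ℕ, 0 < κ0 ∧ ∀ i, ∃ a : Fin m × Fin κ0 → A,
    ∀ v, w v i ^ p ^ κ0 = ∑ q, algebraMap A B (a q) * w v q.1 ^ p ^ (q.2 : ℕ) := by
  have hno : IsNoetherian A (V → B) := isNoetherian_pi
  let N : ℕ →o Submodule A (V → B) :=
    { toFun := fun n => Submodule.span A {f | ∃ i, ∃ j < n, f = fun v => w v i ^ p ^ j}
      monotone' := by
        intro a b hab
        apply Submodule.span_mono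
        rintro f ⟨i, j, hj, rfl⟩
        exact ⟨i, j, by omega, rfl⟩ }
  obtain ⟨n, hn⟩ := monotone_stabilizes_iff_noetherian.2 hno N
  refine ⟨n + 1, Nat.succ_pos _, fun i => ?_⟩
  have h1 : (fun v => w v i ^ p ^ (n + 1)) ∈ N (n + 1) := by
    rw [← hn (n + 1) (by omega), hn (n + 2) (by omega)]
    exact Submodule.subset_span ⟨i, n + 1, by omega, rfl⟩
  have h2 : N (n + 1) ≤ Submodule.span A (Set.range fun (q : Fin m × Fin (n + 1)) (v : V) =>
      w v q.1 ^ p ^ (q.2 : ℕ)) := by
    apply Submodule.span_mono
    rintro f ⟨i, j, hj, rfl⟩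
    exact ⟨(i, ⟨j, hj⟩), rfl⟩
  obtain ⟨a, ha⟩ := (Submodule.mem_span_range_iff_exists_fun A).1 (h2 h1)
  refine ⟨a, fun v => ?_⟩
  have h3 := congrFun ha v
  rw [Finset.sum_apply] at h3
  rw [← h3]
  refine Finset.sum_congr rfl fun q _ => ?_
  rw [Pi.smul_apply, Algebra.smul_def]

end rel

section card

variable {K' : Type u} [Field K'] (p : ℕ) [hp : Fact p.Prime] [CharP K' p] {Λ : Type u}
  [AddCommGroup Λ] [Finite Λ]

theorem card_ge_aux [Module (ZMod p) Λ] [Module (ZMod p) K'] {r : ℕ} (f : Fin r → Λ → K')
    (hadd : ∀ l v v', f l (v + v') = f l v + f l v') (hf : LinearIndependent K' f) :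
    p ^ r ≤ Nat.card Λ := by
  classical
  have hMF : Module.Finite (ZMod p) Λ := inferInstance
  let b := Module.finBasis (ZMod p) Λ
  have h1 : LinearIndependent K' (fun l => fun j => f l (b j)) := by
    rw [Fintype.linearIndependent_iff] at hf ⊢
    intro g hg
    apply hf g
    let φ : Λ →+ K' :=
      { toFun := fun v => ∑ l, g l * f l v
        map_zero' := by
          refine Finset.sum_eq_zero fun l _ => ?_
          have h2 := hadd l 0 0
          rw [add_zero] at h2
          have h3 : f l 0 = 0 := by
            have : f l 0 + 0 = f l 0 + f l 0 := by rw [add_zero]; exact h2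
            exact (add_left_cancel this).symm
          rw [h3, mul_zero]
        map_add' := by
          intro v v'
          rw [← Finset.sum_add_distrib]
          refine Finset.sum_congr rfl fun l _ => ?_
          rw [hadd, mul_add] }
    have h2 : φ.toZModLinearMap p = 0 := by
      apply b.ext
      intro j
      have h3 := congrFun hg j
      rw [Finset.sum_apply] at h3
      exact h3
    funext v
    rw [Finset.sum_apply]
    have h3 := congrArg (fun ψ => ψ v) h2
    exact h3
  have h2 := h1.fintype_card_le_finrank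
  rw [Fintype.card_fin, Module.finrank_pi, Fintype.card_fin] at h2
  have h3 : Nat.card Λ = p ^ Module.finrank (ZMod p) Λ := by
    have : Fintype Λ := Fintype.ofFinite Λ
    rw [Nat.card_eq_fintype_card, Module.card_eq_pow_finrank (K := ZMod p), ZMod.card]
  rw [h3]
  exact Nat.pow_le_pow_right hp.out.pos h2

theorem card_ge (hΛ : ∀ v : Λ, p • v = 0) {r : ℕ} (f : Fin r → Λ → K')
    (hadd : ∀ l v v', f l (v + v') = f l v + f l v') (hf : LinearIndependent K' f) :
    p ^ r ≤ Nat.card Λ :=
  @card_ge_aux K' _ p hp _ Λ _ _ (AddCommGroup.zmodModule hΛ)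
    ((ZMod.castHom (dvd_refl p) K').toModule) r f hadd hf

end card

end Pool.Agent.Helper819.TR
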