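import Mathlib

set_option autoImplicit false
set_option linter.unusedSectionVars false

universe u

open MvPolynomial

namespace Pool.Agent.Helper819.TR

section defs

variable {A : Type u} [CommRing A] {m : ℕ}

/-- The polynomial `f (x + t * u)` in `t`, for a polynomial `f` in the coordinates `x` and a vector
`u`. -/
noncomputable def shift (u : Fin m → A) :
    MvPolynomial (Fin m) A →ₐ[A] Polynomial (MvPolynomial (Fin m) A) :=
  aeval fun j => Polynomial.C (X j) + Polynomial.X * Polynomial.C (C (u j))

/-- The polynomial `t ^ p - a * t`. -/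
noncomputable def ker (p m : ℕ) (a : A) : Polynomial (MvPolynomial (Fin m) A) :=
  Polynomial.X ^ p - Polynomial.C (C a) * Polynomial.X

/-- `f (x + t * u) = f (x)` for `t ^ p = a * t`. -/
def Inv (p : ℕ) (d : A × (Fin m → A)) (f : MvPolynomial (Fin m) A) : Prop :=
  ker p m d.1 ∣ shift d.2 f - Polynomial.C f

lemma shift_X (u : Fin m → A) (j : Fin m) :
    shift u (X j) = Polynomial.C (X j) + Polynomial.X * Polynomial.C (C (u j)) := by
  rw [shift, aeval_X]

lemma shift_C (u : Fin m → A) (a : A) : shift u (C a) = Polynomial.C (C a) := by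
  rw [shift, aeval_C]; rfl

lemma shift_zero (f : MvPolynomial (Fin m) A) : shift (0 : Fin m → A) f = Polynomial.C f := by
  induction f using MvPolynomial.induction_on with
  | C a => rw [shift_C]
  | add f g hf hg => rw [map_add, hf, hg, map_add]
  | mul_X f i hf => rw [map_mul, hf, shift_X, map_mul]; simp

lemma inv_zero (p : ℕ) (a : A) (f : MvPolynomial (Fin m) A) : Inv p (a, 0) f := by
  unfold Inv
  rw [shift_zero, sub_self]
  exact dvd_zero _

/-- The subalgebra of invariants of one group scheme. -/
def invSub (p : ℕ) (d : A × (Fin m → A)) : Subalgebra A (MvPolynomial (Fin m) A) where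
  carrier := {f | Inv p d f}
  mul_mem' := by
    intro f g hf hg
    have e : shift d.2 (f * g) - Polynomial.C (f * g) =
        shift d.2 f * (shift d.2 g - Polynomial.C g) +
          (shift d.2 f - Polynomial.C f) * Polynomial.C g := by
      rw [map_mul, map_mul]; ring
    change ker p m d.1 ∣ _
    rw [e]
    exact dvd_add (Dvd.dvd.mul_left hg _) (Dvd.dvd.mul_right hf _)
  add_mem' := by
    intro f g hf hg
    have e : shift d.2 (f + g) - Polynomial.C (f + g) =
        (shift d.2 f - Polynomial.C f) + (shift d.2 g - Polynomial.C g) := by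
      rw [map_add, map_add]; ring
    change ker p m d.1 ∣ _
    rw [e]
    exact dvd_add hf hg
  algebraMap_mem' := by
    intro a
    change ker p m d.1 ∣ shift d.2 (C a) - Polynomial.C (C a)
    rw [shift_C, sub_self]
    exact dvd_zero _

lemma mem_invSub {p : ℕ} {d : A × (Fin m → A)} {f : MvPolynomial (Fin m) A} :
    f ∈ invSub p d ↔ Inv p d f := Iff.rfl

/-- The coordinates of the quotient by one group scheme. -/
noncomputable def theta (p : ℕ) (c : A) (w : Fin m → A) (j : Fin m) :
    MvPolynomial (Fin m) A →ₐ[A] MvPolynomial (Fin m) A :=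
  aeval fun i => if i = j then X j ^ p - C c * X j else X i - C (w i) * X j

/-- The action of the other group schemes on the quotient. -/
def psi (p : ℕ) (j : Fin m) (c : A) (w : Fin m → A) (d : A × (Fin m → A)) : A × (Fin m → A) :=
  (d.1, fun i => if i = j then d.1 * d.2 j ^ p - c * d.2 j else d.2 i - w i * d.2 j)

lemma theta_C (p : ℕ) (c : A) (w : Fin m → A) (j : Fin m) (b : A) :
    theta p c w j (C b) = C b := by
  rw [theta, aeval_C]; rfl

lemma theta_X_self (p : ℕ) (c : A) (w : Fin m → A) (j : Fin m) :
    theta p c w j (X j) = X j ^ p - C c * X j := by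
  rw [theta, aeval_X, if_pos rfl]

lemma theta_X_ne (p : ℕ) (c : A) (w : Fin m → A) {i j : Fin m} (h : i ≠ j) :
    theta p c w j (X i) = X i - C (w i) * X j := by
  rw [theta, aeval_X, if_neg h]

variable (p : ℕ) [hp : Fact p.Prime] [CharP A p]

lemma comm_theta (c : A) (w : Fin m → A) (j : Fin m) (d : A × (Fin m → A))
    (f : MvPolynomial (Fin m) A) :
    ker p m d.1 ∣ shift d.2 (theta p c w j f) -
      (shift (psi p j c w d).2 f).map (theta p c w j : _ →+* MvPolynomial (Fin m) A) := by
  induction f using MvPolynomial.induction_on with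
  | C b =>
    rw [theta_C, shift_C, shift_C, Polynomial.map_C]
    have : (theta p c w j : MvPolynomial (Fin m) A →+* MvPolynomial (Fin m) A) (C b) = C b :=
      theta_C p c w j b
    rw [this, sub_self]
    exact dvd_zero _
  | add f g hf hg =>
    rw [map_add, map_add, map_add, Polynomial.map_add, add_sub_add_comm]
    exact dvd_add hf hg
  | mul_X f i hf =>
    have key : ker p m d.1 ∣ shift d.2 (theta p c w j (X i)) -
      (shift (psi p j c w d).2 (X i)).map
        (theta p c w j : _ →+* MvPolynomial (Fin m) A) := by
      rw [shift_X, Polynomial.map_add, Polynomial.map_mul, Polynomial.map_C, Polynomial.map_C,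
        Polynomial.map_X]
      have e1 : (theta p c w j : MvPolynomial (Fin m) A →+* MvPolynomial (Fin m) A)
          (C ((psi p j c w d).2 i)) = C ((psi p j c w d).2 i) := theta_C p c w j _
      have e2 : (theta p c w j : MvPolynomial (Fin m) A →+* MvPolynomial (Fin m) A) (X i) =
        theta p c w j (X i) := rfl
      rw [e1, e2]
      by_cases hij : i = j
      · subst hij
        have e3 : (psi p i c w d).2 i = d.1 * d.2 i ^ p - c * d.2 i := if_pos rfl
        rw [e3, theta_X_self, map_sub, map_mul, map_pow, shift_X, shift_C, map_sub, map_mul,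
          map_pow, add_pow_char _ _ p]
        refine ⟨Polynomial.C (C (d.2 i)) ^ p, ?_⟩
        unfold ker
        simp only [map_sub, map_mul, map_pow]
        ring
      · have e3 : (psi p j c w d).2 i = d.2 i - w i * d.2 j := if_neg hij
        rw [e3, theta_X_ne p c w hij, map_sub, map_mul, shift_X, shift_C, shift_X, map_sub,
          map_mul]
        have e4 : Polynomial.C (X i : MvPolynomial (Fin m) A) +
            Polynomial.X * Polynomial.C (C (d.2 i)) -
            Polynomial.C (C (w i)) * (Polynomial.C (X j) + Polynomial.X * Polynomial.C (C (d.2 j)))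
            - (Polynomial.C (X i) - Polynomial.C (C (w i)) * Polynomial.C (X j) +
            Polynomial.X * Polynomial.C (C (d.2 i - w i * d.2 j))) = 0 := by
          simp only [map_sub, map_mul]
          ring
        rw [e4]
        exact dvd_zero _
    have e : shift d.2 (theta p c w j (f * X i)) -
      (shift (psi p j c w d).2 (f * X i)).map
        (theta p c w j : _ →+* MvPolynomial (Fin m) A) =
      shift d.2 (theta p c w j f) * (shift d.2 (theta p c w j (X i)) -
      (shift (psi p j c w d).2 (X i)).map
        (theta p c w j : _ →+* MvPolynomial (Fin m) A)) +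
      (shift d.2 (theta p c w j f) -
      (shift (psi p j c w d).2 f).map
        (theta p c w j : _ →+* MvPolynomial (Fin m) A)) *
      (shift (psi p j c w d).2 (X i)).map
        (theta p c w j : _ →+* MvPolynomial (Fin m) A) := by
      rw [map_mul, map_mul, map_mul, Polynomial.map_mul]
      ring
    rw [e]
    exact dvd_add (Dvd.dvd.mul_left key _) (Dvd.dvd.mul_right hf _)

lemma degree_ker [Nontrivial A] (a : A) : (ker p m a).Monic ∧ (ker p m a).natDegree = p := by
  have hp1 := hp.out.one_lt
  have h1 : (Polynomial.C (C a : MvPolynomial (Fin m) A) * Polynomial.X).degree <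
      ((p : ℕ) : WithBot ℕ) := by
    refine (Polynomial.degree_C_mul_X_le _).trans_lt ?_
    exact_mod_cast hp1
  refine ⟨Polynomial.monic_X_pow_sub h1, ?_⟩
  unfold ker
  rw [Polynomial.natDegree_sub_eq_left_of_natDegree_lt]
  · exact Polynomial.natDegree_X_pow p
  · rw [Polynomial.natDegree_X_pow]
    refine (Polynomial.natDegree_C_mul_le _ _).trans_lt ?_
    exact Polynomial.natDegree_X_le.trans_lt hp1

lemma map_ker (c b : A) (w : Fin m → A) (j : Fin m) :
    (ker p m b).map (theta p c w j : _ →+* MvPolynomial (Fin m) A) = ker p m b := by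
  unfold ker
  rw [Polynomial.map_sub, Polynomial.map_pow, Polynomial.map_mul, Polynomial.map_C,
    Polynomial.map_X]
  have e1 : (theta p c w j : MvPolynomial (Fin m) A →+* MvPolynomial (Fin m) A)
          (C b) = C b := theta_C p c w j _
  rw [e1]

end defs

section dom

variable {A : Type u} [CommRing A] [IsDomain A] {m : ℕ} (p : ℕ) [hp : Fact p.Prime] [CharP A p]

theorem theta_injective (c : A) (w : Fin m → A) (j : Fin m) :
    Function.Injective (theta p c w j) := by
  rw [injective_iff_map_eq_zero]
  intro f hf
  let F := AlgebraicClosure (FractionRing A)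
  have hinj : Function.Injective (algebraMap A F) := by
    rw [IsScalarTower.algebraMap_eq A (FractionRing A) F]
    exact (algebraMap (FractionRing A) F).injective.comp (IsFractionRing.injective A _)
  apply MvPolynomial.map_injective _ hinj
  rw [map_zero]
  apply MvPolynomial.funext
  intro y
  rw [map_zero]
  -- solve for the coordinates
  have hp1 := hp.out.one_lt
  obtain ⟨z, hz⟩ : ∃ z : F, z ^ p - algebraMap A F c * z = y j := by
    let P : Polynomial F := Polynomial.X ^ p - (Polynomial.C (algebraMap A F c) *
      Polynomial.X + Polynomial.C (y j))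
    have hP : P.degree ≠ 0 := by
      have h1 : (Polynomial.C (algebraMap A F c) *
        Polynomial.X + Polynomial.C (y j)).degree < ((p : ℕ) : WithBot ℕ) := by
        refine Polynomial.degree_linear_le.trans_lt ?_
        exact_mod_cast hp1
      have h2 : P.Monic := Polynomial.monic_X_pow_sub h1
      have h3 : P.degree = p := by
        change (Polynomial.X ^ p - _ : Polynomial F).degree = _
        rw [Polynomial.degree_sub_eq_left_of_degree_lt]
        · exact Polynomial.degree_X_pow p
        · rw [Polynomial.degree_X_pow]; exact h1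
      rw [h3]
      have : p ≠ 0 := by omega
      exact_mod_cast this
    obtain ⟨z, hz⟩ := IsAlgClosed.exists_root P hP
    refine ⟨z, ?_⟩
    have h1 : P.eval z = 0 := hz
    simp only [P, Polynomial.eval_sub, Polynomial.eval_pow, Polynomial.eval_X,
      Polynomial.eval_add, Polynomial.eval_mul, Polynomial.eval_C] at h1
    linear_combination h1
  let x : Fin m → F := fun i => if i = j then z else y i + algebraMap A F (w i) * z
  have hx : aeval x (theta p c w j f) = aeval y f := by
    have h1 : ((aeval x).comp (theta p c w j) : MvPolynomial (Fin m) A →ₐ[A] F) = aeval y := by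
      apply algHom_ext
      intro i
      rw [AlgHom.comp_apply, aeval_X]
      have hxj : x j = z := if_pos rfl
      by_cases hij : i = j
      · subst hij
        rw [theta_X_self, map_sub, map_mul, map_pow, aeval_X, aeval_C, hxj]
        exact hz
      · have hxi : x i = y i + algebraMap A F (w i) * z := if_neg hij
        rw [theta_X_ne p c w hij, map_sub, map_mul, aeval_X, aeval_X, aeval_C, hxj, hxi]
        ring
    rw [← h1]; rfl
  rw [hf, map_zero] at hx
  rw [MvPolynomial.eval_map, ← aeval_def, ← hx]

theorem inv_theta (c : A) (w : Fin m → A) (j : Fin m) (d : A × (Fin m → A))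
    (f : MvPolynomial (Fin m) A) :
    Inv p d (theta p c w j f) ↔ Inv p (psi p j c w d) f := by
  unfold Inv
  have h1 := comm_theta p c w j d f
  have h2 : (Polynomial.C (theta p c w j f)) = (Polynomial.C f).map
      (theta p c w j : _ →+* MvPolynomial (Fin m) A) := by
    rw [Polynomial.map_C]; rfl
  have h3 : shift d.2 (theta p c w j f) - Polynomial.C (theta p c w j f) =
      (shift d.2 (theta p c w j f) - (shift (psi p j c w d).2 f).map
        (theta p c w j : _ →+* MvPolynomial (Fin m) A)) +
      (shift (psi p j c w d).2 f - Polynomial.C f).map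
        (theta p c w j : _ →+* MvPolynomial (Fin m) A) := by
    rw [Polynomial.map_sub, ← h2]; ring
  rw [h3, dvd_add_right h1]
  have h4 : ker p m d.1 = (ker p m d.1).map
      (theta p c w j : _ →+* MvPolynomial (Fin m) A) := (map_ker p c d.1 w j).symm
  conv_lhs => rw [h4]
  exact Polynomial.map_dvd_map _ (theta_injective p c w j) (degree_ker p d.1).1

lemma psi_self (p : ℕ) (hp : p.Prime) (a c : A) (u w : Fin m → A) (j : Fin m)
    (hw : ∀ i, u i = w i * u j) (hc : a * u j ^ (p - 1) = c) : psi p j c w (a, u) = (a, 0) := by
  have hp1 := hp.one_lt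
  unfold psi
  congr 1
  funext i
  split_ifs with h
  · have h3 : u j ^ p = u j ^ (p - 1) * u j := by
      rw [← pow_succ]; congr 1; omega
    simp only [Pi.zero_apply]
    rw [h3, ← hc]; ring
  · simp only [Pi.zero_apply]
    rw [← hw i, sub_self]

/-- The quotient by one group scheme is an affine space. -/
theorem inv_iff_theta (a c : A) (u w : Fin m → A) (j : Fin m) (hj : u j ≠ 0)
    (hw : ∀ i, u i = w i * u j) (hcc : a * u j ^ (p - 1) = c) (f : MvPolynomial (Fin m) A) :
    Inv p (a, u) f ↔ ∃ g, theta p c w j g = f := by
  have hp1 := hp.out.one_lt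
  constructor
  · intro hf
    set uj : MvPolynomial (Fin m) A := C (u j) with huj
    have hc0 : uj ≠ 0 := by
      rw [huj]
      exact (map_ne_zero_iff _ (MvPolynomial.C_injective (Fin m) A)).2 hj
    -- every polynomial is a polynomial in `X j` over the image
    let θ : MvPolynomial (Fin m) A →+* MvPolynomial (Fin m) A := (theta p c w j : _ →+* _)
    let Φ : Polynomial (MvPolynomial (Fin m) A) →+* MvPolynomial (Fin m) A :=
      Polynomial.eval₂RingHom θ (X j)
    have hΦC : ∀ g, Φ (Polynomial.C g) = theta p c w j g := fun g =>
      Polynomial.eval₂_C _ _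
    have hΦX : Φ Polynomial.X = X j := Polynomial.eval₂_X _ _
    have hsurj : ∀ f, ∃ G, Φ G = f := by
      intro f
      induction f using MvPolynomial.induction_on with
      | C b => exact ⟨Polynomial.C (C b), by rw [hΦC, theta_C]⟩
      | add f g hf hg =>
        obtain ⟨F, hF⟩ := hf
        obtain ⟨G, hG⟩ := hg
        exact ⟨F + G, by rw [map_add, hF, hG]⟩
      | mul_X f i hf =>
        obtain ⟨F, hF⟩ := hf
        by_cases hij : i = j
        · subst hij
          exact ⟨F * Polynomial.X, by rw [map_mul, hF, hΦX]⟩
        · refine ⟨F * (Polynomial.C (X i) + Polynomial.C (C (w i)) * Polynomial.X), ?_⟩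
          rw [map_mul, hF, map_add, map_mul, hΦC, hΦC, hΦX, theta_X_ne p c w hij, theta_C]
          ring
    obtain ⟨G0, hG0⟩ := hsurj f
    let Q : Polynomial (MvPolynomial (Fin m) A) := Polynomial.X ^ p -
      (Polynomial.C (C c) * Polynomial.X + Polynomial.C (X j))
    have hQd : (Polynomial.C (C c : MvPolynomial (Fin m) A) * Polynomial.X +
        Polynomial.C (X j)).degree < ((p : ℕ) : WithBot ℕ) := by
      refine Polynomial.degree_linear_le.trans_lt ?_
      exact_mod_cast hp1
    have hQm : Q.Monic := Polynomial.monic_X_pow_sub hQd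
    have hQn : Q.natDegree = p := by
      apply Polynomial.natDegree_eq_of_degree_eq_some
      change (Polynomial.X ^ p - _ : Polynomial (MvPolynomial (Fin m) A)).degree = _
      rw [Polynomial.degree_sub_eq_left_of_degree_lt]
      · exact Polynomial.degree_X_pow p
      · rw [Polynomial.degree_X_pow]; exact hQd
    have hQ0 : Φ Q = 0 := by
      change Φ (_ - (_ * _ + _)) = 0
      rw [map_sub, map_add, map_mul, map_pow, hΦX, hΦC, hΦC, theta_C, theta_X_self]
      ring
    set G := G0 %ₘ Q with hG
    have hGf : Φ G = f := by
      have h1 := congrArg Φ (Polynomial.modByMonic_add_div G0 Q)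
      rw [map_add, map_mul, hQ0, zero_mul, add_zero, hG0] at h1
      exact h1
    have hGd : G.natDegree < p := by
      rw [← hQn]
      refine Polynomial.natDegree_modByMonic_lt _ hQm ?_
      intro h
      rw [h, Polynomial.natDegree_one] at hQn
      omega
    -- the polynomial with the coefficients in the image
    let G1 : Polynomial (MvPolynomial (Fin m) A) := G.map θ
    have hG1d : G1.natDegree < p := (Polynomial.natDegree_map_le).trans_lt hGd
    let l : Polynomial (MvPolynomial (Fin m) A) := Polynomial.C uj * Polynomial.X +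
      Polynomial.C (X j)
    have hl : l.natDegree = 1 := Polynomial.natDegree_linear hc0
    have hsh : ∀ g, ker p m a ∣ shift u (theta p c w j g) -
        Polynomial.C (theta p c w j g) := by
      intro g
      have h1 := (inv_theta p c w j (a, u) g).2 ?_
      · exact h1
      · rw [psi_self p hp.out a c u w j hw hcc]
        exact inv_zero p a g
    have hdiv : ∀ G : Polynomial (MvPolynomial (Fin m) A),
        ker p m a ∣ shift u (Φ G) - (G.map θ).comp l := by
      intro G
      induction G using Polynomial.induction_on' with
      | add F G hF hG =>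
        rw [map_add, map_add, Polynomial.map_add, Polynomial.add_comp, add_sub_add_comm]
        exact dvd_add hF hG
      | monomial n b =>
        rw [← Polynomial.C_mul_X_pow_eq_monomial]
        rw [map_mul, map_mul, map_pow, map_pow, hΦC, hΦX, Polynomial.map_mul, Polynomial.map_pow,
          Polynomial.map_C, Polynomial.map_X, Polynomial.mul_comp, Polynomial.pow_comp,
          Polynomial.C_comp, Polynomial.X_comp, shift_X]
        have h1 : Polynomial.C (X j) + Polynomial.X * Polynomial.C (C (u j)) = l := by
          change _ = Polynomial.C uj * Polynomial.X + Polynomial.C (X j)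
          rw [huj]; ring
        rw [h1, ← sub_mul]
        exact Dvd.dvd.mul_right (hsh b) _
    have h1 : ker p m a ∣ G1.comp l - Polynomial.C f := by
      have h2 := hdiv G
      rw [hGf] at h2
      have h3 := dvd_sub hf h2
      have h4 : shift (a, u).2 f - Polynomial.C f - (shift u f - (G.map θ).comp l) =
        G1.comp l - Polynomial.C f := by
        change shift u f - Polynomial.C f - (shift u f - (G.map θ).comp l) =
          (G.map θ).comp l - Polynomial.C f
        ring
      rw [h4] at h3
      exact h3
    have h2 : G1.comp l - Polynomial.C f = 0 := by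
      by_contra hne
      have h3 := Polynomial.natDegree_le_of_dvd h1 hne
      rw [(degree_ker p a).2] at h3
      have h4 : (G1.comp l - Polynomial.C f).natDegree ≤ G1.natDegree := by
        refine (Polynomial.natDegree_sub_le _ _).trans ?_
        rw [Polynomial.natDegree_comp, hl, mul_one, Polynomial.natDegree_C]
        simp
      omega
    have h3 : G1.natDegree = 0 := by
      have h4 := congrArg Polynomial.natDegree (sub_eq_zero.1 h2)
      rw [Polynomial.natDegree_comp, hl, mul_one, Polynomial.natDegree_C] at h4
      exact h4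
    have h4 : G1 = Polynomial.C (G1.coeff 0) := Polynomial.eq_C_of_natDegree_eq_zero h3
    refine ⟨G.coeff 0, ?_⟩
    have h5 := sub_eq_zero.1 h2
    rw [h4, Polynomial.C_comp] at h5
    have h6 := Polynomial.C_injective h5
    rw [← h6]
    change θ (G.coeff 0) = (G.map θ).coeff 0
    rw [Polynomial.coeff_map]
  · rintro ⟨g, rfl⟩
    refine (inv_theta p c w j (a, u) g).2 ?_
    rw [psi_self p hp.out a c u w j hw hcc]
    exact inv_zero p a g

end dom

section func

/-- The image of the data under a map. -/
def mp {A B : Type u} {m : ℕ} (f : A → B) (d : A × (Fin m → A)) : B × (Fin m → B) :=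
  (f d.1, fun i => f (d.2 i))

variable {A B : Type u} [CommRing A] [CommRing B] {m : ℕ} (f : A →+* B)

lemma map_shift (u : Fin m → A) (x : MvPolynomial (Fin m) A) :
    (shift u x).map (MvPolynomial.map f) = shift (fun i => f (u i)) (MvPolynomial.map f x) := by
  induction x using MvPolynomial.induction_on with
  | C a => rw [shift_C, Polynomial.map_C, MvPolynomial.map_C, shift_C]
  | add x y hx hy => rw [map_add, Polynomial.map_add, hx, hy, map_add, map_add]
  | mul_X x i hx =>
    rw [map_mul, Polynomial.map_mul, hx, map_mul, map_mul, shift_X, MvPolynomial.map_X, shift_X,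
      Polynomial.map_add, Polynomial.map_mul, Polynomial.map_C, Polynomial.map_C, Polynomial.map_X,
      MvPolynomial.map_X, MvPolynomial.map_C]

lemma ker_map (p : ℕ) (a : A) :
    (ker p m a).map (MvPolynomial.map f) = ker p m (f a) := by
  unfold ker
  rw [Polynomial.map_sub, Polynomial.map_pow, Polynomial.map_mul, Polynomial.map_C,
    Polynomial.map_X, MvPolynomial.map_C]

lemma inv_map (p : ℕ) [Fact p.Prime] [CharP A p] [Nontrivial A] (hf : Function.Injective f)
    (d : A × (Fin m → A)) (x : MvPolynomial (Fin m) A) :
    Inv p (mp f d) (MvPolynomial.map f x) ↔ Inv p d x := by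
  unfold Inv mp
  have h1 : shift (fun i => f (d.2 i)) (MvPolynomial.map f x) -
      Polynomial.C (MvPolynomial.map f x) =
      (shift d.2 x - Polynomial.C x).map (MvPolynomial.map f) := by
    rw [Polynomial.map_sub, map_shift, Polynomial.map_C]
  dsimp only
  rw [h1, ← ker_map]
  exact Polynomial.map_dvd_map _ (MvPolynomial.map_injective f hf) (degree_ker p d.1).1

lemma map_theta (p : ℕ) (c : A) (w : Fin m → A) (j : Fin m) (x : MvPolynomial (Fin m) A) :
    MvPolynomial.map f (theta p c w j x) =
      theta p (f c) (fun i => f (w i)) j (MvPolynomial.map f x) := by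
  induction x using MvPolynomial.induction_on with
  | C a => rw [theta_C, MvPolynomial.map_C, theta_C]
  | add x y hx hy => rw [map_add, map_add, hx, hy, map_add, map_add]
  | mul_X x i hx =>
    rw [map_mul, map_mul, hx, map_mul, map_mul, MvPolynomial.map_X]
    by_cases hij : i = j
    · subst hij
      rw [theta_X_self, theta_X_self, map_sub, map_mul, map_pow, MvPolynomial.map_X,
        MvPolynomial.map_C]
    · rw [theta_X_ne _ _ _ hij, theta_X_ne _ _ _ hij, map_sub, map_mul, MvPolynomial.map_X,
        MvPolynomial.map_C, MvPolynomial.map_X]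

end func

section ext

variable {O R : Type u} [CommRing O] [IsDomain O] [CommRing R] [IsDomain R] [Algebra O R]
  {m : ℕ} (p : ℕ) [hp : Fact p.Prime] [CharP O p] [CharP R p]

/-- The quotients by the group schemes (which are given over the extension `R`) are successively
affine spaces over `O`. -/
inductive Gd (O : Type u) {R : Type u} [CommRing O] [CommRing R] [Algebra O R] {m : ℕ} (p : ℕ) :
    List (R × (Fin m → R)) → Prop
  | nil : Gd O p []
  | zero (a : R) (L : List (R × (Fin m → R))) : Gd O p L → Gd O p ((a, 0) :: L)
  | cons (a : R) (u : Fin m → R) (L : List (R × (Fin m → R))) (j : Fin m) (c : O)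
      (w : Fin m → O) : u j ≠ 0 → (∀ i, u i = algebraMap O R (w i) * u j) →
      a * u j ^ (p - 1) = algebraMap O R c →
      Gd O p (L.map (psi p j (algebraMap O R c) fun i => algebraMap O R (w i))) →
      Gd O p ((a, u) :: L)

theorem inv_iff_theta_ext (hinj : Function.Injective (algebraMap O R)) (a : R) (c : O)
    (u : Fin m → R) (w : Fin m → O) (j : Fin m) (hj : u j ≠ 0)
    (hw : ∀ i, u i = algebraMap O R (w i) * u j) (hc : a * u j ^ (p - 1) = algebraMap O R c)
    (f : MvPolynomial (Fin m) O) :
    Inv p (a, u) (MvPolynomial.map (algebraMap O R) f) ↔ ∃ g, theta p c w j g = f := by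
  have hwj : w j = 1 := by
    apply hinj
    have h1 := hw j
    rw [map_one]
    exact (mul_right_cancel₀ hj (by rw [one_mul]; exact h1)).symm
  have key : Inv p (a, u) (MvPolynomial.map (algebraMap O R) f) ↔ Inv p (c, w) f := by
    rw [← inv_map (algebraMap O R) p hinj, inv_iff_theta p a _ u _ j hj hw hc,
      ← inv_iff_theta p (algebraMap O R c) (algebraMap O R c) (fun i => algebraMap O R (w i))
        (fun i => algebraMap O R (w i)) j]
    · rfl
    · rw [hwj, map_one]; exact one_ne_zero
    · intro i; rw [hwj, map_one, mul_one]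
    · rw [hwj, map_one, one_pow, mul_one]
  rw [key]
  refine inv_iff_theta p c c w w j ?_ ?_ ?_ f
  · rw [hwj]; exact one_ne_zero
  · intro i; rw [hwj, mul_one]
  · rw [hwj, one_pow, mul_one]

theorem inv_theta_ext (c : O) (w : Fin m → O) (j : Fin m) (d : R × (Fin m → R))
    (f : MvPolynomial (Fin m) O) :
    Inv p d (MvPolynomial.map (algebraMap O R) (theta p c w j f)) ↔
      Inv p (psi p j (algebraMap O R c) (fun i => algebraMap O R (w i)) d)
        (MvPolynomial.map (algebraMap O R) f) := by
  rw [map_theta, inv_theta]

/-- The quotient is an affine space. -/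
theorem Gd.main (hinj : Function.Injective (algebraMap O R)) {L : List (R × (Fin m → R))}
    (h : Gd O p L) :
    ∃ φ : MvPolynomial (Fin m) O →ₐ[O] MvPolynomial (Fin m) O, Function.Injective φ ∧
      ∀ f, (∀ d ∈ L, Inv p d (MvPolynomial.map (algebraMap O R) f)) ↔ ∃ g, φ g = f := by
  induction h with
  | nil => exact ⟨AlgHom.id O _, fun _ _ h => h, fun f => ⟨fun _ => ⟨f, rfl⟩, fun _ d hd => by
      simp at hd⟩⟩
  | zero a L _ ih =>
    obtain ⟨φ, h1, h2⟩ := ih
    refine ⟨φ, h1, fun f => ?_⟩
    rw [← h2]
    constructor
    · intro h d hd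
      exact h d (List.mem_cons_of_mem _ hd)
    · intro h d hd
      rcases List.mem_cons.1 hd with rfl | hd
      · exact inv_zero p a _
      · exact h d hd
  | cons a u L j c w hj hw hc _ ih =>
    obtain ⟨φ, h1, h2⟩ := ih
    refine ⟨(theta p c w j).comp φ, (theta_injective p c w j).comp h1, fun f => ?_⟩
    constructor
    · intro h
      obtain ⟨g, rfl⟩ := (inv_iff_theta_ext p hinj a c u w j hj hw hc f).1
        (h _ List.mem_cons_self)
      obtain ⟨g', hg'⟩ := (h2 g).1 (by
        intro d hd
        obtain ⟨d', hd', rfl⟩ := List.mem_map.1 hd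
        exact (inv_theta_ext p c w j d' g).1 (h _ (List.mem_cons_of_mem _ hd')))
      exact ⟨g', by rw [AlgHom.comp_apply, hg']⟩
    · rintro ⟨g, rfl⟩ d hd
      rw [AlgHom.comp_apply]
      rcases List.mem_cons.1 hd with rfl | hd
      · exact (inv_iff_theta_ext p hinj a c u w j hj hw hc _).2 ⟨_, rfl⟩
      · exact (inv_theta_ext p c w j d _).2
          ((h2 _).2 ⟨g, rfl⟩ _ (List.mem_map.2 ⟨d, hd, rfl⟩))

end ext

end Pool.Agent.Helper819.TR
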