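import Pool.Agent.W558.T3.PLF
import Pool.Agent.Helper819.TR.Core

set_option autoImplicit false
set_option linter.unusedVariables false
set_option linter.unusedSimpArgs false
set_option linter.unusedSectionVars false

universe u

open AlgebraicGeometry CategoryTheory Pool.Agent.W558

namespace Pool.Agent.Helper819.TR

/-- Models on which finitely many given elements of the group are monomials. -/
def HasMon (k K : Type u) [Field k] [Field K] [Algebra k K] (G : Subgroup Kˣ) : Prop :=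
  ∀ (N : ℕ) (x : Fin N → Kˣ), (∀ i, x i ∈ G) → ∃ (T I : Type) (_ : Finite T) (_ : Fintype I)
    (M : LM (⊥ : Subalgebra k K) ⊤ T I) (Γ : Fin N → I → ℤ), Fn M (fun i => (x i : K)) Γ

theorem hasMon_plf (p : ℕ) [Fact p.Prime] (k E K : Type u) [Field k] [PerfectField k] [CharP k p]
    [Field E] [Algebra k E] (hE : (Algebra.trdeg k E = 2 ∧ HasModel k E) ∨ HasLogModels k E)
    [Field K] [Algebra E K] [Algebra k K] [IsScalarTower k E K]
    (n : ℕ) (V : Fin n → Submodule E K) [∀ s, FiniteDimensional E (V s)]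
    (hgen : IntermediateField.adjoin E (⋃ s, (V s : Set K)) = ⊤)
    (r : ℕ) (ι : Fin r → Type) [∀ j, Fintype (ι j)] (i₀ : ∀ j, ι j)
    (c : ∀ j, ι j → E) (hc : ∀ j i, c j i ≠ 0) (d : ∀ j, ι j → Fin n → ℕ)
    (g : ∀ j i s, Fin (d j i s) → K) (hgV : ∀ j i s t, g j i s t ∈ V s)
    (hg0 : ∀ j i s t, g j i s t ≠ 0) (e : ∀ j, ι j → Fin r → ℕ) (f : Fin r → K)
    (he : ∀ j i l, e j i l ≠ 0 → l < j ∧ f l ≠ 0)
    (hf : ∀ j, f j = ∑ i, algebraMap E K (c j i) * ((∏ s, ∏ t, g j i s t) * ∏ l, f l ^ e j i l))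
    (deg : Fin r → Fin n → ZMod p)
    (hdeg : ∀ j, deg j = Pool.Agent.W418.LCI.dg deg (d j (i₀ j)) (e j (i₀ j)))
    (hind : LinearIndependent (ZMod p) fun q : (j : Fin r) × {i : ι j // i ≠ i₀ j} =>
      Pool.Agent.W418.LCI.dg deg (d q.1 q.2) (e q.1 q.2) - deg q.1)
    (htr : Algebra.trdeg E K + (Nat.card {j // f j = 0} : Cardinal.{u}) =
      ((∑ s, Module.finrank E (V s) : ℕ) : Cardinal.{u})) :
    HasMon k K (Subgroup.closure {x : Kˣ | (∃ b, algebraMap E K b = x) ∨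
      (∃ s, (x : K) ∈ V s) ∨ ∃ l, f l = x}) := by
  intro NN xx hxx
  classical
  let S : Finset Kˣ := Finset.univ.image xx
  have hS : ∀ x ∈ S, x ∈ Subgroup.closure {x : Kˣ | (∃ b, algebraMap E K b = x) ∨
      (∃ s, (x : K) ∈ V s) ∨ ∃ l, f l = x} := by
    intro x hx
    obtain ⟨i, -, rfl⟩ := Finset.mem_image.1 hx
    exact hxx i
  have hE' : Pool.Agent.W418.LCI.HasLM k E := by
    rcases hE with ⟨h2, hE⟩ | hE
    · exact Pool.Agent.W418.LCI.hasLM_of_surface k E h2 hE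
    · exact Pool.Agent.W418.LCI.hasLM_of_models k E hE
  obtain ⟨T, hT, hST⟩ := exists_finset_closure' _ S hS
  -- index sets in `Type`
  let N := T.card
  let tt : Fin N → Kˣ := fun i => (T.equivFin.symm i).1
  have htt : ∀ i, tt i ∈ T := fun i => (T.equivFin.symm i).2
  have htt' : ∀ x ∈ T, ∃ i, tt i = x := fun x hx =>
    ⟨T.equivFin ⟨x, hx⟩, by
      change (T.equivFin.symm (T.equivFin ⟨x, hx⟩)).1 = x
      rw [Equiv.symm_apply_apply]⟩
  let H' : Type := {i : Fin N // ∃ b, algebraMap E K b = tt i}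
  let h' : H' → E := fun i => i.2.choose
  have hh' : ∀ i, algebraMap E K (h' i) = tt i.1 := fun i => i.2.choose_spec
  have hh0 : ∀ i, h' i ≠ 0 := by
    intro i h
    have h1 := hh' i
    rw [h, map_zero] at h1
    exact (tt i.1).ne_zero h1.symm
  let Λ' : Type := {i : Fin N // ∃ s, (tt i : K) ∈ V s}
  let u : Λ' → K := fun i => tt i.1
  let ub : Λ' → Fin n := fun i => i.2.choose
  have hu : ∀ q, u q ∈ V (ub q) := fun q => q.2.choose_spec
  have hu0 : ∀ q, u q ≠ 0 := fun q => (tt q.1).ne_zero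
  obtain ⟨Q, Ds, hst, hQ⟩ := Pool.Agent.W418.LCI.exists_sta' p k E K hE' n V hgen r ι i₀ c hc d g
    hgV hg0 e f he hf deg hdeg hind htr H' h' hh0 Λ' u ub hu hu0
  let G : Type := H' ⊕ (Λ' ⊕ Fin r)
  let gg : G → K := Sum.elim (fun b => algebraMap E K (h' b)) (Sum.elim u
        (fun l => open Classical in if f l = 0 then 1 else f l))
  have hgg : ∀ a, gg a ≠ 0 := by
    rintro (i | i | l)
    · exact (map_ne_zero _).2 (hh0 i)
    · exact hu0 i
    · change (if f l = 0 then 1 else f l) ≠ 0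
      by_cases h : f l = 0
      · rw [if_pos h]; exact one_ne_zero
      · rw [if_neg h]; exact h
  let gu : G → Kˣ := fun a => Units.mk0 (gg a) (hgg a)
  have hTg : (T : Set Kˣ) ⊆ Set.range gu := by
    intro x hx
    obtain ⟨i, rfl⟩ := htt' x hx
    rcases hT hx with h | h | ⟨l, hl⟩
    · refine ⟨Sum.inl ⟨i, h⟩, Units.ext ?_⟩
      exact hh' ⟨i, h⟩
    · refine ⟨Sum.inr (Sum.inl ⟨i, h⟩), Units.ext rfl⟩
    · refine ⟨Sum.inr (Sum.inr l), Units.ext ?_⟩
      change (if f l = 0 then 1 else f l) = _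
      have hl0 : f l ≠ 0 := by rw [hl]; exact (tt i).ne_zero
      rw [if_neg hl0, hl]
  obtain ⟨-, -, -, T', I', i1, i2, i3, M, Γ, B, b, hFn, -, -⟩ := hst
  have hSe : ∀ b : Fin NN, ∃ a : G → ℤ, xx b = ∏ i, gu i ^ a i := by
    intro b
    have h1 : xx b ∈ Subgroup.closure (Set.range gu) :=
      Subgroup.closure_mono hTg (hST _ (Finset.mem_image_of_mem _ (Finset.mem_univ b)))
    obtain ⟨a, ha⟩ := Subgroup.mem_closure_range_iff_of_fintype.1 h1
    exact ⟨a, ha⟩
  choose ex hex using hSe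
  have h1 : (fun b : Fin NN => ∏ a, gg a ^ ex b a) = fun b => (xx b : K) := by
    funext b
    rw [hex b, Units.coe_prod]
    refine Finset.prod_congr rfl fun i _ => ?_
    rw [Units.val_zpow_eq_zpow_val]
    rfl
  have hmono := fn_mono hFn ex
  rw [h1] at hmono
  exact ⟨T', I', i1, i2, M, _, hmono⟩

theorem hasMon_field {k E : Type u} [Field k] [PerfectField k] [Field E] [Algebra k E]
    (hE : (Algebra.trdeg k E = 2 ∧ HasModel k E) ∨ HasLogModels k E) : HasMon k E ⊤ := by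
  intro N x _
  have hE' : Pool.Agent.W418.LCI.HasLM k E := by
    rcases hE with ⟨h2, hE⟩ | hE
    · exact Pool.Agent.W418.LCI.hasLM_of_surface k E h2 hE
    · exact Pool.Agent.W418.LCI.hasLM_of_models k E hE
  obtain ⟨T, I, i1, i2, M, Γ, h, -⟩ := hE' (Fin N) (fun i => (x i : E)) (fun i => (x i).ne_zero)
  exact ⟨T, I, i1, i2, M, Γ, h⟩

section div

variable {k K : Type u} [Field k] [Field K] [Algebra k K] {R0 R : Subalgebra k K}
    {T I : Type} [Fintype I] {G : Type}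

lemma div_mem_of_le {M : LM R0 R T I} {g : G → K} {Γ : G → I → ℤ} (h : Fn M g Γ) (a b : G)
    (t : T) (hab : ∀ i, Γ a i ≤ Γ b i ∨ (M.x t i)⁻¹ ∈ M.A t) : g b / g a ∈ M.A t := by
  obtain ⟨w, hw0, hw, hw', hg⟩ := h a t
  obtain ⟨v, hv0, hv, hv', hg'⟩ := h b t
  have h1 : g b / g a = v * w⁻¹ * ∏ i, M.x t i ^ (Γ b i - Γ a i) := by
    have h2 : ∏ i, M.x t i ^ (Γ b i - Γ a i) =
        (∏ i, M.x t i ^ Γ b i) / ∏ i, M.x t i ^ Γ a i := by
      rw [← Finset.prod_div_distrib]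
      exact Finset.prod_congr rfl fun i _ => zpow_sub₀ (M.x0 t i) _ _
    rw [h2, hg, hg', mul_div_mul_comm]
    rw [div_eq_mul_inv v w]
  rw [h1]
  refine (M.A t).mul_mem ((M.A t).mul_mem hv hw') ((M.A t).prod_mem fun i _ => ?_)
  refine zpow_mem_of (M.xA t i) ?_
  rcases hab i with h3 | h3
  · left; omega
  · exact Or.inr h3

lemma div_mem_of_cmp {M : LM R0 R T I} {g : G → K} {Γ : G → I → ℤ} (h : Fn M g Γ) {a b : G}
    (hab : Cmp M Γ a b) (t : T) : g b / g a ∈ M.A t ∨ g a / g b ∈ M.A t := by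
  rcases hab t with h1 | h1
  · exact Or.inl (div_mem_of_le h a b t h1)
  · exact Or.inr (div_mem_of_le h b a t h1)

end div

/-- Models over an affine variety on which given functions are comparable. -/
theorem exists_model {k K : Type u} [Field k] [Field K] [Algebra k K] {G : Subgroup Kˣ}
    (hM : HasMon k K G) (R : Subalgebra k K) (n : ℕ) (y : Fin n → Kˣ) (hy : ∀ i, y i ∈ G)
    (hR : R = Algebra.adjoin k (Set.range fun i => (y i : K)))
    (hfr : ∀ x : K, ∃ a ∈ R, ∃ b ∈ R, b ≠ 0 ∧ x = a * b⁻¹)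
    (N : ℕ) (x : Fin N → Kˣ) (hx : ∀ i, x i ∈ G) :
    ∃ (T I : Type) (_ : Finite T) (M : LM R R T I),
      ∀ t i j, (x i : K) / x j ∈ M.A t ∨ (x j : K) / x i ∈ M.A t := by
  classical
  obtain ⟨T, I, i1, i2, M, Γ, hF⟩ := hM (N + n) (Fin.append x y) (by
    intro i
    refine Fin.addCases (fun i => ?_) (fun i => ?_) i
    · rw [Fin.append_left]; exact hx i
    · rw [Fin.append_right]; exact hy i)
  have hS : (fun i => ((Fin.append x y i : Kˣ) : K)) '' (Set.range (Fin.natAdd N)) =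
      Set.range fun i => (y i : K) := by
    rw [← Set.range_comp]
    congr 1
    funext i
    change ((Fin.append x y (Fin.natAdd N i) : Kˣ) : K) = _
    rw [Fin.append_right]
  obtain ⟨T1, I1, j1, j2, M1, Γ1, hF1, -⟩ := all_restr k K T I (Fin (N + n)) M _ Γ hF
    (Set.range (Fin.natAdd N)) R (by rw [hS]; exact hR) hfr
  obtain ⟨T2, I2, l1, l2, l3, M2, Γ2, hE, hC⟩ := princ_all
    (fun i => ((Fin.append x y i : Kˣ) : K)) M1 Γ1
  refine ⟨T2, I2, l1, M2, fun t i j => ?_⟩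
  have h1 := div_mem_of_cmp (hE.fn hF1) (hC (Fin.castAdd n j) (Fin.castAdd n i)) t
  simp only [Fin.append_left] at h1
  exact h1

end Pool.Agent.Helper819.TR
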