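import Pool.Agent.Helper819.TR.Loc

set_option autoImplicit false
set_option linter.unusedSectionVars false

universe u

open MvPolynomial

namespace Pool.Agent.Helper819.TR

section phi

variable (K : Type u) {K' : Type u} [Field K] [Field K'] [Algebra K K'] {m : ℕ}

/-- The functions which have to be regular or to have a regular inverse. -/
inductive Ph (p : ℕ) : List (K' × (Fin m → K')) → K → Prop
  | ratio (a : K') (u : Fin m → K') (L : List (K' × (Fin m → K'))) (i j : Fin m) (x : K) :
      u i ≠ 0 → u j ≠ 0 → algebraMap K K' x = u i / u j → Ph p ((a, u) :: L) x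
  | coef (a : K') (u : Fin m → K') (L : List (K' × (Fin m → K'))) (j : Fin m) (x : K) :
      u j ≠ 0 → x ≠ 0 → algebraMap K K' x = a * u j ^ (p - 1) → Ph p ((a, u) :: L) x
  | tail (a : K') (L : List (K' × (Fin m → K'))) (x : K) : Ph p L x → Ph p ((a, 0) :: L) x
  | step (a : K') (u : Fin m → K') (L : List (K' × (Fin m → K'))) (j : Fin m) (x : K) :
      u j ≠ 0 → Ph p (L.map (psi p j (a * u j ^ (p - 1)) fun i => u i / u j)) x →
      Ph p ((a, u) :: L) x

variable {K}

lemma Ph.ne_zero {p : ℕ} {L : List (K' × (Fin m → K'))} {x : K} (h : Ph K p L x) : x ≠ 0 := by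
  induction h with
  | ratio a u L i j x hi hj hx =>
    rintro rfl
    rw [map_zero] at hx
    exact div_ne_zero hi hj hx.symm
  | coef a u L j x hj hx _ => exact hx
  | tail a L x _ ih => exact ih
  | step a u L j x _ _ ih => exact ih

lemma finite_preim (y : K') : {x : K | algebraMap K K' x = y}.Finite := by
  apply Set.Subsingleton.finite
  intro a ha b hb
  have h1 : algebraMap K K' a = y := ha
  have h2 : algebraMap K K' b = y := hb
  exact (algebraMap K K').injective (h1.trans h2.symm)

theorem Ph.finite (p : ℕ) : ∀ (n : ℕ) (L : List (K' × (Fin m → K'))), L.length = n →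
    {x : K | Ph K p L x}.Finite := by
  intro n
  induction n with
  | zero =>
    intro L hL
    rw [List.length_eq_zero_iff] at hL
    subst hL
    convert Set.finite_empty (α := K)
    ext x
    simp only [Set.mem_ofPred_eq, Set.mem_empty_iff_false, iff_false]
    intro h
    cases h
  | succ n ih =>
    intro L hL
    cases L with
    | nil => simp at hL
    | cons d L =>
      obtain ⟨a, u⟩ := d
      have hL' : L.length = n := by simpa using hL
      have h1 : {x : K | Ph K p ((a, u) :: L) x} ⊆
          (⋃ i, ⋃ j, {x : K | algebraMap K K' x = u i / u j}) ∪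
          (⋃ j, {x : K | algebraMap K K' x = a * u j ^ (p - 1)}) ∪ {x | Ph K p L x} ∪
          ⋃ j, {x | Ph K p (L.map (psi p j (a * u j ^ (p - 1)) fun i => u i / u j)) x} := by
        intro x hx
        cases hx with
        | ratio _ _ _ i j _ _ _ h =>
          exact Or.inl (Or.inl (Or.inl (Set.mem_iUnion₂.2 ⟨i, j, h⟩)))
        | coef _ _ _ j _ _ _ h => exact Or.inl (Or.inl (Or.inr (Set.mem_iUnion.2 ⟨j, h⟩)))
        | tail _ _ _ h => exact Or.inl (Or.inr h)
        | step _ _ _ j _ _ h => exact Or.inr (Set.mem_iUnion.2 ⟨j, h⟩)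
      refine ((((Set.finite_iUnion fun i => Set.finite_iUnion fun j => finite_preim _).union
        (Set.finite_iUnion fun j => finite_preim _)).union (ih L hL')).union
        (Set.finite_iUnion fun j => ih _ ?_)).subset h1
      rw [List.length_map, hL']

/-- The data of a group scheme which is homogeneous with respect to the factors `b`. -/
def Hg (p : ℕ) (G : Subgroup Kˣ) (F : Subfield K') (b : Fin m → Kˣ)
    (d : K' × (Fin m → K')) : Prop :=
  ∃ c ∈ G, (∃ e ∈ F, d.1 = e * algebraMap K K' (c : K) ^ (p - 1)) ∧
    ∀ i, ∃ e ∈ F, d.2 i = e * algebraMap K K' (b i : K) / algebraMap K K' (c : K)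

theorem Ph.mem {p : ℕ} (hp : p.Prime) (G : Subgroup Kˣ) (F : Subfield K')
    (hG : ∀ g : Kˣ, algebraMap K K' (g : K) ∈ F → g ∈ G)
    {L : List (K' × (Fin m → K'))} {x : K}
    (h : Ph K p L x) : ∀ b : Fin m → Kˣ, (∀ i, b i ∈ G) → (∀ d ∈ L, Hg p G F b d) →
    ∃ g ∈ G, (g : K) = x := by
  have hp1 := hp.one_lt
  have hne : ∀ g : Kˣ, algebraMap K K' (g : K) ≠ 0 := fun g =>
    (map_ne_zero (algebraMap K K')).2 g.ne_zero
  induction h with
  | ratio a u L i j x hi hj hx =>
    intro b hb hd
    obtain ⟨c, hc, -, h2⟩ := hd _ List.mem_cons_self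
    obtain ⟨e, he, he'⟩ := h2 i
    obtain ⟨e0, he0, he0'⟩ := h2 j
    change u i = _ at he'
    change u j = _ at he0'
    have hx0 : x ≠ 0 := by
      rintro rfl
      rw [map_zero] at hx
      exact div_ne_zero hi hj hx.symm
    have he00 : e0 ≠ 0 := by
      rintro rfl
      apply hj
      rw [he0', zero_mul, zero_div]
    have h3 : Units.mk0 x hx0 * b j / b i ∈ G := by
      apply hG
      rw [Units.val_div_eq_div_val, Units.val_mul, map_div₀, map_mul, Units.val_mk0, hx, he', he0']
      have h4 : e * algebraMap K K' (b i : K) / algebraMap K K' (c : K) /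
          (e0 * algebraMap K K' (b j : K) / algebraMap K K' (c : K)) *
          algebraMap K K' (b j : K) / algebraMap K K' (b i : K) = e / e0 := by
        have h5 := hne (b i)
        have h6 := hne (b j)
        have h7 := hne c
        field_simp
      rw [h4]
      exact F.div_mem he he0
    refine ⟨Units.mk0 x hx0, ?_, rfl⟩
    have h4 : Units.mk0 x hx0 = Units.mk0 x hx0 * b j / b i * b i / b j := by
      rw [div_mul_cancel, mul_div_cancel_right]
    rw [h4]
    exact G.div_mem (G.mul_mem h3 (hb i)) (hb j)
  | coef a u L j x hj hx0 hx =>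
    intro b hb hd
    obtain ⟨c, hc, ⟨f, hf, hf'⟩, h2⟩ := hd _ List.mem_cons_self
    obtain ⟨e, he, he'⟩ := h2 j
    change u j = _ at he'
    change a = _ at hf'
    have h3 : Units.mk0 x hx0 / b j ^ (p - 1) ∈ G := by
      apply hG
      rw [Units.val_div_eq_div_val, map_div₀, Units.val_mk0, hx, he', hf',
        Units.val_pow_eq_pow_val, map_pow]
      have h4 : f * algebraMap K K' (c : K) ^ (p - 1) *
          (e * algebraMap K K' (b j : K) / algebraMap K K' (c : K)) ^ (p - 1) /
          algebraMap K K' (b j : K) ^ (p - 1) = f * e ^ (p - 1) := by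
        have h6 := hne (b j)
        have h7 := hne c
        rw [div_pow, mul_pow]
        field_simp
      rw [h4]
      exact F.mul_mem hf (F.pow_mem he _)
    refine ⟨Units.mk0 x hx0, ?_, rfl⟩
    have h4 : Units.mk0 x hx0 = Units.mk0 x hx0 / b j ^ (p - 1) * b j ^ (p - 1) := by
      rw [div_mul_cancel]
    rw [h4]
    exact G.mul_mem h3 (G.pow_mem (hb j) _)
  | tail a L x _ ih =>
    intro b hb hd
    exact ih b hb fun d hd' => hd d (List.mem_cons_of_mem _ hd')
  | step a u L j x hj _ ih =>
    intro b hb hd
    obtain ⟨c0, hc0, ⟨f0, hf0m, hf0⟩, h0⟩ := hd _ List.mem_cons_self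
    choose e0 he0m he0 using h0
    change a = _ at hf0
    change ∀ i, u i = _ at he0
    refine ih (fun i => if i = j then b j ^ p else b i) ?_ ?_
    · intro i
      split_ifs
      · exact G.pow_mem (hb j) p
      · exact hb i
    · intro d' hd'
      obtain ⟨d, hd1, rfl⟩ := List.mem_map.1 hd'
      obtain ⟨c, hc, ⟨f, hfm, hf⟩, h1⟩ := hd d (List.mem_cons_of_mem _ hd1)
      choose e hem he using h1
      refine ⟨c, hc, ⟨f, hfm, hf⟩, fun i => ?_⟩
      have hbj := hne (b j)
      have hc00 := hne c0
      have hcc := hne c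
      have hej : e0 j ≠ 0 := by
        intro h0
        apply hj
        rw [he0, h0, zero_mul, zero_div]
      have hcp : algebraMap K K' (c : K) ^ p =
          algebraMap K K' (c : K) ^ (p - 1) * algebraMap K K' (c : K) := by
        rw [← pow_succ]; congr 1; omega
      have hbp : algebraMap K K' (b j : K) ^ p =
          algebraMap K K' (b j : K) ^ (p - 1) * algebraMap K K' (b j : K) := by
        rw [← pow_succ]; congr 1; omega
      by_cases hij : i = j
      · subst hij
        refine ⟨f * e i ^ p - f0 * e0 i ^ (p - 1) * e i, F.sub_mem (F.mul_mem hfm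
          (F.pow_mem (hem i) _)) (F.mul_mem (F.mul_mem hf0m (F.pow_mem (he0m i) _)) (hem i)), ?_⟩
        have e1 : (psi p i (a * u i ^ (p - 1)) (fun l => u l / u i) d).2 i =
          d.1 * d.2 i ^ p - a * u i ^ (p - 1) * d.2 i := if_pos rfl
        have e2 : (if i = i then b i ^ p else b i) = b i ^ p := if_pos rfl
        beta_reduce
        rw [e1, e2, hf, hf0, he0, he i]
        simp only [map_pow, Units.val_pow_eq_pow_val, div_pow, mul_pow]
        rw [hcp, hbp]
        field_simp
      · refine ⟨e i - e0 i / e0 j * e j, F.sub_mem (hem i)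
          (F.mul_mem (F.div_mem (he0m i) (he0m j)) (hem j)), ?_⟩
        have e1 : (psi p j (a * u j ^ (p - 1)) (fun l => u l / u j) d).2 i =
          d.2 i - u i / u j * d.2 j := if_neg hij
        have e2 : (if i = j then b j ^ p else b i) = b i := if_neg hij
        beta_reduce
        rw [e1, e2, he i, he j, he0 i, he0 j]
        field_simp

variable (K)

/-- The data are rational over `K`. -/
inductive Rt (p : ℕ) : List (K' × (Fin m → K')) → Prop
  | nil : Rt p []
  | zero (a : K') (L : List (K' × (Fin m → K'))) : Rt p L → Rt p ((a, 0) :: L)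
  | cons (a : K') (u : Fin m → K') (L : List (K' × (Fin m → K'))) : u ≠ 0 →
      (∀ i j, u j ≠ 0 → ∃ x : K, algebraMap K K' x = u i / u j) →
      (∀ j, u j ≠ 0 → ∃ x : K, algebraMap K K' x = a * u j ^ (p - 1)) →
      (∀ j, u j ≠ 0 → Rt p (L.map (psi p j (a * u j ^ (p - 1)) fun i => u i / u j))) →
      Rt p ((a, u) :: L)

end phi

section stable

variable {K K' : Type u} [Field K] [Field K'] [Algebra K K'] {m : ℕ} {p : ℕ}
  [hp : Fact p.Prime] [CharP K' p]

/-- The additive map on vectors. -/
def psiA (p : ℕ) [hp : Fact p.Prime] [CharP K' p] (j : Fin m) (c : K') (w : Fin m → K')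
    (a : K') : (Fin m → K') →+ (Fin m → K') where
  toFun v := (psi p j c w (a, v)).2
  map_zero' := by
    funext i
    unfold psi
    have := hp.out.ne_zero
    simp [this]
  map_add' := by
    intro v v'
    funext i
    unfold psi
    simp only [Pi.add_apply]
    split_ifs
    · rw [add_pow_char]; ring
    · ring

lemma psiA_apply (j : Fin m) (c : K') (w : Fin m → K') (a : K') (v : Fin m → K') :
    psiA p j c w a v = (psi p j c w (a, v)).2 := rfl

/-- The condition on a member of the flag. -/
def Cd (Gs : Set (K' →+* K')) (pre : Set (K' × (Fin m → K'))) (d : K' × (Fin m → K')) : Prop :=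
  ∀ σ ∈ Gs, σ d.1 = d.1 ∧ ∃ χ : ℤ, (fun i => σ (d.2 i)) - χ • d.2 ∈
    AddSubgroup.closure {v | (d.1, v) ∈ pre}

/-- Stable flags. -/
def St (Gs : Set (K' →+* K')) : Set (K' × (Fin m → K')) → List (K' × (Fin m → K')) → Prop
  | _, [] => True
  | pre, d :: L => Cd Gs pre d ∧ St Gs (insert d pre) L

lemma Cd.map {Gs : Set (K' →+* K')} {pre : Set (K' × (Fin m → K'))} {d : K' × (Fin m → K')}
    {h : K' × (Fin m → K')} (hd : Cd Gs (insert h pre) d) (j : Fin m) (c : K') (w : Fin m → K')
    (hc : ∀ σ ∈ Gs, σ c = c) (hw : ∀ σ ∈ Gs, ∀ i, σ (w i) = w i)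
    (hh : (psi p j c w h).2 = 0) :
    Cd Gs (psi p j c w '' pre) (psi p j c w d) := by
  intro σ hσ
  obtain ⟨h1, χ, h2⟩ := hd σ hσ
  refine ⟨h1, χ, ?_⟩
  have e1 : (fun i => σ ((psi p j c w d).2 i)) - χ • (psi p j c w d).2 =
      psiA p j c w d.1 ((fun i => σ (d.2 i)) - χ • d.2) := by
    rw [map_sub, map_zsmul, psiA_apply, psiA_apply]
    congr 1
    funext i
    unfold psi
    simp only
    split_ifs
    · rw [map_sub, map_mul, map_mul, map_pow, h1, hc σ hσ]
    · rw [map_sub, map_mul, hw σ hσ]
  rw [e1]
  have e2 : AddSubgroup.closure {v | (d.1, v) ∈ insert h pre} ≤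
      (AddSubgroup.closure {v | ((psi p j c w d).1, v) ∈ psi p j c w '' pre}).comap
        (psiA p j c w d.1) := by
    rw [AddSubgroup.closure_le]
    intro v hv
    change psiA p j c w d.1 v ∈ AddSubgroup.closure _
    rcases Set.mem_insert_iff.1 (show (d.1, v) ∈ insert h pre from hv) with hv | hv
    · have : psiA p j c w d.1 v = 0 := by
        rw [psiA_apply, hv]
        exact hh
      rw [this]
      exact AddSubgroup.zero_mem _
    · apply AddSubgroup.subset_closure
      exact ⟨(d.1, v), hv, rfl⟩
  exact e2 h2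

lemma St.map {Gs : Set (K' →+* K')} {h : K' × (Fin m → K')} (j : Fin m) (c : K')
    (w : Fin m → K')
    (hc : ∀ σ ∈ Gs, σ c = c) (hw : ∀ σ ∈ Gs, ∀ i, σ (w i) = w i)
    (hh : (psi p j c w h).2 = 0) (L : List (K' × (Fin m → K'))) :
    ∀ {pre : Set (K' × (Fin m → K'))}, St Gs (insert h pre) L →
    St Gs (psi p j c w '' pre) (L.map (psi p j c w)) := by
  induction L with
  | nil => intro pre _; trivial
  | cons d L ih =>
    intro pre hs
    obtain ⟨h1, h2⟩ := hs
    refine ⟨h1.map j c w hc hw hh, ?_⟩
    rw [Set.insert_comm] at h2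
    have h3 := ih h2
    rwa [Set.image_insert_eq] at h3

lemma St.zero {Gs : Set (K' →+* K')} (a : K') (L : List (K' × (Fin m → K'))) :
    ∀ {pre : Set (K' × (Fin m → K'))}, St Gs (insert (a, 0) pre) L → St Gs pre L := by
  induction L with
  | nil => intro pre _; trivial
  | cons d L ih =>
    intro pre hs
    obtain ⟨h1, h2⟩ := hs
    refine ⟨?_, ?_⟩
    · intro σ hσ
      obtain ⟨h3, χ, h4⟩ := h1 σ hσ
      refine ⟨h3, χ, ?_⟩
      have e2 : AddSubgroup.closure {v | (d.1, v) ∈ insert (a, 0) pre} ≤
          AddSubgroup.closure {v | (d.1, v) ∈ pre} := by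
        rw [AddSubgroup.closure_le]
        intro v hv
        rcases Set.mem_insert_iff.1 (show (d.1, v) ∈ insert (a, 0) pre from hv) with hv | hv
        · have : v = 0 := (Prod.mk.inj hv).2
          rw [this]
          exact AddSubgroup.zero_mem _
        · exact AddSubgroup.subset_closure hv
      exact e2 h4
    · rw [Set.insert_comm] at h2
      exact ih h2

theorem rt_of_st (Gs : Set (K' →+* K'))
    (h1 : ∀ x : K', (∀ σ ∈ Gs, σ x = x) → ∃ y : K, algebraMap K K' y = x)  :
    ∀ (n : ℕ) (L : List (K' × (Fin m → K'))), L.length = n → St Gs ∅ L → Rt K p L := by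
  intro n
  induction n with
  | zero =>
    intro L hL _
    rw [List.length_eq_zero_iff] at hL
    subst hL
    exact Rt.nil
  | succ n ih =>
    intro L hL hs
    cases L with
    | nil => simp at hL
    | cons d L =>
      obtain ⟨a, u⟩ := d
      have hL' : L.length = n := by simpa using hL
      obtain ⟨h2, h3⟩ := hs
      have h4 : ∀ σ ∈ Gs, σ a = a ∧ ∃ χ : ℤ, ∀ i, σ (u i) = (χ : K') * u i := by
        intro σ hσ
        obtain ⟨h5, χ, h6⟩ := h2 σ hσ
        refine ⟨h5, χ, fun i => ?_⟩
        have e1 : {v : Fin m → K' | ((a, u).1, v) ∈ (∅ : Set (K' × (Fin m → K')))} = ∅ := by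
          ext v
          constructor
          · intro h; exact h.elim
          · intro h; exact h.elim
        rw [e1, AddSubgroup.closure_empty, AddSubgroup.mem_bot, sub_eq_zero] at h6
        have := congrFun h6 i
        simp only [Pi.smul_apply, zsmul_eq_mul] at this
        exact this
      by_cases hu : u = 0
      · subst hu
        exact Rt.zero a L (ih L hL' (St.zero a L h3))
      · have hr : ∀ σ ∈ Gs, ∀ i j, u j ≠ 0 → σ (u i / u j) = u i / u j := by
          intro σ hσ i j hj
          obtain ⟨-, χ, h5⟩ := h4 σ hσ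
          have h6 : (χ : K') ≠ 0 := by
            intro h0
            have h7 := h5 j
            rw [h0, zero_mul, map_eq_zero] at h7
            exact hj h7
          rw [map_div₀, h5 i, h5 j]
          field_simp
        have hcf : ∀ σ ∈ Gs, ∀ j, u j ≠ 0 → σ (a * u j ^ (p - 1)) = a * u j ^ (p - 1) := by
          intro σ hσ j hj
          obtain ⟨h8, χ, h5⟩ := h4 σ hσ
          have h6 : (χ : K') ≠ 0 := by
            intro h0
            have h7 := h5 j
            rw [h0, zero_mul, map_eq_zero] at h7
            exact hj h7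
          have h9 : ((χ : ZMod p)) ≠ 0 := by
            intro h0
            apply h6
            have : (χ : K') = ZMod.castHom (dvd_refl p) K' (χ : ZMod p) := by
              rw [map_intCast]
            rw [this, h0, map_zero]
          have h10 : (χ : K') ^ (p - 1) = 1 := by
            have : (χ : K') = ZMod.castHom (dvd_refl p) K' (χ : ZMod p) := by
              rw [map_intCast]
            rw [this, ← map_pow, ZMod.pow_card_sub_one_eq_one h9, map_one]
          rw [map_mul, map_pow, h8, h5 j, mul_pow, h10, one_mul]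
        refine Rt.cons a u L hu (fun i j hj => h1 _ fun σ hσ => hr σ hσ i j hj)
          (fun j hj => h1 _ fun σ hσ => hcf σ hσ j hj) fun j hj => ?_
        refine ih _ (by rw [List.length_map, hL']) ?_
        have h5 := St.map (p := p) (h := (a, u)) j (a * u j ^ (p - 1)) (fun i => u i / u j)
          (fun σ hσ => hcf σ hσ j hj) (fun σ hσ i => hr σ hσ i j hj) (by
            rw [psi_self p hp.out a (a * u j ^ (p - 1)) u (fun i => u i / u j) j
              (fun i => by field_simp) rfl]) L h3
        rwa [Set.image_empty] at h5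

end stable

section cmp

variable {k K K' : Type u} [Field k] [Field K] [Field K'] [Algebra k K] [Algebra K K'] {m : ℕ}
  (p : ℕ) [hp : Fact p.Prime] [CharP K' p] (O : Subalgebra k K)

lemma exists_min (v : Fin m → K) (s : Finset (Fin m)) (hs : s.Nonempty)
    (h0 : ∀ i ∈ s, v i ≠ 0) (h : ∀ i ∈ s, ∀ j ∈ s, v i / v j ∈ O ∨ v j / v i ∈ O) :
    ∃ j ∈ s, ∀ i ∈ s, v i / v j ∈ O := by
  classical
  induction hs using Finset.Nonempty.cons_induction with
  | singleton a =>
    refine ⟨a, by simp, ?_⟩
    intro i hi
    rw [Finset.mem_singleton] at hi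
    subst hi
    rw [div_self (h0 _ (by simp))]
    exact O.one_mem
  | cons a s ha hs ih =>
    obtain ⟨j, hj, hj'⟩ := ih (fun i hi => h0 i (Finset.mem_cons_of_mem hi))
      (fun i hi j hj => h i (Finset.mem_cons_of_mem hi) j (Finset.mem_cons_of_mem hj))
    have ha0 := h0 a (Finset.mem_cons_self _ _)
    have hj0 := h0 j (Finset.mem_cons_of_mem hj)
    rcases h a (Finset.mem_cons_self _ _) j (Finset.mem_cons_of_mem hj) with h1 | h1
    · refine ⟨j, Finset.mem_cons_of_mem hj, ?_⟩
      intro i hi
      rcases Finset.mem_cons.1 hi with rfl | hi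
      · exact h1
      · exact hj' i hi
    · refine ⟨a, Finset.mem_cons_self _ _, ?_⟩
      intro i hi
      rcases Finset.mem_cons.1 hi with rfl | hi
      · rw [div_self ha0]; exact O.one_mem
      · have h2 : v i / v a = v i / v j * (v j / v a) := by field_simp
        rw [h2]
        exact O.mul_mem (hj' i hi) h1

theorem gd_of_cmp {L : List (K' × (Fin m → K'))} (hL : Rt K p L) :
    (∀ x, Ph K p L x → x ∈ O ∨ x⁻¹ ∈ O) →
    (∀ d ∈ L, IsIntegral O d.1 ∧ ∀ i, IsIntegral O (d.2 i)) → Gd O p L := by
  classical
  induction hL with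
  | nil => exact fun _ _ => Gd.nil
  | zero a L _ ih =>
    intro h1 h2
    exact Gd.zero a L (ih (fun x hx => h1 x (Ph.tail a L x hx))
      fun d hd => h2 d (List.mem_cons_of_mem _ hd))
  | cons a u L hu hr hc _ ih =>
    intro h1 h2
    obtain ⟨j0, hj0⟩ : ∃ j, u j ≠ 0 := by
      by_contra h
      push Not at h
      exact hu (funext h)
    choose v hv using fun i => hr i j0 hj0
    have hv0 : ∀ i, u i ≠ 0 → v i ≠ 0 := by
      intro i hi h0
      have := hv i
      rw [h0, map_zero] at this
      exact div_ne_zero hi hj0 this.symm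
    have hvd : ∀ i j, algebraMap K K' (v i / v j) = u i / u j := by
      intro i j
      rw [map_div₀, hv, hv, div_div_div_cancel_right₀ hj0]
    let s : Finset (Fin m) := Finset.univ.filter fun i => u i ≠ 0
    have hs : s.Nonempty := ⟨j0, Finset.mem_filter.2 ⟨Finset.mem_univ _, hj0⟩⟩
    have hs' : ∀ i ∈ s, u i ≠ 0 := fun i hi => (Finset.mem_filter.1 hi).2
    obtain ⟨j, hj, hjm⟩ := exists_min O v s hs (fun i hi => hv0 i (hs' i hi)) (by
      intro i hi j hj
      rcases h1 (v i / v j) (Ph.ratio a u L i j _ (hs' i hi) (hs' j hj) (hvd i j)) with h | h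
      · exact Or.inl h
      · rw [inv_div] at h
        exact Or.inr h)
    have hj' := hs' j hj
    have hw : ∀ i, v i / v j ∈ O := by
      intro i
      by_cases hi : u i = 0
      · have h3 : v i = 0 := by
          have := hv i
          rw [hi, zero_div, map_eq_zero] at this
          exact this
        rw [h3, zero_div]; exact O.zero_mem
      · exact hjm i (Finset.mem_filter.2 ⟨Finset.mem_univ _, hi⟩)
    obtain ⟨c, hc'⟩ := hc j hj'
    have hcO : c ∈ O := by
      by_cases hc0 : c = 0
      · rw [hc0]; exact O.zero_mem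
      rcases h1 c (Ph.coef a u L j c hj' hc0 hc') with h | h
      · exact h
      · have h3 : IsIntegral O (algebraMap K K' c) := by
          rw [hc']
          obtain ⟨h4, h5⟩ := h2 _ List.mem_cons_self
          exact h4.mul ((h5 j).pow _)
        have h4 : IsIntegral O c :=
          (isIntegral_algebraMap_iff (algebraMap K K').injective).1 h3
        -- an integral element whose inverse is in the ring
        obtain ⟨P, hP, hP0⟩ := h4
        have h6 : c ^ P.natDegree = - ∑ i ∈ Finset.range P.natDegree,
            (P.coeff i : K) * c ^ i := by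
          have h7 : Polynomial.eval₂ (algebraMap O K) c P =
              ∑ i ∈ Finset.range (P.natDegree + 1), (P.coeff i : K) * c ^ i :=
            Polynomial.eval₂_eq_sum_range _ _
          rw [h7, Finset.sum_range_succ] at hP0
          have h8 : (P.coeff P.natDegree : K) = 1 := by
            rw [hP.coeff_natDegree]; rfl
          rw [h8, one_mul] at hP0
          linear_combination hP0
        have hn : P.natDegree ≠ 0 := by
          intro h0
          rw [h0] at h6
          simp at h6
        have h9 : c = - ∑ i ∈ Finset.range P.natDegree,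
            (P.coeff i : K) * c⁻¹ ^ (P.natDegree - 1 - i) := by
          have h10 : c = c ^ P.natDegree * c⁻¹ ^ (P.natDegree - 1) := by
            have h11 : c ^ P.natDegree = c * c ^ (P.natDegree - 1) := by
              rw [← pow_succ']; congr 1; omega
            rw [h11, mul_assoc, ← mul_pow, mul_inv_cancel₀ hc0, one_pow, mul_one]
          conv_lhs => rw [h10, h6]
          rw [neg_mul, Finset.sum_mul]
          congr 1
          refine Finset.sum_congr rfl fun i hi => ?_
          have hi' := Finset.mem_range.1 hi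
          have h12 : c⁻¹ ^ (P.natDegree - 1) = c⁻¹ ^ i * c⁻¹ ^ (P.natDegree - 1 - i) := by
            rw [← pow_add]; congr 1; omega
          rw [h12, mul_assoc, ← mul_assoc (c ^ i), ← mul_pow, mul_inv_cancel₀ hc0, one_pow,
            one_mul]
        rw [h9]
        exact O.neg_mem (O.sum_mem fun i _ => O.mul_mem (P.coeff i).2 (O.pow_mem h _))
    refine Gd.cons a u L j ⟨c, hcO⟩ (fun i => ⟨_, hw i⟩) hj' ?_ hc'.symm ?_
    · intro i
      change u i = algebraMap K K' (v i / v j) * u j
      rw [hvd]
      field_simp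
    · have e1 : (fun i => algebraMap O K' ⟨v i / v j, hw i⟩) = fun i => u i / u j :=
        funext fun i => hvd i j
      have e2 : algebraMap O K' ⟨c, hcO⟩ = a * u j ^ (p - 1) := hc'
      rw [e1, e2]
      refine ih j hj' (fun x hx => h1 x (Ph.step a u L j x hj' hx)) ?_
      intro d' hd'
      obtain ⟨d, hd, rfl⟩ := List.mem_map.1 hd'
      obtain ⟨h3, h4⟩ := h2 d (List.mem_cons_of_mem _ hd)
      refine ⟨h3, fun i => ?_⟩
      have h5 : ∀ x : O, IsIntegral O (algebraMap O K' x) := fun x => isIntegral_algebraMap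
      unfold psi
      dsimp only
      split_ifs
      · rw [← e2]
        exact (h3.mul ((h4 j).pow p)).sub ((h5 _).mul (h4 j))
      · rw [← hvd]
        exact (h4 i).sub ((h5 ⟨_, hw i⟩).mul (h4 j))

end cmp

end Pool.Agent.Helper819.TR
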