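import Pool.Agent.Helper819.TR.Red

set_option autoImplicit false
set_option linter.unusedSectionVars false

universe u v

open MvPolynomial

namespace Pool.Agent.Helper819.TR

section tr

variable {R : Type u} [CommRing R] {m : ℕ}

/-- The translation `f (x) ↦ f (x + v)`. -/
noncomputable def tr (v : Fin m → R) : MvPolynomial (Fin m) R →ₐ[R] MvPolynomial (Fin m) R :=
  aeval fun i => X i + C (v i)

lemma tr_X (v : Fin m → R) (i : Fin m) : tr v (X i) = X i + C (v i) := by
  rw [tr, aeval_X]

lemma tr_C (v : Fin m → R) (a : R) : tr v (C a) = C a := by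
  rw [tr, aeval_C]; rfl

lemma tr_zero (f : MvPolynomial (Fin m) R) : tr (0 : Fin m → R) f = f := by
  have h : (tr (0 : Fin m → R)) = AlgHom.id R _ := by
    apply algHom_ext
    intro i
    rw [tr_X]
    simp
  rw [h]; rfl

/-- The invariants of a group of translations. -/
def invT (O : Type u) {K' : Type u} [CommRing O] [CommRing K'] [Algebra O K'] {m : ℕ}
    (Λ : Set (Fin m → K')) : Subalgebra O (MvPolynomial (Fin m) O) where
  carrier := {f | ∀ v ∈ Λ, tr v (MvPolynomial.map (algebraMap O K') f) =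
    MvPolynomial.map (algebraMap O K') f}
  mul_mem' := by
    intro f g hf hg v hv
    rw [map_mul, map_mul, hf v hv, hg v hv]
  add_mem' := by
    intro f g hf hg v hv
    rw [map_add, map_add, hf v hv, hg v hv]
  algebraMap_mem' := by
    intro a v _
    rw [MvPolynomial.algebraMap_eq, MvPolynomial.map_C, tr_C]

lemma mem_invT {O K' : Type u} [CommRing O] [CommRing K'] [Algebra O K'] {m : ℕ}
    {Λ : Set (Fin m → K')} {f : MvPolynomial (Fin m) O} :
    f ∈ invT O Λ ↔ ∀ v ∈ Λ, tr v (MvPolynomial.map (algebraMap O K') f) =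
      MvPolynomial.map (algebraMap O K') f := Iff.rfl

end tr

section maps

variable {O : Type u} [CommRing O] {m r : ℕ} (p : ℕ)
  (ι : Fin r → Fin m) (κ : Fin r → ℕ) (U : Fin m → Fin r → O) (F : Fin r → Fin r → O)

/-- The isogeny. -/
noncomputable def Psi : MvPolynomial (Fin m ⊕ Fin r) O →ₐ[O] MvPolynomial (Fin m ⊕ Fin r) O :=
  aeval (Sum.elim (fun i => X (Sum.inl i))
    fun l => X (Sum.inr l) ^ p - ∑ s, C (F l s) * X (Sum.inr s))

/-- The map `f (x) ↦ f (Y + U e)`. -/
noncomputable def sub : MvPolynomial (Fin m) O →ₐ[O] MvPolynomial (Fin m ⊕ Fin r) O :=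
  aeval fun i => X (Sum.inl i) + ∑ l, C (U i l) * X (Sum.inr l)

/-- The restriction to the graph. -/
noncomputable def eta : MvPolynomial (Fin m ⊕ Fin r) O →ₐ[O] MvPolynomial (Fin m) O :=
  aeval (Sum.elim (fun i => X i - ∑ l, C (U i l) * X (ι l) ^ p ^ κ l)
    fun l => X (ι l) ^ p ^ κ l)

lemma eta_sub (f : MvPolynomial (Fin m) O) : eta p ι κ U (sub U f) = f := by
  have h : (eta p ι κ U).comp (sub U) = AlgHom.id O _ := by
    apply algHom_ext
    intro i
    rw [AlgHom.comp_apply, sub, aeval_X, map_add, map_sum, eta, aeval_X]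
    simp only [map_mul, aeval_X, Sum.elim_inl, Sum.elim_inr, aeval_C, AlgHom.coe_id, id_eq,
      MvPolynomial.algebraMap_eq]
    ring
  have := congrArg (fun g => g f) h
  exact this

lemma Psi_inl (i : Fin m) : Psi p F (X (Sum.inl i)) = X (Sum.inl i) := by
  rw [Psi, aeval_X]; rfl

lemma Psi_inr (l : Fin r) : Psi (m := m) p F (X (Sum.inr l)) =
    X (Sum.inr l) ^ p - ∑ s, C (F l s) * X (Sum.inr s) := by
  rw [Psi, aeval_X]; rfl

lemma Psi_C (a : O) : Psi (m := m) p F (C a) = C a := by
  rw [Psi, aeval_C]; rfl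

/-- Every polynomial is a combination of reduced monomials. -/
lemma sp_all (hp : 1 < p) (f : MvPolynomial (Fin m ⊕ Fin r) O) :
    Sp (Psi (m := m) p F).toRingHom
      (fun l : Fin r => X (Sum.inr l)) p f := by
  rw [← MvPolynomial.support_sum_monomial_coeff f]
  refine Sp.sum _ _ fun s _ => ?_
  rw [MvPolynomial.monomial_eq, Finsupp.prod_fintype _ _ (fun i => pow_zero _),
    Fintype.prod_sum_type, ← mul_assoc]
  have h1 : C (coeff s f) * ∏ i : Fin m, (X (Sum.inl i) : MvPolynomial (Fin m ⊕ Fin r) O) ^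
      s (Sum.inl i) = (Psi (m := m) p F).toRingHom
        (C (coeff s f) * ∏ i : Fin m, X (Sum.inl i) ^ s (Sum.inl i)) := by
    change _ = Psi p F (C (coeff s f) * ∏ i : Fin m, X (Sum.inl i) ^ s (Sum.inl i))
    rw [map_mul, Psi_C, map_prod]
    congr 1
    refine Finset.prod_congr rfl fun i _ => ?_
    rw [map_pow, Psi_inl]
  rw [h1]
  refine Sp.smul ?_ _
  refine sp_monomial hp (fun l => X (Sum.inr l)) (fun l s => C (F l s)) ?_ _
    (fun l => s (Sum.inr l)) rfl
  intro l
  change _ = Psi p F (X (Sum.inr l)) + ∑ s, Psi p F (C (F l s)) * X (Sum.inr s)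
  rw [Psi_inr]
  simp only [Psi_C]
  ring

theorem Psi_injective [IsDomain O] (hp : 1 < p) : Function.Injective (Psi (m := m) p F) := by
  let x : Fin m ⊕ Fin r → MvPolynomial (Fin m ⊕ Fin r) O := Sum.elim (fun i => X (Sum.inl i))
    fun l => X (Sum.inr l) ^ p - ∑ s, C (F l s) * X (Sum.inr s)
  have hrange : (Psi (m := m) p F).range = Algebra.adjoin O (Set.range x) := by
    rw [Algebra.adjoin_range_eq_range_aeval]
    rfl
  -- the polynomial ring is integral over the image
  have hfin : Module.Finite (Algebra.adjoin O (Set.range x))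
      (MvPolynomial (Fin m ⊕ Fin r) O) := by
    refine ⟨(Set.finite_range fun (α : Fin r → Fin p) =>
      red (fun l : Fin r => (X (Sum.inr l) : MvPolynomial (Fin m ⊕ Fin r) O)) α).toFinset, ?_⟩
    rw [eq_top_iff]
    intro f _
    obtain ⟨c, hc⟩ := sp_all p F hp f
    rw [hc]
    refine Submodule.sum_mem _ fun α _ => ?_
    have h1 : Psi p F (c α) ∈ Algebra.adjoin O (Set.range x) := by
      rw [← hrange]; exact ⟨c α, rfl⟩
    have h2 : (Psi (m := m) p F).toRingHom (c α) *
        red (fun l : Fin r => (X (Sum.inr l) : MvPolynomial (Fin m ⊕ Fin r) O)) α =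
        (⟨_, h1⟩ : Algebra.adjoin O (Set.range x)) •
        red (fun l : Fin r => (X (Sum.inr l) : MvPolynomial (Fin m ⊕ Fin r) O)) α := rfl
    rw [h2]
    refine Submodule.smul_mem _ _ (Submodule.subset_span ?_)
    rw [Set.Finite.coe_toFinset]
    exact ⟨α, rfl⟩
  have halg : Algebra.IsAlgebraic (Algebra.adjoin O (Set.range x))
      (MvPolynomial (Fin m ⊕ Fin r) O) := inferInstance
  have h1 := Algebra.IsAlgebraic.isTranscendenceBasis_of_lift_le_trdeg_of_finite O x (by
    rw [MvPolynomial.trdeg_of_isDomain]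
    simp)
  exact h1.1

end maps

end Pool.Agent.Helper819.TR
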